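import Pool.Agent.Lib.G5.QDefs

/-!
# G5: the dyadic blocks
-/

set_option autoImplicit false

open Finset

namespace Pool.Agent.Lib.G5

/-- the primes of `(w, w']` in the dyadic interval `(2^i, 2^(i+1)]` -/
def SI (w w' i : ℕ) : Finset ℕ := (PP w w').filter fun p => 2 ^ i < p ∧ p ≤ 2 ^ (i + 1)

open Classical in
/-- the blocks `(i, j, g)`: `p` in `(2^i, 2^(i+1)]`, `m` in `[2^j, 2^(j+1))`, `r` in `(2^g, 2^(g+1)]` -/
noncomputable def Ix (Y e k w w' : ℕ) : Finset (ℕ × ℕ × ℕ) :=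
  ((range (Nat.log 2 Y + 1)) ×ˢ (range (Nat.log 2 Y + 1)) ×ˢ (range (Nat.log 2 Y + 1))).filter fun b =>
    (SI w w' b.1).Nonempty ∧ 2 ^ b.2.1 ≤ w' ^ (k - 2) ∧ (Y : ℝ) / (Real.log Y) ^ e ≤ ((2 ^ b.1 * 2 ^ b.2.1 * 2 ^ b.2.2 : ℕ) : ℝ) ∧
      2 ^ b.1 * 2 ^ b.2.1 * 2 ^ b.2.2 ≤ Y

/-- the block function of the block `b` -/
noncomputable def bB (k w w' : ℕ) (b : ℕ × ℕ × ℕ) (n : ℕ) : ℝ := bS (SI w w' b.1) (aS k w w') (2 ^ b.2.2) (2 ^ b.2.1) n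

/-- the mass of the block `b` below `N` -/
noncomputable def DB (k w w' : ℕ) (b : ℕ × ℕ × ℕ) (N : ℕ) : ℝ := DD (SI w w' b.1) (aS k w w') (2 ^ b.2.2) (2 ^ b.2.1) N

/-- the weighted count of the block `b` -/
noncomputable def WB (k w w' : ℕ) (b : ℕ × ℕ × ℕ) (N : ℕ) : ℝ := WS (SI w w' b.1) (aS k w w') (2 ^ b.2.2) (2 ^ b.2.1) N

/-- `σ = ∑ 1/p · ∑ 1/m / (k - 1)` -/
noncomputable def sgK (k w w' : ℕ) : ℝ := sg1 w w' * esy (k - 2) w w' / ((k : ℝ) - 1)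

/-- squarefree, exactly `k` prime factors, all larger than `w`, exactly one of them larger than `w'` -/
def EE (k w w' n : ℕ) : Prop := Squarefree n ∧ n.primeFactors.card = k ∧ (∀ q ∈ n.primeFactors, w < q) ∧
  (n.primeFactors.filter fun q => w' < q).card = 1

/-- the ranges of `w` and `w'` at the scale `Y` -/
structure Rg (Y w w' c1 d : ℕ) : Prop where
  h1 : (Real.log Y) ^ (c1 + 1) ≤ w
  h2 : w ≤ w'
  h3 : (w' : ℝ) ≤ (Real.log Y) ^ d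

end Pool.Agent.Lib.G5
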