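import Pool.Agent.Lib.G5.ASw
import Pool.Agent.Lib.VK.UDef

/-!
# G5 / AMain (block board): the contribution of the model

PROOF. `∑_{n ≤ N} rhoS n ram Q n lp(N-n) = ∑_{p ∈ S} ∑_m (a m/(p m log 2R)) ∑_{n ∈ Ioc (pmR) (min (2pmR) N)} ram Q n lp(N-n)` (swap the
sums; empty when `pmR ≥ N`), and `#{n ∈ Ioc (pmR) (2pmR) : n < N} = min (2pmR) (N-1) - pmR` (or `0`) differs from
`min (2pmR) N - pmR` by at most `1`. `swI (K+2) g` for every pair; `∑_{p ∈ S} ∑_m 1/(p m log 2R) ≤ 1` (`card S ≤ P`, `p > P`, `m ≥ M`,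
`M` values of `m`, `log 2R ≥ 1` as `R ≥ 2`), `|sg Q N| ≤ Q` (every summand at most `1`: `SW.abs_gq_le`).
-/

set_option autoImplicit false

open Finset

namespace Pool.Agent.Lib.G5

open Pool.Agent.Lib.G3 (lp sg pr)
open Pool.Agent.Lib.VKT (ram rhoS)

private theorem amain_sg (Q N : ℕ) : |sg Q N| ≤ Q := by
  unfold sg
  refine (abs_sum_le_sum_abs _ _).trans ?_
  have h : ∀ q ∈ (Icc 1 Q).filter Squarefree,
      |((ArithmeticFunction.moebius q : ℤ) : ℝ) / (q.totient : ℝ) * Pool.Agent.Lib.SW.gq q N| ≤ 1 := by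
    intro q hq
    rw [mem_filter, mem_Icc] at hq
    rw [abs_mul, abs_div]
    have h1 : |((ArithmeticFunction.moebius q : ℤ) : ℝ)| ≤ 1 := by
      have := ArithmeticFunction.abs_moebius_le_one (n := q)
      exact_mod_cast this
    have h2 : (1 : ℝ) ≤ |(q.totient : ℝ)| := by
      rw [abs_of_nonneg (by positivity)]
      exact_mod_cast Nat.totient_pos.2 (by omega)
    have h3 : |((ArithmeticFunction.moebius q : ℤ) : ℝ)| / |(q.totient : ℝ)| ≤ 1 :=
      div_le_one_of_le₀ (h1.trans h2) (abs_nonneg _)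
    have h4 := Pool.Agent.Lib.SW.abs_gq_le q N
    exact mul_le_one₀ h3 (abs_nonneg _) h4
  refine (sum_le_sum h).trans ?_
  rw [sum_const, nsmul_eq_mul, mul_one]
  have : ((Icc 1 Q).filter Squarefree).card ≤ Q := (card_filter_le _ _).trans (by simp)
  exact_mod_cast this

private theorem amain_cnt (A N : ℕ) :
    |((min (2 * A) N : ℕ) : ℝ) - ((min A N : ℕ) : ℝ) - (((Ioc A (2 * A)).filter fun n => n < N).card : ℝ)| ≤ 1 := by
  have h0 : (Ioc A (2 * A)).filter (fun n => n < N) = Ioc A (min (2 * A) (N - 1)) := by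
    ext n; simp only [mem_filter, mem_Ioc]; omega
  rw [h0, Nat.card_Ioc]
  have h1 : ((min (2 * A) N : ℕ) : ℝ) - ((min A N : ℕ) : ℝ) = ((min (2 * A) N - min A N : ℕ) : ℝ) := by
    rw [Nat.cast_sub (by omega)]
  rw [h1, abs_le]
  constructor
  · have : ((min (2 * A) (N - 1) - A : ℕ) : ℝ) ≤ ((min (2 * A) N - min A N + 1 : ℕ) : ℝ) := by
      exact_mod_cast (by omega)
    push_cast at this
    linarith
  · have : ((min (2 * A) N - min A N : ℕ) : ℝ) ≤ ((min (2 * A) (N - 1) - A + 1 : ℕ) : ℝ) := by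
      exact_mod_cast (by omega)
    push_cast at this
    linarith

private theorem amain_swap (Q N R M : ℕ) (S : Finset ℕ) (a : ℕ → ℝ) :
    ∑ n ∈ Icc 1 N, rhoS S a R M n * ram Q n * lp (N - n) =
      ∑ p ∈ S, ∑ m ∈ Ico M (2 * M), a m / (p * m * Real.log (2 * R : ℕ)) *
        ∑ n ∈ Ioc (min (p * m * R) N) (min (2 * (p * m * R)) N), ram Q n * lp (N - n) := by
  unfold rhoS
  simp_rw [sum_mul]
  rw [sum_comm]
  refine sum_congr rfl fun p _ => ?_
  rw [sum_comm]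
  refine sum_congr rfl fun m _ => ?_
  rw [mul_sum]
  have h0 : Ioc (min (p * m * R) N) (min (2 * (p * m * R)) N) =
      (Icc 1 N).filter fun n => p * m * R < n ∧ n ≤ 2 * (p * m * R) := by
    ext n; simp only [mem_filter, mem_Ioc, mem_Icc]; omega
  rw [h0, sum_filter]
  refine sum_congr rfl fun n _ => ?_
  split_ifs <;> ring

private theorem amain_coef (P R M : ℕ) (S : Finset ℕ) (a : ℕ → ℝ) (hS : S ⊆ pr P) (hM : 1 ≤ M) (hR : 2 ≤ R)
    (ha : ∀ m, |a m| ≤ 1) : ∑ p ∈ S, ∑ m ∈ Ico M (2 * M), |a m / (p * m * Real.log (2 * R : ℕ))| ≤ 1 := by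
  have hL : 1 ≤ Real.log (2 * R : ℕ) := by
    have h4 : (4 : ℝ) ≤ ((2 * R : ℕ) : ℝ) := by exact_mod_cast (by omega)
    have h5 : Real.exp 1 ≤ ((2 * R : ℕ) : ℝ) := by
      have := Real.exp_one_lt_d9
      linarith
    exact (Real.le_log_iff_exp_le (by linarith)).2 h5
  have hMp : (0 : ℝ) < M := by exact_mod_cast hM
  have h1 : ∀ p ∈ S, ∑ m ∈ Ico M (2 * M), |a m / (p * m * Real.log (2 * R : ℕ))| ≤ 1 / ((P : ℝ) + 1) := by
    intro p hp
    have hp1 := hS hp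
    unfold pr at hp1
    rw [mem_filter, mem_Ioc] at hp1
    have hpP : (P : ℝ) + 1 ≤ p := by exact_mod_cast hp1.1.1
    have hP0 : (0 : ℝ) ≤ P := Nat.cast_nonneg _
    have h2 : ∀ m ∈ Ico M (2 * M), |a m / (p * m * Real.log (2 * R : ℕ))| ≤ 1 / (((P : ℝ) + 1) * M) := by
      intro m hm
      rw [mem_Ico] at hm
      have hmM : (M : ℝ) ≤ m := by exact_mod_cast hm.1
      rw [abs_div]
      have h3 : ((P : ℝ) + 1) * M ≤ |(p : ℝ) * m * Real.log (2 * R : ℕ)| := by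
        rw [abs_of_nonneg (by positivity)]
        have h5 : ((P : ℝ) + 1) * M ≤ (p : ℝ) * m := mul_le_mul hpP hmM hMp.le (by linarith)
        have h6 : (p : ℝ) * m * 1 ≤ (p : ℝ) * m * Real.log (2 * R : ℕ) :=
          mul_le_mul_of_nonneg_left hL (by positivity)
        linarith
      exact div_le_div₀ zero_le_one (ha m) (by positivity) h3
    refine (sum_le_sum h2).trans ?_
    rw [sum_const, nsmul_eq_mul, Nat.card_Ico]
    have h7 : ((2 * M - M : ℕ) : ℝ) = M := by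
      congr 1; omega
    rw [h7]
    apply le_of_eq
    field_simp
  refine (sum_le_sum h1).trans ?_
  rw [sum_const, nsmul_eq_mul]
  have h8 : S.card ≤ P := (card_le_card hS).trans ((card_filter_le _ _).trans (by rw [Nat.card_Ioc]; omega))
  have h9 : (S.card : ℝ) ≤ P := by exact_mod_cast h8
  have hP0 : (0 : ℝ) ≤ P := Nat.cast_nonneg _
  rw [mul_one_div, div_le_one (by linarith)]
  linarith

private theorem amain_big (K g : ℕ) : ∃ x1 : ℝ, ∀ X : ℕ, x1 ≤ X → 2 ≤ Real.log X ∧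
    2 * (Real.log X) ^ g ≤ X / (Real.log X) ^ (K + 2) := by
  have h1 := (Real.isLittleO_pow_log_id_atTop (n := g + K + 2)).bound (show (0 : ℝ) < 1 / 2 by norm_num)
  have h2 : ∀ᶠ x : ℝ in Filter.atTop, 2 ≤ Real.log x := Real.tendsto_log_atTop.eventually_ge_atTop 2
  obtain ⟨x1, hx1⟩ := Filter.eventually_atTop.1 (h1.and (h2.and (Filter.eventually_ge_atTop 0)))
  refine ⟨x1, fun X hX => ?_⟩
  obtain ⟨h3, h4, h5⟩ := hx1 X hX
  refine ⟨h4, ?_⟩
  simp only [id_eq, Real.norm_eq_abs] at h3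
  rw [abs_of_nonneg (by positivity), abs_of_nonneg h5] at h3
  rw [le_div_iff₀ (by positivity)]
  have h6 : (Real.log X) ^ g * (Real.log X) ^ (K + 2) = (Real.log X) ^ (g + K + 2) := by
    rw [← pow_add]; congr 1
  nlinarith

theorem mainS (K g : ℕ) : ∃ x0 : ℝ, ∀ X : ℕ, x0 ≤ X → ∀ (Q N P R M : ℕ) (S : Finset ℕ) (a : ℕ → ℝ), 1 ≤ Q →
    (Q : ℝ) ≤ 2 * (Real.log X) ^ g → X < N → N ≤ 2 * X → S ⊆ pr P → 1 ≤ M → 2 ≤ R → (∀ m, |a m| ≤ 1) →
      |∑ n ∈ Icc 1 N, rhoS S a R M n * ram Q n * lp (N - n) - sg Q N * DD S a R M N| ≤ X / (Real.log X) ^ K := by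
  obtain ⟨x0, hx0⟩ := swI (K + 2) g
  obtain ⟨x1, hx1⟩ := amain_big K g
  refine ⟨max x0 x1, fun X hX Q N P R M S a hQ1 hQ hN1 hN2 hS hM hR ha => ?_⟩
  obtain ⟨hl, hb⟩ := hx1 X ((le_max_right _ _).trans hX)
  have hsw := hx0 X ((le_max_left _ _).trans hX) Q N
  set E : ℝ := X / (Real.log X) ^ (K + 2) with hE
  have hE0 : 0 ≤ E := by positivity
  have hin : ∀ p m : ℕ, |∑ n ∈ Ioc (min (p * m * R) N) (min (2 * (p * m * R)) N), ram Q n * lp (N - n) -
      sg Q N * (((Ioc (p * m * R) (2 * (p * m * R))).filter fun n => n < N).card : ℝ)| ≤ 2 * E := by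
    intro p m
    have h1 := hsw (min (p * m * R) N) (min (2 * (p * m * R)) N) hQ1 hQ hN1 hN2 (by omega) (by omega)
    have h2 := amain_cnt (p * m * R) N
    have h3 := amain_sg Q N
    set c : ℝ := (((Ioc (p * m * R) (2 * (p * m * R))).filter fun n => n < N).card : ℝ)
    set V : ℝ := ((min (2 * (p * m * R)) N : ℕ) : ℝ) - ((min (p * m * R) N : ℕ) : ℝ)
    set I : ℝ := ∑ n ∈ Ioc (min (p * m * R) N) (min (2 * (p * m * R)) N), ram Q n * lp (N - n)
    have h4 : I - sg Q N * c = (I - sg Q N * V) + sg Q N * (V - c) := by ring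
    rw [h4]
    refine (abs_add_le _ _).trans ?_
    rw [abs_mul]
    have h5 : |sg Q N| * |V - c| ≤ Q * 1 := mul_le_mul h3 h2 (abs_nonneg _) (Nat.cast_nonneg _)
    linarith
  rw [amain_swap]
  unfold DD
  rw [mul_sum, ← sum_sub_distrib]
  have h6 : ∀ p ∈ S, |∑ m ∈ Ico M (2 * M), a m / (p * m * Real.log (2 * R : ℕ)) *
        ∑ n ∈ Ioc (min (p * m * R) N) (min (2 * (p * m * R)) N), ram Q n * lp (N - n) -
      sg Q N * ∑ m ∈ Ico M (2 * M), a m / (p * m * Real.log (2 * R : ℕ)) *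
        (((Ioc (p * m * R) (2 * (p * m * R))).filter fun n => n < N).card : ℝ)| ≤
      ∑ m ∈ Ico M (2 * M), |a m / (p * m * Real.log (2 * R : ℕ))| * (2 * E) := by
    intro p _
    rw [mul_sum, ← sum_sub_distrib]
    refine (abs_sum_le_sum_abs _ _).trans (sum_le_sum fun m _ => ?_)
    have h7 : a m / (p * m * Real.log (2 * R : ℕ)) *
        ∑ n ∈ Ioc (min (p * m * R) N) (min (2 * (p * m * R)) N), ram Q n * lp (N - n) -
        sg Q N * (a m / (p * m * Real.log (2 * R : ℕ)) *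
        (((Ioc (p * m * R) (2 * (p * m * R))).filter fun n => n < N).card : ℝ)) =
        a m / (p * m * Real.log (2 * R : ℕ)) *
        (∑ n ∈ Ioc (min (p * m * R) N) (min (2 * (p * m * R)) N), ram Q n * lp (N - n) -
        sg Q N * (((Ioc (p * m * R) (2 * (p * m * R))).filter fun n => n < N).card : ℝ)) := by ring
    rw [h7, abs_mul]
    exact mul_le_mul_of_nonneg_left (hin p m) (abs_nonneg _)
  refine (abs_sum_le_sum_abs _ _).trans ((sum_le_sum h6).trans ?_)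
  simp_rw [← sum_mul]
  have h8 := amain_coef P R M S a hS hM hR ha
  have h9 : (∑ p ∈ S, ∑ m ∈ Ico M (2 * M), |a m / (p * m * Real.log (2 * R : ℕ))|) * (2 * E) ≤ 1 * (2 * E) :=
    mul_le_mul_of_nonneg_right h8 (by linarith)
  refine h9.trans ?_
  rw [one_mul, hE, pow_add, ← div_div]
  have hX0 : 0 ≤ (X : ℝ) / (Real.log X) ^ K := by positivity
  have h10 : (2 : ℝ) ≤ (Real.log X) ^ 2 := by nlinarith
  rw [mul_div_assoc', div_le_iff₀ (by positivity)]
  nlinarith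

end Pool.Agent.Lib.G5
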