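import Pool.Agent.Lib.G3.SSer

/-!
# G5 / ASg (block board): the truncated singular series is the singular series for almost all `N`, any truncation near `(log X)^c2`

PROOF. Copy of `G3.singF` (end of G3/SSer.lean): there `Q = ⌊l^c2⌋` is used only through `Q ≤ l^c2` and `l^c2/2 ≤ Q`; with
`l^c2/2 ≤ Q ≤ 2 l^c2` the same computation works with one more power of `l` for the constants (`log Q ≤ (c2+1) log l`).

-/

set_option autoImplicit false

open Finset

namespace Pool.Agent.Lib.G5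

open Pool.Agent.Lib.G3

theorem sgQ (A : ℕ) : ∃ c : ℕ, ∀ c2 : ℕ, c ≤ c2 → ∃ x0 : ℝ, ∀ X : ℕ, x0 ≤ X → ∀ Q H : ℕ, (Real.log X) ^ c2 / 2 ≤ Q →
    (Q : ℝ) ≤ 2 * (Real.log X) ^ c2 → (Real.log X) ^ (4 * c2 + 20) ≤ H → H ≤ X →
    (((Ioc X (X + H)).filter fun N => 1 / (Real.log X) ^ A < |sg Q N - SS N|).card : ℝ) ≤ H / (Real.log X) ^ A := by
  classical
  obtain ⟨C, hC, hmer⟩ := si_mer
  refine ⟨2 * A + 3, fun c2 hc2 => ?_⟩
  have hev := (Real.isLittleO_pow_log_id_atTop (n := 4)).def (c := 1 / (8 * (C * (c2 + 1)) ^ 4 + 1)) (by positivity)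
  obtain ⟨L0, hL0⟩ := (hev.and (Filter.eventually_ge_atTop (10 : ℝ))).exists_forall_of_atTop
  refine ⟨Real.exp (max L0 10), fun X hX Q H hQge hQle hH hHX => ?_⟩
  have hX0 : (0 : ℝ) < X := lt_of_lt_of_le (Real.exp_pos _) hX
  set L := Real.log X with hL
  have hLm : max L0 10 ≤ L := by
    rw [hL, Real.le_log_iff_exp_le hX0]
    exact hX
  obtain ⟨h1, h2⟩ := hL0 L ((le_max_left _ _).trans hLm)
  have hLpos : 0 < L := by linarith
  have hlogL : 0 ≤ Real.log L := Real.log_nonneg (by linarith)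
  have hLc : (10 : ℝ) ≤ L ^ c2 := by
    have : L ^ 1 ≤ L ^ c2 := pow_le_pow_right₀ (by linarith) (by omega)
    rw [pow_one] at this
    linarith
  have hQ2r : (5 : ℝ) ≤ Q := by linarith
  have hQ2 : 5 ≤ Q := by exact_mod_cast hQ2r
  have hQ0 : (0 : ℝ) < Q := by linarith
  have hH0 : (0 : ℝ) ≤ H := Nat.cast_nonneg H
  set K := C * ((c2 + 1) * Real.log L) with hK
  have hlogQ : Real.log Q ≤ (c2 + 1) * Real.log L := by
    have h3 := Real.log_le_log hQ0 hQle
    rw [Real.log_mul (by norm_num) (by positivity), Real.log_pow] at h3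
    have h4 : Real.log 2 ≤ Real.log L := Real.log_le_log (by norm_num) (by linarith)
    linarith
  have hKm : ∏ p ∈ siP Q, (1 + 1 / ((p : ℝ) - 1)) ≤ K := by
    refine (hmer Q (by omega)).trans ?_
    rw [hK]
    gcongr
  have hK1 : 1 ≤ K := by
    refine le_trans ?_ hKm
    calc (1 : ℝ) = ∏ p ∈ siP Q, (1 : ℝ) := by simp
      _ ≤ _ := Finset.prod_le_prod (fun _ _ => zero_le_one) fun p hp => by
          have h3 := si_sub (si_mem.1 hp).2
          have : (0 : ℝ) < (p : ℝ) - 1 := by linarith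
          have : 0 < 1 / ((p : ℝ) - 1) := by positivity
          linarith
  have hK0 : 0 ≤ K := by linarith
  have h4 : 8 * K ^ 4 ≤ L := by
    have h5 := h1
    simp only [id, Real.norm_eq_abs] at h5
    rw [abs_of_pos hLpos, abs_of_nonneg (by positivity)] at h5
    have h6 : K ^ 4 = (C * (c2 + 1)) ^ 4 * (Real.log L) ^ 4 := by
      rw [hK]
      ring
    set W := (C * ((c2 : ℝ) + 1)) ^ 4 with hW
    have hW0 : 0 ≤ W := by positivity
    calc 8 * K ^ 4 = 8 * W * (Real.log L) ^ 4 := by rw [h6]; ring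
      _ ≤ (8 * W + 1) * (Real.log L) ^ 4 := by
          have : 0 ≤ (Real.log L) ^ 4 := by positivity
          nlinarith
      _ ≤ (8 * W + 1) * (1 / (8 * W + 1) * L) := by gcongr
      _ = L := by field_simp
  have h4' : 8 * K ≤ L := by
    have h5 : K ≤ K ^ 4 := by
      calc K = K ^ 1 := (pow_one K).symm
        _ ≤ K ^ 4 := pow_le_pow_right₀ hK1 (by norm_num)
    linarith
  have hQ2H : Q ^ 2 ≤ H := by
    have h3 : ((Q ^ 2 : ℕ) : ℝ) ≤ H := by
      push_cast
      calc (Q : ℝ) ^ 2 ≤ (2 * L ^ c2) ^ 2 := by gcongr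
        _ = 4 * L ^ (2 * c2) := by ring
        _ ≤ L ^ 1 * L ^ (2 * c2) := by
            rw [pow_one]
            exact mul_le_mul_of_nonneg_right (by linarith) (by positivity)
        _ = L ^ (1 + 2 * c2) := by rw [← pow_add]
        _ ≤ L ^ (4 * c2 + 20) := pow_le_pow_right₀ (by linarith) (by omega)
        _ ≤ H := hH
    exact_mod_cast h3
  set B := (siP Q).powerset.filter (fun t => Q < ∏ p ∈ t, p ∧ ∏ p ∈ t, p ≤ Q ^ 2) with hB
  -- bad N
  have hbad : ∀ N ∈ (Ioc X (X + H)).filter (fun N => 1 / L ^ A < |sg Q N - SS N|),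
      (1 / (2 * L ^ A) : ℝ) ≤ (∑ t ∈ B, ∏ p ∈ t, siH N p) * K := by
    intro N hN
    rw [mem_filter, mem_Ioc] at hN
    obtain ⟨⟨hN1, hN2⟩, hN3⟩ := hN
    have hX3 : (10 : ℝ) ≤ X := by
      have h5 := Real.add_one_le_exp (max L0 10)
      have h6 : (10 : ℝ) ≤ max L0 10 := le_max_right _ _
      linarith
    have hN10 : 3 ≤ N := by
      have : 10 ≤ X := by exact_mod_cast hX3
      omega
    have hNlog : Real.log N ≤ 2 * L := by
      have h5 : (N : ℝ) ≤ X * X := by
        have h6 : (N : ℝ) ≤ X + H := by exact_mod_cast hN2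
        have h7 : (H : ℝ) ≤ X := by exact_mod_cast hHX
        nlinarith
      have h8 : (0 : ℝ) < N := by
        have : 0 < N := by omega
        exact_mod_cast this
      calc Real.log N ≤ Real.log (X * X) := Real.log_le_log h8 h5
        _ = 2 * L := by rw [Real.log_mul hX0.ne' hX0.ne']; ring
    have hL3 : L ^ 3 ≤ L ^ c2 := pow_le_pow_right₀ (by linarith) (by omega)
    have hL3' : 100 * L ≤ L ^ 3 := by nlinarith [mul_pos hLpos hLpos]
    have hNQ : Real.log N + 1 ≤ Q := by nlinarith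
    have hG : ∏ p ∈ siP Q, (1 + siF N p) ≤ K := by
      refine le_trans (Finset.prod_le_prod ?_ ?_) hKm
      · intro p hp
        have h5 := si_sub (si_mem.1 hp).2
        unfold siF
        split_ifs
        · have : (0 : ℝ) ≤ 1 / ((p : ℝ) - 1) := by
            have : (0 : ℝ) < (p : ℝ) - 1 := by linarith
            positivity
          linarith
        · have : 1 / ((p : ℝ) - 1) ^ 2 ≤ 1 := by
            rw [div_le_one (by positivity)]
            nlinarith
          linarith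
      · intro p hp
        have h5 := si_H1 (N := N) (si_mem.1 hp).2
        have h6 := le_abs_self (siF N p)
        rw [si_abs (si_mem.1 hp).2] at h6
        linarith
    have h5 := ss_close (Q := Q) (N := N) (by omega) hN10 hNQ hG hK0
    have h6 := ss_trunc (Q := Q) (by omega) N hKm
    rw [← hB] at h6
    have h7 : K * (4 * Real.log N / Q) ≤ 1 / (2 * L ^ A) := by
      rw [mul_div_assoc', div_le_div_iff₀ hQ0 (by positivity)]
      have h8 : L ^ A * L ^ 3 ≤ L ^ c2 := by
        rw [← pow_add]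
        exact pow_le_pow_right₀ (by linarith) (by omega)
      have hLA : 0 < L ^ A := by positivity
      calc K * (4 * Real.log N) * (2 * L ^ A) ≤ (L / 8) * (4 * (2 * L)) * (2 * L ^ A) := by
            have h9 : K ≤ L / 8 := by linarith
            have h10 : 0 ≤ Real.log N := Real.log_nonneg (by exact_mod_cast (by omega : 1 ≤ N))
            gcongr
        _ = 2 * (L ^ A * L ^ 2) := by ring
        _ ≤ L ^ A * L ^ 3 / 2 := by
            have : L ^ 3 = L * L ^ 2 := by ring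
            have h11 : 4 * L ^ 2 ≤ L ^ 3 := by
              rw [this]
              nlinarith [mul_pos hLpos hLpos]
            nlinarith
        _ ≤ L ^ c2 / 2 := by linarith
        _ ≤ 1 * Q := by linarith
    have h8 : |sg Q N - SS N| ≤ |sg Q N - ∏ p ∈ siP Q, (1 + siF N p)| + |∏ p ∈ siP Q, (1 + siF N p) - SS N| :=
      abs_sub_le _ _ _
    have h9 : 1 / L ^ A = 1 / (2 * L ^ A) + 1 / (2 * L ^ A) := by
      have : L ^ A ≠ 0 := by positivity
      field_simp
      ring
    linarith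
  have hsum : (((Ioc X (X + H)).filter fun N => 1 / L ^ A < |sg Q N - SS N|).card : ℝ) * (1 / (2 * L ^ A)) ≤
      K * (2 * H * (K ^ 3 / Q)) := by
    calc (((Ioc X (X + H)).filter fun N => 1 / L ^ A < |sg Q N - SS N|).card : ℝ) * (1 / (2 * L ^ A))
        ≤ ∑ N ∈ (Ioc X (X + H)).filter (fun N => 1 / L ^ A < |sg Q N - SS N|), (∑ t ∈ B, ∏ p ∈ t, siH N p) * K := by
          rw [← nsmul_eq_mul]
          exact Finset.card_nsmul_le_sum _ _ _ hbad
      _ ≤ ∑ N ∈ Ioc X (X + H), (∑ t ∈ B, ∏ p ∈ t, siH N p) * K := by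
          refine Finset.sum_le_sum_of_subset_of_nonneg (filter_subset _ _) fun N _ _ => ?_
          refine mul_nonneg (Finset.sum_nonneg fun t ht => ?_) hK0
          rw [hB, mem_filter, mem_powerset] at ht
          exact Finset.prod_nonneg fun p hp => si_H0 (si_mem.1 (ht.1 hp)).2
      _ = K * ∑ t ∈ B, ∑ N ∈ Ioc X (X + H), ∏ p ∈ t, siH N p := by
          rw [Finset.sum_comm, ← Finset.sum_mul, mul_comm]
      _ ≤ K * ∑ t ∈ B, 2 * (H : ℝ) * ∏ p ∈ t, (2 / ((p : ℝ) - 1) ^ 2) := by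
          refine mul_le_mul_of_nonneg_left (Finset.sum_le_sum fun t ht => ?_) hK0
          rw [hB, mem_filter, mem_powerset] at ht
          exact si_avg t (fun p hp => (si_mem.1 (ht.1 hp)).2) (ht.2.2.trans hQ2H)
      _ = K * (2 * (H : ℝ) * ∑ t ∈ B, ∏ p ∈ t, (2 / ((p : ℝ) - 1) ^ 2)) := by rw [← Finset.mul_sum]
      _ ≤ K * (2 * (H : ℝ) * (K ^ 3 / (Q : ℝ))) := by
          have := si_big (Q := Q) (by omega) hKm
          gcongr
  have hLA : 0 < L ^ A := by positivity
  have hfin : 4 * K ^ 4 * L ^ A / Q ≤ 1 / L ^ A := by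
    rw [div_le_div_iff₀ hQ0 hLA]
    have h8 : L ^ A * L ^ A * L ≤ L ^ c2 := by
      calc L ^ A * L ^ A * L = L ^ (2 * A + 1) := by ring
        _ ≤ L ^ c2 := pow_le_pow_right₀ (by linarith) (by omega)
    calc 4 * K ^ 4 * L ^ A * L ^ A = (8 * K ^ 4) * (L ^ A * L ^ A) / 2 := by ring
      _ ≤ L * (L ^ A * L ^ A) / 2 := by gcongr
      _ = (L ^ A * L ^ A * L) / 2 := by ring
      _ ≤ L ^ c2 / 2 := by gcongr
      _ ≤ 1 * Q := by linarith
  have e2 : (((Ioc X (X + H)).filter fun N => 1 / L ^ A < |sg Q N - SS N|).card : ℝ) =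
      ((((Ioc X (X + H)).filter fun N => 1 / L ^ A < |sg Q N - SS N|).card : ℝ) * (1 / (2 * L ^ A))) * (2 * L ^ A) := by
    field_simp
  calc (((Ioc X (X + H)).filter fun N => 1 / L ^ A < |sg Q N - SS N|).card : ℝ)
      = ((((Ioc X (X + H)).filter fun N => 1 / L ^ A < |sg Q N - SS N|).card : ℝ) * (1 / (2 * L ^ A))) * (2 * L ^ A) := e2
    _ ≤ K * (2 * (H : ℝ) * (K ^ 3 / Q)) * (2 * L ^ A) := by
        exact mul_le_mul_of_nonneg_right hsum (by positivity)
    _ = H * (4 * K ^ 4 * L ^ A / Q) := by ring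
    _ ≤ H * (1 / L ^ A) := by gcongr
    _ = H / L ^ A := by ring

end Pool.Agent.Lib.G5
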