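import Pool.Agent.Lib.VK.TDef
import Pool.Agent.Lib.G3.Defs2
import Pool.Agent.Lib.G3.LamS

/-!
# G5 / ASw (block board): primes `N - n` against the truncated Ramanujan series on an interval

PROOF. `ram Q n = ∑_{q ≤ Q squarefree} gq q n` (`LQ`). Fix `q`: `gq q n = (μ(q)/φ(q)) ∑_{b} e(bn/q)` (`SW.gq_eq_exp`), and with
`m = N - n` the sum over `n` of `lp(N-n) e(bn/q)` is `e(bN/q) ∑_m lp(m) e(-bm/q)`, which is `e(bN/q) (μ(q)/φ(q)) (v-u)` up to
`O(q² X/l^k)` by Siegel-Walfisz at a rational point (`G3.ls_A`). Main term: `(μ(q)/φ(q)) gq q N (v-u)`. Sum over `q ≤ Q`: `sg Q N (v-u)`.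
-/

set_option autoImplicit false

open Finset

namespace Pool.Agent.Lib.G5

open Pool.Agent.Lib.G3 (lp sg lsa ls_A)
open Pool.Agent.Lib.VKT (ram)
open Pool.Agent.Lib.SW (gq LQ gq_eq_exp)
open Pool.Agent.Lib.GT (e norm_e e_add)

private theorem swI_mu (q : ℕ) :
    ‖((ArithmeticFunction.moebius q : ℤ) : ℂ)‖ ≤ 1 := by
  rw [Complex.norm_intCast]
  exact_mod_cast ArithmeticFunction.abs_moebius_le_one

private theorem swI_lsa0 {q : ℕ} (hq : 1 ≤ q) (b : ℕ) : ‖lsa q b 0‖ ≤ 1 := by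
  have h0 : lp 0 = 0 := by
    unfold G3.lp
    rw [if_neg Nat.not_prime_zero]
  unfold G3.lsa
  rw [h0, Complex.ofReal_zero, zero_mul, zero_sub, norm_neg, norm_div, Complex.norm_natCast]
  have h1 : (1 : ℝ) ≤ q.totient := by exact_mod_cast Nat.totient_pos.2 hq
  rw [div_le_one (by linarith)]
  exact (swI_mu q).trans h1

private theorem swI_range {q : ℕ} (hq : 1 ≤ q) (b : ℕ) {M : ℕ} {E : ℝ} (hE0 : 0 ≤ E)
    (hE : ∀ Y : ℕ, Y ≤ M → ‖∑ m ∈ Icc 1 Y, lsa q b m‖ ≤ E) (c : ℕ) (hc : c ≤ M) :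
    ‖∑ m ∈ range c, lsa q b m‖ ≤ 1 + E := by
  rcases Nat.eq_zero_or_pos c with h | h
  · rw [h, range_zero, sum_empty, norm_zero]
    linarith
  · have h1 : range c = insert 0 (Icc 1 (c - 1)) := by
      ext m
      simp only [mem_range, mem_insert, mem_Icc]
      omega
    rw [h1, sum_insert (by simp)]
    refine (norm_add_le _ _).trans (add_le_add (swI_lsa0 hq b) (hE _ (by omega)))

private theorem swI_ioc {q : ℕ} (hq : 1 ≤ q) (b : ℕ) {N : ℕ} {E : ℝ} (hE0 : 0 ≤ E)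
    (hE : ∀ Y : ℕ, Y ≤ N → ‖∑ m ∈ Icc 1 Y, lsa q b m‖ ≤ E) {u v : ℕ} (huv : u ≤ v) (hv : v ≤ N) :
    ‖∑ n ∈ Ioc u v, lsa q b (N - n)‖ ≤ 2 * (1 + E) := by
  have h1 : ∑ n ∈ Ioc u v, lsa q b (N - n) = ∑ m ∈ Ico (N - v) (N - u), lsa q b m := by
    refine sum_bij' (fun n _ => N - n) (fun m _ => N - m) ?_ ?_ ?_ ?_ ?_
    · intro n hn
      rw [mem_Ioc] at hn
      rw [mem_Ico]
      omega
    · intro m hm
      rw [mem_Ico] at hm
      rw [mem_Ioc]
      omega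
    · intro n hn
      rw [mem_Ioc] at hn
      show N - (N - n) = n
      omega
    · intro m hm
      rw [mem_Ico] at hm
      show N - (N - m) = m
      omega
    · intro n _
      rfl
  rw [h1, sum_Ico_eq_sub _ (by omega : N - v ≤ N - u)]
  refine (norm_sub_le _ _).trans ?_
  have h2 := swI_range hq b hE0 hE (N - u) (by omega)
  have h3 := swI_range hq b hE0 hE (N - v) (by omega)
  linarith

private theorem swI_q {q : ℕ} (hq : 1 ≤ q) (hsq : Squarefree q) {N : ℕ} {E : ℝ} (hE0 : 0 ≤ E)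
    (hE : ∀ b : ℕ, Nat.Coprime q b → ∀ Y : ℕ, Y ≤ N → ‖∑ m ∈ Icc 1 Y, lsa q b m‖ ≤ E) {u v : ℕ} (huv : u ≤ v) (hv : v ≤ N) :
    |∑ n ∈ Ioc u v, gq q n * lp (N - n) - ((ArithmeticFunction.moebius q : ℤ) : ℝ) / (q.totient : ℝ) * gq q N * ((v : ℝ) - u)| ≤
      2 * (1 + E) := by
  set B := (range q).filter (fun b => Nat.Coprime b q) with hB
  set c : ℂ := ((ArithmeticFunction.moebius q : ℤ) : ℂ) / (q.totient : ℂ) with hc
  have hkey : ((∑ n ∈ Ioc u v, gq q n * lp (N - n) -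
      ((ArithmeticFunction.moebius q : ℤ) : ℝ) / (q.totient : ℝ) * gq q N * ((v : ℝ) - u) : ℝ) : ℂ) =
      c * ∑ b ∈ B, e ((b : ℝ) / q * (N : ℤ)) * ∑ n ∈ Ioc u v, lsa q b (N - n) := by
    have h1 : ∀ n ∈ Ioc u v, ((gq q n * lp (N - n) : ℝ) : ℂ) =
        c * ∑ b ∈ B, e ((b : ℝ) / q * (N : ℤ)) * (lsa q b (N - n) + c) := by
      intro n hn
      rw [mem_Ioc] at hn
      rw [Complex.ofReal_mul, gq_eq_exp q hsq, ← hc, ← hB, mul_assoc, sum_mul]
      congr 1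
      refine sum_congr rfl fun b _ => ?_
      have h2 : lsa q b (N - n) + c = ((lp (N - n) : ℝ) : ℂ) * e (((N - n : ℕ) : ℝ) * (((-(b : ℤ) : ℤ) : ℝ) / q)) := by
        unfold G3.lsa
        rw [hc, sub_add_cancel]
      rw [h2]
      have h3 : e ((b : ℝ) / q * ((n : ℤ) : ℝ)) =
          e ((b : ℝ) / q * ((N : ℤ) : ℝ)) * e (((N - n : ℕ) : ℝ) * (((-(b : ℤ) : ℤ) : ℝ) / q)) := by
        rw [← e_add]
        congr 1
        rw [Nat.cast_sub (by omega : n ≤ N)]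
        push_cast
        ring
      rw [h3]
      ring
    rw [Complex.ofReal_sub, Complex.ofReal_sum, sum_congr rfl h1]
    have h4 : ((((ArithmeticFunction.moebius q : ℤ) : ℝ) / (q.totient : ℝ) * gq q N * ((v : ℝ) - u) : ℝ) : ℂ) =
        ∑ n ∈ Ioc u v, c * ∑ b ∈ B, e ((b : ℝ) / q * (N : ℤ)) * c := by
      rw [sum_const, Nat.card_Ioc, nsmul_eq_mul, Nat.cast_sub huv]
      have h5 : ((gq q N : ℝ) : ℂ) = c * ∑ b ∈ B, e ((b : ℝ) / q * (N : ℤ)) := by
        rw [gq_eq_exp q hsq]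
      push_cast
      push_cast at h5
      rw [h5, ← sum_mul]
      ring
    rw [h4, ← sum_sub_distrib]
    have h6 : ∀ n ∈ Ioc u v, c * ∑ b ∈ B, e ((b : ℝ) / q * (N : ℤ)) * (lsa q b (N - n) + c) -
        c * ∑ b ∈ B, e ((b : ℝ) / q * (N : ℤ)) * c = c * ∑ b ∈ B, e ((b : ℝ) / q * (N : ℤ)) * lsa q b (N - n) := by
      intro n _
      rw [← mul_sub, ← sum_sub_distrib]
      congr 1
      refine sum_congr rfl fun b _ => ?_
      ring
    rw [sum_congr rfl h6, ← mul_sum, sum_comm]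
    congr 1
    refine sum_congr rfl fun b _ => ?_
    rw [mul_sum]
  have hnorm : |∑ n ∈ Ioc u v, gq q n * lp (N - n) -
      ((ArithmeticFunction.moebius q : ℤ) : ℝ) / (q.totient : ℝ) * gq q N * ((v : ℝ) - u)| =
      ‖c * ∑ b ∈ B, e ((b : ℝ) / q * (N : ℤ)) * ∑ n ∈ Ioc u v, lsa q b (N - n)‖ := by
    rw [← hkey, Complex.norm_real, Real.norm_eq_abs]
  rw [hnorm, norm_mul]
  have hφ : (1 : ℝ) ≤ q.totient := by exact_mod_cast Nat.totient_pos.2 hq
  have hcard : (B.card : ℝ) = q.totient := by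
    rw [hB, Nat.totient_eq_card_coprime]
    congr 2
    ext b
    simp only [mem_filter, and_congr_right_iff]
    exact fun _ => Nat.coprime_comm
  have h7 : ‖∑ b ∈ B, e ((b : ℝ) / q * (N : ℤ)) * ∑ n ∈ Ioc u v, lsa q b (N - n)‖ ≤ B.card * (2 * (1 + E)) := by
    refine (norm_sum_le _ _).trans ?_
    rw [← nsmul_eq_mul]
    refine sum_le_card_nsmul _ _ _ fun b hb => ?_
    rw [norm_mul, norm_e, one_mul]
    rw [hB, mem_filter] at hb
    exact swI_ioc hq b hE0 (hE b hb.2.symm) huv hv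
  have h8 : ‖c‖ ≤ 1 / q.totient := by
    rw [hc, norm_div, Complex.norm_natCast]
    exact div_le_div_of_nonneg_right (swI_mu q) (by linarith)
  calc ‖c‖ * ‖∑ b ∈ B, e ((b : ℝ) / q * (N : ℤ)) * ∑ n ∈ Ioc u v, lsa q b (N - n)‖ ≤
      1 / q.totient * (B.card * (2 * (1 + E))) := mul_le_mul h8 h7 (norm_nonneg _) (by positivity)
    _ = 2 * (1 + E) := by
        rw [hcard]
        field_simp

theorem swI (K g : ℕ) : ∃ x0 : ℝ, ∀ X : ℕ, x0 ≤ X → ∀ Q N u v : ℕ, 1 ≤ Q → (Q : ℝ) ≤ 2 * (Real.log X) ^ g → X < N → N ≤ 2 * X →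
    u ≤ v → v ≤ N →
      |∑ n ∈ Ioc u v, ram Q n * lp (N - n) - sg Q N * ((v : ℝ) - u)| ≤ X / (Real.log X) ^ K := by
  obtain ⟨C, hC, hA⟩ := ls_A (K + 3 * g + 1)
  have hev : ∀ᶠ x : ℝ in Filter.atTop, 8 * Real.log x ^ (K + g) ≤ x := by
    have h1 := (Real.isLittleO_pow_log_id_atTop (n := K + g)).def (by norm_num : (0 : ℝ) < 1 / 8)
    filter_upwards [h1, Filter.eventually_ge_atTop 1] with x hx hx1
    rw [Real.norm_of_nonneg (pow_nonneg (Real.log_nonneg hx1) _), id, Real.norm_of_nonneg (by linarith)] at hx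
    linarith
  obtain ⟨x1, hx1⟩ := Filter.eventually_atTop.1 hev
  refine ⟨max (max 2 x1) (Real.exp (max 1 (64 * C))), fun X hX Q N u v hQ1 hQ hXN hN huv hv => ?_⟩
  have hX2 : (2 : ℝ) ≤ X := (le_max_left _ _).trans ((le_max_left _ _).trans hX)
  have hX1 : x1 ≤ X := (le_max_right _ _).trans ((le_max_left _ _).trans hX)
  have hXpos : (0 : ℝ) < X := by linarith
  have hL' : max 1 (64 * C) ≤ Real.log X := (Real.le_log_iff_exp_le hXpos).2 ((le_max_right _ _).trans hX)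
  set L := Real.log X with hL
  have hL1 : 1 ≤ L := (le_max_left _ _).trans hL'
  have hLC : 64 * C ≤ L := (le_max_right _ _).trans hL'
  have hL0 : 0 < L := by linarith
  have hbig := hx1 X hX1
  rw [← hL] at hbig
  have hXn : 2 ≤ X := by exact_mod_cast hX2
  set k := K + 3 * g + 1 with hk
  have hE0 : ∀ q : ℕ, 0 ≤ C * (q : ℝ) ^ 2 * X / L ^ k := fun q => by positivity
  have hq : ∀ q ∈ (Icc 1 Q).filter Squarefree,
      |∑ n ∈ Ioc u v, gq q n * lp (N - n) - ((ArithmeticFunction.moebius q : ℤ) : ℝ) / (q.totient : ℝ) * gq q N * ((v : ℝ) - u)| ≤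
        2 * (1 + C * (Q : ℝ) ^ 2 * X / L ^ k) := by
    intro q hq
    rw [mem_filter, mem_Icc] at hq
    refine (swI_q hq.1.1 hq.2 (hE0 q) (fun b hb Y hY => hA X hXn Y (by omega) q b hq.1.1 hb) huv hv).trans ?_
    have h1 : (q : ℝ) ^ 2 ≤ (Q : ℝ) ^ 2 := pow_le_pow_left₀ (Nat.cast_nonneg _) (by exact_mod_cast hq.1.2) 2
    have h2 : C * (q : ℝ) ^ 2 * X / L ^ k ≤ C * (Q : ℝ) ^ 2 * X / L ^ k := by
      refine div_le_div_of_nonneg_right ?_ (by positivity)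
      exact mul_le_mul_of_nonneg_right (mul_le_mul_of_nonneg_left h1 hC.le) hXpos.le
    linarith
  have hsum : ∑ n ∈ Ioc u v, ram Q n * lp (N - n) - sg Q N * ((v : ℝ) - u) =
      ∑ q ∈ (Icc 1 Q).filter Squarefree, (∑ n ∈ Ioc u v, gq q n * lp (N - n) -
        ((ArithmeticFunction.moebius q : ℤ) : ℝ) / (q.totient : ℝ) * gq q N * ((v : ℝ) - u)) := by
    rw [sum_sub_distrib, sum_comm]
    congr 1
    · refine sum_congr rfl fun n _ => ?_
      unfold VKT.ram SW.LQ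
      rw [sum_mul]
    · unfold G3.sg
      rw [sum_mul]
  rw [hsum]
  refine (abs_sum_le_sum_abs _ _).trans ((sum_le_sum hq).trans ?_)
  rw [sum_const, nsmul_eq_mul]
  have hcard : ((((Icc 1 Q).filter Squarefree).card : ℕ) : ℝ) ≤ Q := by
    have := card_filter_le (Icc 1 Q) Squarefree
    rw [Nat.card_Icc, Nat.add_sub_cancel] at this
    exact_mod_cast this
  have hQ0 : (0 : ℝ) ≤ Q := Nat.cast_nonneg _
  have hQ3 : (Q : ℝ) ^ 3 ≤ 8 * L ^ (3 * g) := by
    calc (Q : ℝ) ^ 3 ≤ (2 * L ^ g) ^ 3 := pow_le_pow_left₀ hQ0 hQ 3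
      _ = 8 * L ^ (3 * g) := by
          rw [mul_pow, ← pow_mul, mul_comm g 3]
          norm_num
  have hpos : 0 ≤ 2 * (1 + C * (Q : ℝ) ^ 2 * X / L ^ k) := by positivity
  calc ((((Icc 1 Q).filter Squarefree).card : ℕ) : ℝ) * (2 * (1 + C * (Q : ℝ) ^ 2 * X / L ^ k)) ≤
      Q * (2 * (1 + C * (Q : ℝ) ^ 2 * X / L ^ k)) := mul_le_mul_of_nonneg_right hcard hpos
    _ = 2 * Q + 2 * C * (Q : ℝ) ^ 3 * (X / L ^ k) := by ring
    _ ≤ X / L ^ K / 2 + X / L ^ K / 2 := by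
        refine add_le_add ?_ ?_
        · rw [le_div_iff₀ (by norm_num), le_div_iff₀ (by positivity)]
          calc 2 * (Q : ℝ) * 2 * L ^ K ≤ 2 * (2 * L ^ g) * 2 * L ^ K := by gcongr
            _ = 8 * L ^ (K + g) := by rw [pow_add]; ring
            _ ≤ X := hbig
        · have h3 : (X : ℝ) / L ^ k = X / L ^ K / (L ^ (3 * g) * L) := by
            rw [hk, pow_add, pow_add, pow_one, div_div]
            congr 1
            ring
          rw [h3]
          have h4 : 0 ≤ (X : ℝ) / L ^ K := by positivity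
          have h5 : 2 * C * (Q : ℝ) ^ 3 ≤ (L ^ (3 * g) * L) / 2 := by
            calc 2 * C * (Q : ℝ) ^ 3 ≤ 2 * C * (8 * L ^ (3 * g)) := by gcongr
              _ = L ^ (3 * g) * (16 * C) := by ring
              _ ≤ L ^ (3 * g) * (L / 2) := by
                  refine mul_le_mul_of_nonneg_left ?_ (by positivity)
                  linarith
              _ = _ := by ring
          calc 2 * C * (Q : ℝ) ^ 3 * (X / L ^ K / (L ^ (3 * g) * L)) ≤
              (L ^ (3 * g) * L) / 2 * (X / L ^ K / (L ^ (3 * g) * L)) :=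
                mul_le_mul_of_nonneg_right h5 (by positivity)
            _ = X / L ^ K / 2 := by field_simp
    _ = X / L ^ K := by ring

end Pool.Agent.Lib.G5
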