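import Pool.Agent.Lib.G3.FinA
import Pool.Agent.Lib.G3.FourV

/-!
# G5 / AWin (block board): from the local mean square to the numbers `N` of a window, scale and position independent

PROOF. Copy of `G3.fin_asyY` (G3/FinA.lean) with `fourV` (G3/FourV.lean) at `X := Z` (support `[1, Z]` of `F - M`) and window position
`Y` in the place of `cm`. With `D H' = Z H'²/l^(3A+8)`,
`∑_{m < Y + H'} |lp m|² ≤ 96 X l²` (as in fin_asyY), `Z ≤ 16 X`: `∑_N |∑ (F - M)(n) lp(N - n)|² ≤ 2 · 16 X H'/l^(3A+8) · 96 X l²`, so at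
most `H/l^A` of the `N` have `|..| > X/l^(A+1)`. The sum over `n ∈ range (N+1)` is that over `Icc 1 N` as `F 0 = M 0 = 0`.
-/

set_option autoImplicit false

open Finset

namespace Pool.Agent.Lib.G5

open Pool.Agent.Lib.G3 (VV lp fourV fi_lp_sum)

theorem winS {A X Z Y H H' : ℕ} {s F M : ℕ → ℝ} (hX : 100 ≤ X) (hl : 10000 ≤ Real.log X) (hZX : Z ≤ 16 * X) (hXY : X ≤ Y)
    (hY : (Y : ℝ) + H ≤ X + Real.sqrt X) (hH1 : 1 ≤ H) (hHH : H ≤ H') (hH2 : H' ≤ 2 * H)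
    (hF : ∀ n, F n ≠ 0 → 1 ≤ n ∧ n ≤ Z) (hM : ∀ n, M n ≠ 0 → 1 ≤ n ∧ n ≤ Z)
    (hV : ∀ α : ℝ, VV (fun n => ((F n : ℝ) : ℂ) - ((M n : ℝ) : ℂ)) H' α (Z + H' + 1) ≤ Z * (H' : ℝ) ^ 2 / (Real.log X) ^ (3 * A + 8))
    (hm : ∀ N : ℕ, X < N → (N : ℝ) ≤ X + Real.sqrt X → |∑ n ∈ Icc 1 N, M n * lp (N - n) - s N| ≤ X / (Real.log X) ^ (A + 1)) :
    (((Ioc Y (Y + H)).filter fun N => (X : ℝ) / (Real.log X) ^ A < |∑ n ∈ Icc 1 N, F n * lp (N - n) - s N|).card : ℝ) ≤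
      H / (Real.log X) ^ A := by
  classical
  have hX0 : (0 : ℝ) < X := by exact_mod_cast (by omega : 0 < X)
  have hX1 : (1 : ℝ) ≤ X := by exact_mod_cast (by omega : 1 ≤ X)
  have hX100 : (100 : ℝ) ≤ X := by exact_mod_cast hX
  have hs10 : 10 * Real.sqrt X ≤ X := by
    have h1 : (10 : ℝ) ≤ Real.sqrt X := by
      rw [Real.le_sqrt (by norm_num) hX0.le]
      norm_num
      linarith
    nlinarith [Real.mul_self_sqrt hX0.le, Real.sqrt_nonneg X]
  have hXY' : (X : ℝ) ≤ Y := by exact_mod_cast hXY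
  have hHr0 : (0 : ℝ) ≤ H := Nat.cast_nonneg H
  have hY2 : Y ≤ 2 * X := by
    have : (Y : ℝ) ≤ 2 * X := by linarith
    exact_mod_cast this
  have hY0 : (0 : ℝ) < Y := by linarith
  have hlogY : Real.log Y ≤ 2 * Real.log X := by
    have h1 : Real.log Y ≤ Real.log (2 * X) := Real.log_le_log hY0 (by exact_mod_cast hY2)
    rw [Real.log_mul (by norm_num) hX0.ne'] at h1
    have h2 : Real.log 2 ≤ 1 := by linarith [Real.log_two_lt_d9]
    linarith
  have hlogY0 : 0 ≤ Real.log Y := Real.log_nonneg (by linarith)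
  obtain ⟨l, hld⟩ : ∃ l, l = Real.log X := ⟨_, rfl⟩
  rw [← hld] at hl hV hm hlogY ⊢
  have hl0 : 0 < l := by linarith
  have hl1 : 1 ≤ l := by linarith
  have hH'1 : 1 ≤ H' := hH1.trans hHH
  have hH'0 : (0 : ℝ) < H' := by exact_mod_cast hH'1
  have hH0 : (0 : ℝ) < H := by exact_mod_cast hH1
  have hH'2r : (H' : ℝ) ≤ 2 * H := by exact_mod_cast hH2
  have hH'Y : H' ≤ Y := by
    have : (H' : ℝ) ≤ Y := by linarith
    exact_mod_cast this
  have hZXr : (Z : ℝ) ≤ 16 * X := by exact_mod_cast hZX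
  have hF0 : F 0 = 0 := by
    by_contra h
    exact absurd (hF 0 h).1 (by omega)
  have hM0 : M 0 = 0 := by
    by_contra h
    exact absurd (hM 0 h).1 (by omega)
  set E : ℕ → ℂ := fun n => ((F n : ℝ) : ℂ) - ((M n : ℝ) : ℂ) with hE
  have hEs : ∀ n, E n ≠ 0 → 1 ≤ n ∧ n ≤ Z := by
    intro n hn
    by_cases h1 : F n = 0
    · by_cases h2 : M n = 0
      · exact absurd (by rw [hE]; simp only [h1, h2, sub_zero, Complex.ofReal_zero]) hn
      · exact hM n h2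
    · exact hF n h1
  have hfo := fourV H' Z Y (Z + H' + 1) (by omega) (by omega) E (fun n => ((lp n : ℝ) : ℂ)) hEs
    (Z * (H' : ℝ) / l ^ (3 * A + 8)) (by
      intro al
      refine (hV al).trans (le_of_eq ?_)
      ring)
  have hsum := fi_lp_sum (H := H') (by omega : 2 ≤ Y) hH'Y
  have hsum2 : ∑ m ∈ range (Y + H'), ‖((lp m : ℝ) : ℂ)‖ ^ 2 ≤ 96 * X * l ^ 2 := by
    have h0 : ∑ m ∈ range (Y + H'), ‖((lp m : ℝ) : ℂ)‖ ^ 2 ≤ ∑ m ∈ Icc 0 (Y + H'), ‖((lp m : ℝ) : ℂ)‖ ^ 2 := by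
      refine sum_le_sum_of_subset_of_nonneg ?_ fun _ _ _ => by positivity
      intro i hi
      rw [mem_range] at hi
      rw [mem_Icc]
      omega
    refine (h0.trans hsum).trans ?_
    have h1 : (Y : ℝ) ≤ 2 * X := by exact_mod_cast hY2
    calc 12 * (Y : ℝ) * (Real.log Y) ^ 2 ≤ 12 * (2 * X) * (2 * l) ^ 2 := by gcongr
      _ = 96 * X * l ^ 2 := by ring
  have hcm2 : ∑ N ∈ Ioc Y (Y + H'), ‖∑ n ∈ range (N + 1), E n * ((lp (N - n) : ℝ) : ℂ)‖ ^ 2 ≤
      3072 * X ^ 2 * H' / l ^ (3 * A + 6) := by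
    refine hfo.trans ?_
    calc 2 * (Z * (H' : ℝ) / l ^ (3 * A + 8)) * ∑ m ∈ range (Y + H'), ‖((lp m : ℝ) : ℂ)‖ ^ 2
        ≤ 2 * (16 * X * (H' : ℝ) / l ^ (3 * A + 8)) * (96 * X * l ^ 2) := by gcongr
      _ = 3072 * X ^ 2 * H' / l ^ (3 * A + 6) := by
          rw [show 3 * A + 8 = (3 * A + 6) + 2 by ring, pow_add l (3 * A + 6) 2]
          field_simp
          ring
  set U := (Ioc Y (Y + H')).filter fun N => (X : ℝ) / l ^ (A + 1) ≤ ‖∑ n ∈ range (N + 1), E n * ((lp (N - n) : ℝ) : ℂ)‖ with hU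
  have hUc : (U.card : ℝ) * ((X : ℝ) / l ^ (A + 1)) ^ 2 ≤ 3072 * X ^ 2 * H' / l ^ (3 * A + 6) := by
    refine le_trans ?_ hcm2
    calc (U.card : ℝ) * ((X : ℝ) / l ^ (A + 1)) ^ 2 = ∑ N ∈ U, ((X : ℝ) / l ^ (A + 1)) ^ 2 := by
          rw [sum_const, nsmul_eq_mul]
      _ ≤ ∑ N ∈ U, ‖∑ n ∈ range (N + 1), E n * ((lp (N - n) : ℝ) : ℂ)‖ ^ 2 := by
          refine sum_le_sum fun N hN => ?_
          exact pow_le_pow_left₀ (by positivity) (mem_filter.1 hN).2 2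
      _ ≤ _ := sum_le_sum_of_subset_of_nonneg (filter_subset _ _) fun _ _ _ => by positivity
  have hUc' : (U.card : ℝ) ≤ 6144 * H / l ^ (A + 4) := by
    have h1 : 0 < ((X : ℝ) / l ^ (A + 1)) ^ 2 := by positivity
    rw [← mul_le_mul_iff_of_pos_right h1]
    refine hUc.trans ?_
    have h2 : 6144 * (H : ℝ) / l ^ (A + 4) * ((X : ℝ) / l ^ (A + 1)) ^ 2 = 3072 * X ^ 2 * (2 * H) / l ^ (3 * A + 6) := by
      rw [show 3 * A + 6 = (A + 4) + ((A + 1) + (A + 1)) by ring, pow_add l (A + 4), pow_add l (A + 1) (A + 1)]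
      field_simp
      ring
    rw [h2]
    gcongr
  have hsub : ((Ioc Y (Y + H)).filter fun N => (X : ℝ) / l ^ A < |∑ n ∈ Icc 1 N, F n * lp (N - n) - s N|) ⊆ U := by
    intro N hN
    obtain ⟨hN1, hN3⟩ := mem_filter.1 hN
    rw [mem_Ioc] at hN1
    refine mem_filter.2 ⟨mem_Ioc.2 ⟨hN1.1, by omega⟩, ?_⟩
    have hNX : (N : ℝ) ≤ X + Real.sqrt X := by
      have h1 : (N : ℝ) ≤ Y + H := by exact_mod_cast hN1.2
      linarith
    have hm' := hm N (by omega) hNX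
    have e0 : ∀ K : ℕ → ℝ, K 0 = 0 → ∑ n ∈ range (N + 1), K n * lp (N - n) = ∑ n ∈ Icc 1 N, K n * lp (N - n) := by
      intro K hK
      symm
      refine sum_subset ?_ ?_
      · intro n hn
        rw [mem_Icc] at hn
        rw [mem_range]
        omega
      · intro n hn hn2
        rw [mem_range] at hn
        rw [mem_Icc] at hn2
        have h0 : n = 0 := by omega
        rw [h0, hK, zero_mul]
    have e1 : ∑ n ∈ range (N + 1), E n * ((lp (N - n) : ℝ) : ℂ) =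
        (((∑ n ∈ Icc 1 N, F n * lp (N - n)) - ∑ n ∈ Icc 1 N, M n * lp (N - n) : ℝ) : ℂ) := by
      rw [← e0 F hF0, ← e0 M hM0, ← sum_sub_distrib]
      push_cast
      refine sum_congr rfl fun n _ => ?_
      rw [hE]
      ring
    rw [e1, Complex.norm_real, Real.norm_eq_abs]
    set u := ∑ n ∈ Icc 1 N, F n * lp (N - n) with hu
    set v := ∑ n ∈ Icc 1 N, M n * lp (N - n) with hv
    have h3 : |u - s N| ≤ |u - v| + |v - s N| := by
      have : u - s N = (u - v) + (v - s N) := by ring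
      rw [this]
      exact abs_add_le _ _
    have h4 : (X : ℝ) / l ^ A = l * (X / l ^ (A + 1)) := by
      rw [pow_succ l A]
      field_simp
    have h5 : 0 ≤ (X : ℝ) / l ^ (A + 1) := by positivity
    rw [h4] at hN3
    nlinarith
  calc (((Ioc Y (Y + H)).filter fun N => (X : ℝ) / l ^ A < |∑ n ∈ Icc 1 N, F n * lp (N - n) - s N|).card : ℝ)
      ≤ (U.card : ℝ) := by exact_mod_cast card_le_card hsub
    _ ≤ 6144 * H / l ^ (A + 4) := hUc'
    _ ≤ H / l ^ A := by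
        have h2 : 6144 * (H : ℝ) / l ^ (A + 4) = H / l ^ A * (6144 / l ^ 4) := by
          rw [pow_add]
          field_simp
        rw [h2]
        have h4 : 6144 / l ^ 4 ≤ 1 := by
          rw [div_le_one (by positivity)]
          calc (6144 : ℝ) ≤ l := by linarith
            _ ≤ l ^ 4 := le_self_pow₀ hl1 (by norm_num)
        have h5 : 0 ≤ (H : ℝ) / l ^ A := by positivity
        nlinarith

end Pool.Agent.Lib.G5
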