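import Pool.Agent.Lib.G5.HAsy

/-!
# G5 / AsyG: the general block theorem in the form used by `R6`
-/

set_option autoImplicit false

open Finset

namespace Pool.Agent.Lib.G5

open Pool.Agent.Lib.G3 (SS)

theorem asyG (A e : ℕ) : ∃ c10 : ℕ, ∀ c1 : ℕ, c10 ≤ c1 → ∃ (C : ℕ) (x0 : ℝ), ∀ X : ℕ, x0 ≤ X →
    ∀ (P R M : ℕ) (S : Finset ℕ) (a : ℕ → ℝ), BlkG X P R M S a e c1 → ∀ H : ℕ, (P : ℝ) * (Real.log X) ^ C ≤ H →
      2 * (H : ℝ) ≤ Real.sqrt X →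
      (((Ioc X (X + H)).filter fun N => (X : ℝ) / (Real.log X) ^ A < |WS S a R M N - SS N * DD S a R M N|).card : ℝ) ≤
        H / (Real.log X) ^ A :=
  asyGJ A e

end Pool.Agent.Lib.G5
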