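import Pool.Agent.Lib.VK.UVs
import Pool.Agent.Lib.G5.AWin
import Pool.Agent.Lib.G5.AMain
import Pool.Agent.Lib.G5.ASg

/-!
# G5 / AsyS (block board): the asymptotic formula for one block, in every window, with the complete singular series

PROOF. `l = log X`, `Z = 16 P M R`, `16 X/l^e ≤ Z ≤ 16 X`, so for large `X`: `log Z ≤ l + 3`, `log Z ≥ l - e log l`, hence
`(log Z)^k ≤ 2 l^k` and `l^k ≤ 2 (log Z)^k` for each fixed `k`. `c` from `sgQ (A+2)`, `g ≥ c` and `a1` from `varS (3A + 30) c`,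
`c10 = a1 + 1`; for `c1 ≥ c10` the block is `BlkZ Z P R M S a (c1-1) (cP+1) (cM+1)` (`(log Z)^(c1-1)/2 ≤ l^(c1-1) ≤ l^c1/2 ≤ P`, the same
for the primes of `m`; `P ≤ 2 l^cP ≤ 2 (log Z)^(cP+1)`; `8 P M R ≤ Z ≤ 256 P M R`), `varS` gives `c6'`; `C = c6' + 4g + 22`,
`h = ⌈l^(c6'+1)⌉`, `(log Z)^c6' ≤ h ≤ (log Z)^(c6'+2)`, `h ≤ H`; `H'` from `varS` with `H := h`. For every `Y`, `X ≤ Y`,
`Y + h ≤ X + sqrt X`: `winS` with `A := A + 2`, `F = bS`, `M = rhoS ram Q`, `Q = ⌊(log Z)^g⌋`, `s N = sg Q N * DD N`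
(`hV`: `Z H'²/(log Z)^(3A+30) ≤ Z H'²/l^(3(A+2)+8)`; `hm`: `mainS (A+3) g`, `N ≤ X + sqrt X ≤ 2X`; supports: `bs_supp`, `rhoS` is
supported in `1 ≤ n ≤ 2 p m R ≤ 8 P M R ≤ Z`). `fin_cover` (G3/FinA.lean): at most `2 H/l^(A+2)` of the `N` in `(X, X+H]` have error
`> X/l^(A+2)`. `sgQ`: all but `H/l^(A+2)` of the `N` have `|sg Q N - SS N| ≤ 1/l^(A+2)`, and `|DD N| ≤ ∑_p ∑_m (1/(p m log 2R)) p m R
≤ P · M · R ≤ X` (`card (Ioc (pmR) (2pmR)) = pmR`). Together: error `≤ X/l^(A+2) + X/l^(A+2) ≤ X/l^A` for all but `3 H/l^(A+2) ≤ H/l^A`.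
-/

set_option autoImplicit false

open Finset

namespace Pool.Agent.Lib.G5

open Pool.Agent.Lib.G3 (SS sg pr lp grow fin_cover)
open Pool.Agent.Lib.VKT (BlkZ rhoS ram varS parS bC bs_supp)

/-- sizes: `log Z` and `log X` -/
private theorem as_sz (n e : ℕ) (y0 : ℝ) : ∃ x0 : ℝ, 100 ≤ x0 ∧ ∀ X Z : ℕ, x0 ≤ X → 16 * (X : ℝ) / (Real.log X) ^ e ≤ Z → Z ≤ 16 * X →
    y0 ≤ Z ∧ 10000 ≤ Real.log X ∧ 4 ≤ Real.log Z ∧
      ∀ k ≤ n, (Real.log Z) ^ k ≤ 3 / 2 * (Real.log X) ^ k ∧ (Real.log X) ^ k ≤ 3 / 2 * (Real.log Z) ^ k := by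
  set η : ℝ := 1 / (8 * ((n : ℝ) + 1)) with hη
  have hn0 : (0 : ℝ) ≤ n := Nat.cast_nonneg n
  have hη0 : 0 < η := by positivity
  have hη1 : η ≤ 1 / 8 := by
    rw [hη]
    exact one_div_le_one_div_of_le (by norm_num) (by linarith)
  have hηn : (n : ℝ) * (2 * η) ≤ 1 / 4 := by
    rw [hη, mul_one_div, mul_div_assoc', div_le_div_iff₀ (by positivity) (by norm_num)]
    nlinarith
  have hev := Real.isLittleO_log_id_atTop.def (c := η / (e + 1)) (by positivity)
  obtain ⟨L0, hL0⟩ := hev.exists_forall_of_atTop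
  obtain ⟨x1, hx1, hgr⟩ := grow (max (max L0 (10000 + 24 * (n + 1))) (2 * Real.log (max y0 1))) 0
  refine ⟨x1, hx1, fun X Z hX hZ1 hZ2 => ?_⟩
  have hlX := (hgr X hX).1
  simp only [max_le_iff] at hlX
  obtain ⟨⟨hl0, hl1⟩, hl2⟩ := hlX
  have hX100 : (100 : ℝ) ≤ X := hx1.trans hX
  have hX0 : (0 : ℝ) < X := by linarith
  obtain ⟨l, hld⟩ : ∃ l, l = Real.log X := ⟨_, rfl⟩
  rw [← hld] at hZ1 hl0 hl1 hl2 ⊢
  have hlpos : 0 < l := by nlinarith
  have hl1' : 1 ≤ l := by nlinarith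
  have hl10000 : 10000 ≤ l := by nlinarith
  have hll : (e : ℝ) * Real.log l ≤ η * l := by
    have h1 := hL0 l hl0
    simp only [id, Real.norm_eq_abs] at h1
    rw [abs_of_pos hlpos, abs_of_nonneg (Real.log_nonneg hl1')] at h1
    have h2 : (e : ℝ) * Real.log l ≤ (e + 1) * Real.log l := by
      have := Real.log_nonneg hl1'
      nlinarith
    have h3 : ((e : ℝ) + 1) * Real.log l ≤ (e + 1) * (η / (e + 1) * l) := by gcongr
    have h4 : ((e : ℝ) + 1) * (η / (e + 1) * l) = η * l := by field_simp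
    linarith
  have hZ0 : (0 : ℝ) < Z := lt_of_lt_of_le (by positivity) hZ1
  obtain ⟨lam, hlam⟩ : ∃ lam, lam = Real.log Z := ⟨_, rfl⟩
  rw [← hlam]
  have hlog16 : Real.log 16 ≤ 3 := by
    have : Real.log 16 = 4 * Real.log 2 := by
      rw [show (16 : ℝ) = 2 ^ 4 by norm_num, Real.log_pow]
      norm_num
    rw [this]
    have := Real.log_two_lt_d9
    linarith
  have hlog16' : 0 ≤ Real.log 16 := Real.log_nonneg (by norm_num)
  have hup : lam ≤ l + 3 := by
    have h1 : Real.log Z ≤ Real.log (16 * X) := Real.log_le_log hZ0 (by exact_mod_cast hZ2)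
    rw [Real.log_mul (by norm_num) hX0.ne'] at h1
    rw [hlam, hld]
    linarith
  have hlo : l - η * l ≤ lam := by
    have h1 : Real.log (16 * (X : ℝ) / l ^ e) ≤ Real.log Z := Real.log_le_log (by positivity) hZ1
    rw [Real.log_div (by positivity) (by positivity), Real.log_mul (by norm_num) hX0.ne', Real.log_pow] at h1
    rw [hlam]
    have h2 : Real.log X = l := hld.symm
    rw [h2] at h1
    linarith
  have hlam0 : l / 2 ≤ lam := by nlinarith
  have hlampos : 0 < lam := by linarith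
  have hexp : Real.exp (1 / 4) ≤ 3 / 2 := by
    have h1 := Real.exp_one_lt_d9
    have h2 : Real.exp (1 / 4) ^ 4 = Real.exp 1 := by
      rw [← Real.exp_nat_mul]
      norm_num
    by_contra h
    rw [not_le] at h
    have h3 : (3 / 2 : ℝ) ^ 4 ≤ Real.exp (1 / 4) ^ 4 := pow_le_pow_left₀ (by norm_num) h.le 4
    rw [h2] at h3
    norm_num at h3
    linarith
  have hpow : ∀ k ≤ n, (1 + 2 * η) ^ k ≤ 3 / 2 := by
    intro k hk
    have h1 : (1 : ℝ) + 2 * η ≤ Real.exp (2 * η) := by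
      have := Real.add_one_le_exp (2 * η)
      linarith
    calc (1 + 2 * η) ^ k ≤ (Real.exp (2 * η)) ^ k := pow_le_pow_left₀ (by positivity) h1 k
      _ = Real.exp (k * (2 * η)) := by rw [← Real.exp_nat_mul]
      _ ≤ Real.exp (1 / 4) := by
          apply Real.exp_le_exp.mpr
          have : (k : ℝ) ≤ n := by exact_mod_cast hk
          nlinarith
      _ ≤ 3 / 2 := hexp
  have hA : lam ≤ l * (1 + 2 * η) := by
    have h1 : 3 ≤ l * (2 * η) := by
      have h2 : 24 * ((n : ℝ) + 1) ≤ l := by linarith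
      have h3 : 24 * ((n : ℝ) + 1) * (2 * η) = 6 := by
        rw [hη]
        field_simp
        ring
      have h4 : 24 * ((n : ℝ) + 1) * (2 * η) ≤ l * (2 * η) := mul_le_mul_of_nonneg_right h2 (by positivity)
      linarith
    nlinarith
  have hB : l ≤ lam * (1 + 2 * η) := by
    have h1 : (l - η * l) * (1 + 2 * η) ≤ lam * (1 + 2 * η) := mul_le_mul_of_nonneg_right hlo (by positivity)
    have h2 : l ≤ (l - η * l) * (1 + 2 * η) := by
      have : (l - η * l) * (1 + 2 * η) = l + l * η * (1 - 2 * η) := by ring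
      rw [this]
      have h3 : 0 ≤ l * η * (1 - 2 * η) := mul_nonneg (by positivity) (by linarith)
      linarith
    linarith
  refine ⟨?_, hl10000, by linarith, fun k hk => ⟨?_, ?_⟩⟩
  · have h1 : Real.log (max y0 1) ≤ Real.log Z := by
      rw [← hlam]
      linarith
    have h2 : max y0 1 ≤ (Z : ℝ) := by
      rwa [Real.log_le_log_iff (by positivity) hZ0] at h1
    exact (le_max_left _ _).trans h2
  · calc lam ^ k ≤ (l * (1 + 2 * η)) ^ k := pow_le_pow_left₀ hlampos.le hA k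
      _ = (1 + 2 * η) ^ k * l ^ k := by rw [mul_pow]; ring
      _ ≤ 3 / 2 * l ^ k := mul_le_mul_of_nonneg_right (hpow k hk) (by positivity)
  · calc l ^ k ≤ (lam * (1 + 2 * η)) ^ k := pow_le_pow_left₀ hlpos.le hB k
      _ = (1 + 2 * η) ^ k * lam ^ k := by rw [mul_pow]; ring
      _ ≤ 3 / 2 * lam ^ k := mul_le_mul_of_nonneg_right (hpow k hk) (by positivity)

/-- support of the density -/
private theorem as_rho {S : Finset ℕ} {a : ℕ → ℝ} {P R M n : ℕ} (hS : S ⊆ pr P) (hn : rhoS S a R M n ≠ 0) :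
    1 ≤ n ∧ n ≤ 8 * (P * M * R) := by
  unfold rhoS at hn
  obtain ⟨p, hp, hn⟩ := exists_ne_zero_of_sum_ne_zero hn
  obtain ⟨m, hm, hn⟩ := exists_ne_zero_of_sum_ne_zero hn
  rw [mem_Ico] at hm
  have hp2 := hS hp
  unfold Pool.Agent.Lib.G3.pr at hp2
  rw [mem_filter, mem_Ioc] at hp2
  split_ifs at hn with h
  · refine ⟨by omega, h.2.trans ?_⟩
    calc 2 * (p * m * R) ≤ 2 * ((2 * P) * (2 * M) * R) := by
          have h1 : p ≤ 2 * P := hp2.1.2
          have h2 : m ≤ 2 * M := hm.2.le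
          gcongr
      _ = 8 * (P * M * R) := by ring
  · exact absurd rfl hn

/-- the mass is at most `P M R` -/
private theorem as_DD {S : Finset ℕ} {a : ℕ → ℝ} {P R M : ℕ} (hS : S ⊆ pr P) (hM : 1 ≤ M) (hR : 2 ≤ R) (ha : ∀ m, |a m| ≤ 1) (N : ℕ) :
    |DD S a R M N| ≤ (P * M * R : ℕ) := by
  have hL1 : 1 ≤ Real.log (2 * R : ℕ) := by
    have e1 : (Real.exp 1) ≤ ((2 * R : ℕ) : ℝ) := by
      have e2 : (2 : ℝ) ≤ R := by exact_mod_cast hR
      have e4 := Real.exp_one_lt_d9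
      push_cast
      linarith
    rw [Real.le_log_iff_exp_le (by
      have := Real.exp_pos 1
      linarith)]
    exact e1
  unfold DD
  refine (abs_sum_le_sum_abs _ _).trans ?_
  have h1 : ∀ p ∈ S, |∑ m ∈ Ico M (2 * M), a m / (p * m * Real.log (2 * R : ℕ)) *
      (((Ioc (p * m * R) (2 * (p * m * R))).filter fun n => n < N).card : ℝ)| ≤ (M : ℝ) * R := by
    intro p hp
    have hp2 := hS hp
    unfold Pool.Agent.Lib.G3.pr at hp2
    rw [mem_filter, mem_Ioc] at hp2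
    have hp0 : (0 : ℝ) < p := by exact_mod_cast hp2.2.pos
    refine (abs_sum_le_sum_abs _ _).trans ?_
    have h2 : ∀ m ∈ Ico M (2 * M), |a m / (p * m * Real.log (2 * R : ℕ)) *
        (((Ioc (p * m * R) (2 * (p * m * R))).filter fun n => n < N).card : ℝ)| ≤ R := by
      intro m hm
      rw [mem_Ico] at hm
      have hm0 : (0 : ℝ) < m := by exact_mod_cast (by omega : 0 < m)
      have hc : (((Ioc (p * m * R) (2 * (p * m * R))).filter fun n => n < N).card : ℝ) ≤ p * m * R := by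
        have h3 : ((Ioc (p * m * R) (2 * (p * m * R))).filter fun n => n < N).card ≤ p * m * R := by
          refine (card_filter_le _ _).trans ?_
          rw [Nat.card_Ioc]
          omega
        exact_mod_cast h3
      have hden : 0 < (p : ℝ) * m * Real.log (2 * R : ℕ) := by positivity
      rw [abs_mul, abs_div, abs_of_pos hden, Nat.abs_cast]
      have h4 : |a m| / ((p : ℝ) * m * Real.log (2 * R : ℕ)) ≤ 1 / (p * m) := by
        rw [div_le_div_iff₀ hden (by positivity)]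
        have h5 : (p : ℝ) * m ≤ p * m * Real.log (2 * R : ℕ) := le_mul_of_one_le_right (by positivity) hL1
        have h6 := ha m
        have h7 : 0 < (p : ℝ) * m := by positivity
        nlinarith
      calc |a m| / ((p : ℝ) * m * Real.log (2 * R : ℕ)) * (((Ioc (p * m * R) (2 * (p * m * R))).filter fun n => n < N).card : ℝ)
          ≤ 1 / (p * m) * (p * m * R) := by gcongr
        _ = R := by field_simp
    refine (sum_le_sum h2).trans ?_
    rw [sum_const, Nat.card_Ico, nsmul_eq_mul]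
    have : 2 * M - M = M := by omega
    rw [this]
  refine (sum_le_sum h1).trans ?_
  rw [sum_const, nsmul_eq_mul]
  have hcard : S.card ≤ P := by
    refine (card_le_card hS).trans ?_
    unfold Pool.Agent.Lib.G3.pr
    refine (card_filter_le _ _).trans ?_
    rw [Nat.card_Ioc]
    omega
  have hcard' : (S.card : ℝ) ≤ P := by exact_mod_cast hcard
  push_cast
  have : (0 : ℝ) ≤ (M : ℝ) * R := by positivity
  nlinarith

theorem asyS (A e : ℕ) : ∃ c10 : ℕ, ∀ c1 : ℕ, c10 ≤ c1 → ∀ cP cM : ℕ, ∃ (C : ℕ) (x0 : ℝ), ∀ X : ℕ, x0 ≤ X →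
    ∀ (P R M : ℕ) (S : Finset ℕ) (a : ℕ → ℝ), BlkS X P R M S a e c1 cP cM → ∀ H : ℕ, (Real.log X) ^ C ≤ H → 2 * (H : ℝ) ≤ Real.sqrt X →
      (((Ioc X (X + H)).filter fun N => (X : ℝ) / (Real.log X) ^ A < |WS S a R M N - SS N * DD S a R M N|).card : ℝ) ≤
        H / (Real.log X) ^ A := by
  classical
  obtain ⟨c, hc⟩ := sgQ (A + 2)
  obtain ⟨g, hg, a1, hv⟩ := varS (3 * A + 30) (max c 1)
  have hgc : c ≤ g := (le_max_left _ _).trans hg
  have hg1 : 1 ≤ g := (le_max_right _ _).trans hg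
  obtain ⟨x3, hsg⟩ := hc g hgc
  obtain ⟨x2, hmain⟩ := mainS (A + 3) g
  refine ⟨a1 + 1, fun c1 hc1 cP cM => ?_⟩
  obtain ⟨c6, hc6, x1, hvar⟩ := hv (c1 - 1) (by omega) (cP + 1) (cM + 1)
  obtain ⟨x4, hx4, hpar⟩ := parS (c1 - 1) (cP + 1) (cM + 1)
  obtain ⟨x5, hx5, hsz⟩ := as_sz (c1 + cP + cM + c6 + g + 3 * A + 40) e (max x1 x4)
  refine ⟨c6 + 4 * g + 22, max x5 (max x2 x3), fun X hX P R M S a hb H hH1 hH2 => ?_⟩
  simp only [max_le_iff] at hX
  obtain ⟨hX5, hX2, hX3⟩ := hX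
  have hX100r : (100 : ℝ) ≤ X := hx5.trans hX5
  have hX100 : 100 ≤ X := by exact_mod_cast hX100r
  have hX0 : (0 : ℝ) < X := by linarith
  set Z : ℕ := 16 * (P * M * R) with hZ
  have hZX : Z ≤ 16 * X := Nat.mul_le_mul_left _ hb.hR2
  have hZlo : 16 * (X : ℝ) / (Real.log X) ^ e ≤ Z := by
    have h1 := hb.hR1
    rw [hZ, mul_div_assoc]
    push_cast at h1 ⊢
    linarith
  obtain ⟨hZy, hl10000, hlam4, hpw⟩ := hsz X Z hX5 hZlo hZX
  simp only [max_le_iff] at hZy
  obtain ⟨hZ1, hZ4⟩ := hZy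
  obtain ⟨hP1, hP2, hP3, hP4, hM1, hM2, hS, ha, ham, hbb⟩ :
      (Real.log X) ^ c1 / 2 ≤ P ∧ (P : ℝ) ≤ 2 * (Real.log X) ^ cP ∧ (X : ℝ) / (Real.log X) ^ e ≤ (P * M * R : ℕ) ∧ P * M * R ≤ X ∧
        1 ≤ M ∧ (M : ℝ) ≤ (Real.log X) ^ cM ∧ S ⊆ pr P ∧ (∀ m, |a m| ≤ 1) ∧
        (∀ m, a m ≠ 0 → ∀ p : ℕ, p.Prime → p ∣ m → (Real.log X) ^ c1 / 2 < p) ∧ (∀ n, |bS S a R M n| ≤ 1) :=
    ⟨hb.hP1, hb.hP2, hb.hR1, hb.hR2, hb.hM1, hb.hM2, hb.hS, hb.ha, hb.ham, hb.hb⟩
  obtain ⟨l, hld⟩ : ∃ l, l = Real.log X := ⟨_, rfl⟩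
  obtain ⟨lam, hlamd⟩ : ∃ lam, lam = Real.log Z := ⟨_, rfl⟩
  rw [← hld] at hl10000 hP1 hP2 hM2 ham hH1
  rw [← hlamd] at hlam4
  rw [← hld, ← hlamd] at hpw
  have hl0 : 0 < l := by linarith
  have hl1 : 1 ≤ l := by linarith
  have hlam0 : 0 < lam := by linarith
  have hlam1 : 1 ≤ lam := by linarith
  have hc1e : l ^ (c1 - 1) * l = l ^ c1 := by
    rw [← pow_succ]
    congr 1
    omega
  have hlow : lam ^ (c1 - 1) ≤ l ^ c1 := by
    have h1 := (hpw (c1 - 1) (by omega)).1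
    have h2 : 0 < l ^ (c1 - 1) := by positivity
    rw [← hc1e]
    nlinarith
  have hblk : BlkZ Z P R M S a (c1 - 1) (cP + 1) (cM + 1) := by
    refine ⟨?_, ?_, hM1, ?_, ?_, ?_, hS, ha, ?_, hbb⟩
    · rw [← hlamd]
      linarith
    · rw [← hlamd]
      have h1 := (hpw cP (by omega)).2
      have h2 : 0 < lam ^ cP := by positivity
      rw [pow_succ]
      nlinarith
    · rw [← hlamd]
      have h1 := (hpw cM (by omega)).2
      have h2 : 0 < lam ^ cM := by positivity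
      rw [pow_succ]
      nlinarith
    · omega
    · omega
    · intro m hm p hp hpm
      rw [← hlamd]
      have := ham m hm p hp hpm
      linarith
  obtain ⟨hq1, hq2, hq3, hq4, hq5, hq6, hq7⟩ := hpar Z P R M S a hZ4 hblk
  have hR2 : 2 ≤ R := by omega
  -- the short windows
  set h : ℕ := ⌈l ^ (c6 + 1)⌉₊ with hh
  have hlc : 1 ≤ l ^ (c6 + 1) := one_le_pow₀ hl1
  have hhlo : l ^ (c6 + 1) ≤ h := Nat.le_ceil _
  have hhup : (h : ℝ) ≤ 2 * l ^ (c6 + 1) := by
    have := Nat.ceil_lt_add_one (show 0 ≤ l ^ (c6 + 1) by positivity)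
    linarith
  have hh1 : 1 ≤ h := by
    have : (1 : ℝ) ≤ h := by linarith
    exact_mod_cast this
  have hhH : h ≤ H := by
    have : (h : ℝ) ≤ H := by
      refine hhup.trans (le_trans ?_ hH1)
      calc 2 * l ^ (c6 + 1) ≤ l * l ^ (c6 + 1) := by gcongr; linarith
        _ = l ^ (c6 + 2) := by rw [← pow_succ']
        _ ≤ l ^ (c6 + 4 * g + 22) := pow_le_pow_right₀ hl1 (by omega)
    exact_mod_cast this
  have hha : lam ^ c6 ≤ h := by
    refine le_trans ?_ hhlo
    have h1 := (hpw c6 (by omega)).1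
    have h2 : 0 < l ^ c6 := by positivity
    rw [pow_succ]
    nlinarith
  have hhb : (h : ℝ) ≤ lam ^ (c6 + 2) := by
    refine hhup.trans ?_
    have h1 := (hpw (c6 + 1) (by omega)).2
    have h2 : 0 < lam ^ (c6 + 1) := by positivity
    rw [pow_succ lam (c6 + 1)]
    nlinarith
  have hha' : (Real.log Z) ^ c6 ≤ h := by rw [← hlamd]; exact hha
  have hhb' : (h : ℝ) ≤ (Real.log Z) ^ (c6 + 2) := by rw [← hlamd]; exact hhb
  obtain ⟨H', hH'1, hH'2, hV⟩ := hvar Z hZ1 h hha' hhb'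
  have hV' := hV P R M S a hblk
  rw [← hlamd] at hV'
  set Q : ℕ := ⌊lam ^ g⌋₊ with hQ
  have hQ1 : 1 ≤ Q := Nat.le_floor (by exact_mod_cast one_le_pow₀ hlam1)
  have hQu : (Q : ℝ) ≤ 2 * l ^ g := by
    have h1 : (Q : ℝ) ≤ lam ^ g := Nat.floor_le (by positivity)
    have h2 := (hpw g (by omega)).1
    have h3 : 0 < l ^ g := by positivity
    linarith
  have hQl : l ^ g / 2 ≤ Q := by
    have h1 : lam ^ g < (Q : ℝ) + 1 := Nat.lt_floor_add_one _
    have h2 := (hpw g (by omega)).2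
    have h3 : l ^ 1 ≤ l ^ g := pow_le_pow_right₀ hl1 hg1
    rw [pow_one] at h3
    linarith
  have hsq : Real.sqrt X ≤ X := by
    rw [Real.sqrt_le_left hX0.le]
    nlinarith
  have hwin : ∀ Y : ℕ, X ≤ Y → (Y : ℝ) + h ≤ X + Real.sqrt X →
      (((Ioc Y (Y + h)).filter fun N => (X : ℝ) / l ^ (A + 2) < |WS S a R M N - sg Q N * DD S a R M N|).card : ℝ) ≤
        h * (1 / l ^ (A + 2)) := by
    intro Y hXY hY
    have hw := winS (A := A + 2) (X := X) (Z := Z) (Y := Y) (H := h) (H' := H') (s := fun N => sg Q N * DD S a R M N)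
      (F := bS S a R M) (M := fun n => rhoS S a R M n * ram Q n) hX100 (by rw [← hld]; exact hl10000) hZX hXY hY hh1 hH'1 hH'2
      (fun n hn => by
        have hn' : bC S a R M n ≠ 0 := by
          unfold bC
          exact_mod_cast hn
        have := bs_supp hS hM1 hn'
        omega)
      (fun n hn => by
        have := as_rho hS (left_ne_zero_of_mul hn)
        omega)
      (fun α => by
        refine (hV' α).trans ?_
        rw [← hld]
        have h1 := (hpw (3 * (A + 2) + 8) (by omega)).2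
        have h2 : l ^ (3 * (A + 2) + 8) ≤ lam ^ (3 * A + 30) := by
          calc l ^ (3 * (A + 2) + 8) ≤ 3 / 2 * lam ^ (3 * (A + 2) + 8) := h1
            _ ≤ lam * lam ^ (3 * (A + 2) + 8) := by gcongr; linarith
            _ = lam ^ (3 * (A + 2) + 8 + 1) := by rw [← pow_succ']
            _ ≤ lam ^ (3 * A + 30) := pow_le_pow_right₀ hlam1 (by omega)
        exact div_le_div_of_nonneg_left (by positivity) (by positivity) h2)
      (fun N hN1 hN2 => by
        have hN3 : N ≤ 2 * X := by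
          have : (N : ℝ) ≤ 2 * X := by linarith
          exact_mod_cast this
        have h1 := hmain X hX2 Q N P R M S a hQ1 (by rw [← hld]; exact hQu) hN1 hN3 hS hM1 hR2 ha
        exact h1)
    rw [← hld] at hw
    calc _ ≤ (h : ℝ) / l ^ (A + 2) := hw
      _ = h * (1 / l ^ (A + 2)) := by ring
  have hcov := fin_cover (fun N => (X : ℝ) / l ^ (A + 2) < |WS S a R M N - sg Q N * DD S a R M N|) (X := X) (H := H) (h := h)
    (S := Real.sqrt X) (ε := 1 / l ^ (A + 2)) hh1 hhH (by positivity) (by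
      have : (h : ℝ) ≤ H := by exact_mod_cast hhH
      linarith) hwin
  have hHX : H ≤ X := by
    have h0 : (0 : ℝ) ≤ H := Nat.cast_nonneg H
    have : (H : ℝ) ≤ X := by linarith
    exact_mod_cast this
  have hsgc := hsg X hX3 Q H (by rw [← hld]; exact hQl) (by rw [← hld]; exact hQu) (by
    rw [← hld]
    exact (pow_le_pow_right₀ hl1 (by omega)).trans hH1) hHX
  rw [← hld] at hsgc
  have hsub : ((Ioc X (X + H)).filter fun N => (X : ℝ) / l ^ A < |WS S a R M N - SS N * DD S a R M N|) ⊆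
      ((Ioc X (X + H)).filter fun N => (X : ℝ) / l ^ (A + 2) < |WS S a R M N - sg Q N * DD S a R M N|) ∪
      ((Ioc X (X + H)).filter fun N => 1 / l ^ (A + 2) < |sg Q N - SS N|) := by
    intro N hN
    rw [mem_filter] at hN
    rw [mem_union, mem_filter, mem_filter]
    by_contra hno
    rw [not_or, not_and, not_and, not_lt, not_lt] at hno
    have h1 := hno.1 hN.1
    have h2 := hno.2 hN.1
    have h3 : |DD S a R M N| ≤ X := by
      refine (as_DD hS hM1 hR2 ha N).trans ?_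
      exact_mod_cast hb.hR2
    have h4 : |WS S a R M N - SS N * DD S a R M N| ≤ X / l ^ (A + 2) + 1 / l ^ (A + 2) * X := by
      have e1 : WS S a R M N - SS N * DD S a R M N = (WS S a R M N - sg Q N * DD S a R M N) + (sg Q N - SS N) * DD S a R M N := by ring
      rw [e1]
      refine (abs_add_le _ _).trans ?_
      rw [abs_mul]
      exact add_le_add h1 (mul_le_mul h2 h3 (abs_nonneg _) (by positivity))
    have h5 : (X : ℝ) / l ^ (A + 2) + 1 / l ^ (A + 2) * X ≤ X / l ^ A := by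
      have e2 : (X : ℝ) / l ^ (A + 2) + 1 / l ^ (A + 2) * X = X / l ^ A * (2 / l ^ 2) := by
        rw [pow_add]
        field_simp
        ring
      rw [e2]
      refine mul_le_of_le_one_right (by positivity) ?_
      rw [div_le_one (by positivity)]
      nlinarith
    have h6 := hN.2
    linarith
  rw [← hld]
  have hcard : (((Ioc X (X + H)).filter fun N => (X : ℝ) / l ^ A < |WS S a R M N - SS N * DD S a R M N|).card : ℝ) ≤
      2 * H * (1 / l ^ (A + 2)) + H / l ^ (A + 2) := by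
    have h1 := (card_le_card hsub).trans (card_union_le _ _)
    have h2 : (((Ioc X (X + H)).filter fun N => (X : ℝ) / l ^ A < |WS S a R M N - SS N * DD S a R M N|).card : ℝ) ≤
        (((Ioc X (X + H)).filter fun N => (X : ℝ) / l ^ (A + 2) < |WS S a R M N - sg Q N * DD S a R M N|).card : ℝ) +
        (((Ioc X (X + H)).filter fun N => 1 / l ^ (A + 2) < |sg Q N - SS N|).card : ℝ) := by exact_mod_cast h1
    exact h2.trans (add_le_add hcov hsgc)
  refine hcard.trans ?_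
  have h7 : 2 * (H : ℝ) * (1 / l ^ (A + 2)) + H / l ^ (A + 2) = H / l ^ A * (3 / l ^ 2) := by
    rw [pow_add]
    field_simp
    ring
  rw [h7]
  refine mul_le_of_le_one_right (by positivity) ?_
  rw [div_le_one (by positivity)]
  nlinarith

end Pool.Agent.Lib.G5
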