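import Pool.Agent.Lib.G5.QIx

/-!
# G5, general version (`P` up to a power of `X`, windows `H ≥ P (log X)^C`): conditions
-/

set_option autoImplicit false

open Finset

namespace Pool.Agent.Lib.G5

open Pool.Agent.Lib.G3 (pr)

/-- general conditions on a block at the scale `X` -/
structure BlkG (X P R M : ℕ) (S : Finset ℕ) (a : ℕ → ℝ) (e c1 : ℕ) : Prop where
  hP1 : (Real.log X) ^ c1 / 2 ≤ P
  hP2 : P ^ 400 ≤ X
  hM1 : 1 ≤ M
  hM2 : (P * M) ^ 200 ≤ X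
  hR1 : (X : ℝ) / (Real.log X) ^ e ≤ (P * M * R : ℕ)
  hR2 : P * M * R ≤ X
  hS : S ⊆ pr P
  ha : ∀ m, |a m| ≤ 1
  ham : ∀ m, a m ≠ 0 → ∀ p : ℕ, p.Prime → p ∣ m → (Real.log X) ^ c1 / 2 < p
  hb : ∀ n, |bS S a R M n| ≤ 1

/-- the general ranges of `w` and `w'` at the scale `Y` -/
structure Rg2 (Y w w' c1 M : ℕ) : Prop where
  h1 : (Real.log Y) ^ (c1 + 1) ≤ w
  h2 : w ≤ w'
  h3 : w' ^ M ≤ Y

end Pool.Agent.Lib.G5
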