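import Pool.Agent.Lib.G5.QIx

/-!
# G5, row Q0: the dyadic blocks satisfy the conditions, and there are few of them

PROOF IN WORDS. Write `l = log Y`, `b = (i, j, g)`, `P = 2^i`, `M = 2^j`, `R = 2^g`. From `(SI w w' i).Nonempty` there is a prime `p` with
`2^i < p ≤ 2^(i+1)`, `w < p ≤ w'`. So `2^(i+1) > w ≥ l^(c1+1)`, hence `2^i ≥ l^(c1+1)/2 ≥ l^c1/2` (hP1), and `2^i < p ≤ w' ≤ l^d` (hP2).
`2^j ≤ w'^(k-2) ≤ l^(d(k-2)) ≤ l^(d(k-2)+1)` (hM2). hR1, hR2 are in the definition of `Ix`. hS: `2 * 2^i = 2^(i+1)`. `|aS| ≤ 1` since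
`0 ≤ 1/(k-1) ≤ 1`. ham: if `aS m ≠ 0` and `p ∣ m` then `p ∈ PP w w'`, so `p > w ≥ l^(c1+1) > l^c1/2`.
hb (`0 ≤ bS ≤ 1`): `R = 2^g ≥ Y/(l^e P M) ≥ Y/(l^e l^d l^(d(k-2)+1)) > l^d ≥ w'` for large `Y`. A nonzero term has `n = p m r` with `p ∈ PP w w'`,
`m` a product of `k-2` distinct primes of `PP w w'` and `r > R > w'` prime: so `r` is the only prime factor of `n` which is `> w'` (and
`m`, `p` are determined by `p` and `n`: `m = n / (p r)`). The number of possible `p` is at most the number of prime factors of `n / r = p m`, which is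
`≤ k - 1`. Every term is `≤ 1/(k-1)` because `log r ≤ log 2R`. So the sum is `≤ 1`.
For the number of blocks: `(Nat.log 2 Y + 1)^3 ≤ (2 l + 1)^3 ≤ l^4` for large `Y`.
-/

set_option autoImplicit false

open Finset

namespace Pool.Agent.Lib.G5

open Pool.Agent.Lib.G3 (pr lp)

private theorem q0_one {ι : Type} [DecidableEq ι] (A : Finset ι) (f : ι → ℝ) (c : ℝ) (hc : 0 ≤ c) (h1 : ∀ x ∈ A, f x ≤ c)
    (h2 : ∀ x ∈ A, ∀ y ∈ A, f x ≠ 0 → f y ≠ 0 → x = y) : ∑ x ∈ A, f x ≤ c := by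
  by_cases h : ∃ x ∈ A, f x ≠ 0
  · obtain ⟨x, hx, hfx⟩ := h
    rw [Finset.sum_eq_single x]
    · exact h1 x hx
    · intro y hy hyx
      by_contra hfy
      exact hyx (h2 y hy x hx hfy hfx)
    · intro h
      exact absurd hx h
  · push Not at h
    rw [Finset.sum_eq_zero h]
    exact hc

private theorem q0_as (k w w' : ℕ) (hk : 2 ≤ k) (m : ℕ) : 0 ≤ aS k w w' m ∧ aS k w w' m ≤ 1 / ((k : ℝ) - 1) := by
  have hk' : (0 : ℝ) < (k : ℝ) - 1 := by
    have : (2 : ℝ) ≤ k := by exact_mod_cast hk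
    linarith
  unfold aS
  split_ifs
  · exact ⟨by positivity, le_rfl⟩
  · exact ⟨le_rfl, by positivity⟩

private theorem q0_bound (k w w' : ℕ) (hk : 2 ≤ k) (S : Finset ℕ) (hS : ∀ p ∈ S, p.Prime ∧ p ≤ w') (R M : ℕ) (hR1 : 1 ≤ R)
    (hR : w' ≤ R) (n : ℕ) : |bS S (aS k w w') R M n| ≤ 1 := by
  classical
  have hk' : (0 : ℝ) < (k : ℝ) - 1 := by
    have : (2 : ℝ) ≤ k := by exact_mod_cast hk
    linarith
  have hlogR : 0 < Real.log ((2 * R : ℕ) : ℝ) := Real.log_pos (by exact_mod_cast (by omega : 1 < 2 * R))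
  have hr : ∀ r ∈ pr R, r.Prime ∧ R < r ∧ 0 ≤ lp r / Real.log ((2 * R : ℕ) : ℝ) ∧ lp r / Real.log ((2 * R : ℕ) : ℝ) ≤ 1 := by
    intro r hr
    unfold pr at hr
    rw [mem_filter, mem_Ioc] at hr
    obtain ⟨⟨hr1, hr2⟩, hrp⟩ := hr
    have e : lp r = Real.log r := by
      unfold Pool.Agent.Lib.G3.lp
      rw [if_pos hrp]
    have hr0 : (0 : ℝ) < r := by exact_mod_cast hrp.pos
    refine ⟨hrp, hr1, ?_, ?_⟩
    · rw [e]
      exact div_nonneg (Real.log_nonneg (by exact_mod_cast hrp.one_lt.le)) hlogR.le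
    · rw [e, div_le_one hlogR]
      exact Real.log_le_log hr0 (by exact_mod_cast hr2)
  set t : ℕ → ℕ → ℕ → ℝ := fun p r m =>
    if p * m * r = n then aS k w w' m * (lp r / Real.log ((2 * R : ℕ) : ℝ)) else 0 with ht
  have ht0 : ∀ p, ∀ r ∈ pr R, ∀ m, 0 ≤ t p r m := by
    intro p r hr' m
    simp only [ht]
    split_ifs
    · exact mul_nonneg (q0_as k w w' hk m).1 (hr r hr').2.2.1
    · exact le_rfl
  have ht1 : ∀ p, ∀ r ∈ pr R, ∀ m, t p r m ≤ 1 / ((k : ℝ) - 1) := by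
    intro p r hr' m
    simp only [ht]
    split_ifs
    · calc aS k w w' m * (lp r / Real.log ((2 * R : ℕ) : ℝ)) ≤ aS k w w' m * 1 :=
            mul_le_mul_of_nonneg_left (hr r hr').2.2.2 (q0_as k w w' hk m).1
        _ ≤ 1 / ((k : ℝ) - 1) := by rw [mul_one]; exact (q0_as k w w' hk m).2
    · positivity
  have htn : ∀ p r m, t p r m ≠ 0 → p * m * r = n ∧
      (Squarefree m ∧ m.primeFactors.card = k - 2 ∧ m.primeFactors ⊆ PP w w') := by
    intro p r m h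
    simp only [ht] at h
    have h1 : p * m * r = n := by
      by_contra hcon
      rw [if_neg hcon] at h
      exact h rfl
    rw [if_pos h1] at h
    have h2 : aS k w w' m ≠ 0 := left_ne_zero_of_mul h
    refine ⟨h1, ?_⟩
    by_contra hcon
    unfold aS at h2
    rw [if_neg hcon] at h2
    exact h2 rfl
  have hb : bS S (aS k w w') R M n = ∑ p ∈ S, ∑ r ∈ pr R, ∑ m ∈ Ico M (2 * M), t p r m := rfl
  have hb0 : 0 ≤ bS S (aS k w w') R M n := by
    rw [hb]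
    exact Finset.sum_nonneg fun p _ => Finset.sum_nonneg fun r hr' => Finset.sum_nonneg fun m _ => ht0 p r hr' m
  rw [abs_of_nonneg hb0, hb]
  by_cases hT : ∃ p0 ∈ S, ∃ r0 ∈ pr R, ∃ m0, t p0 r0 m0 ≠ 0
  · obtain ⟨p0, hp0, r0, hr0, m0, h0⟩ := hT
    obtain ⟨e0, hm0, hc0, hs0⟩ := htn p0 r0 m0 h0
    have hp0p := (hS p0 hp0).1
    have hr0p := (hr r0 hr0).1
    have hm0' : m0 ≠ 0 := hm0.ne_zero
    have hpm0 : p0 * m0 ≠ 0 := mul_ne_zero hp0p.ne_zero hm0'
    have hle : ∀ q : ℕ, q.Prime → q ∣ p0 * m0 → q ≤ w' := by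
      intro q hq hd
      rcases (Nat.Prime.dvd_mul hq).1 hd with h | h
      · rw [(Nat.prime_dvd_prime_iff_eq hq hp0p).1 h]
        exact (hS p0 hp0).2
      · have h1 := hs0 (Nat.mem_primeFactors.2 ⟨hq, h, hm0'⟩)
        unfold PP at h1
        rw [mem_filter, mem_Ioc] at h1
        exact h1.1.2
    have key : ∀ p ∈ S, ∀ r ∈ pr R, ∀ m, t p r m ≠ 0 → r = r0 ∧ p * m = p0 * m0 := by
      intro p hp r hr' m h
      obtain ⟨e1, -⟩ := htn p r m h
      obtain ⟨hrp, hrR, -⟩ := hr r hr'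
      have hd : r ∣ p0 * m0 * r0 := by
        rw [e0, ← e1]
        exact dvd_mul_left r _
      have h1 : r = r0 := by
        rcases (Nat.Prime.dvd_mul hrp).1 hd with h2 | h2
        · have := hle r hrp h2
          omega
        · exact (Nat.prime_dvd_prime_iff_eq hrp hr0p).1 h2
      refine ⟨h1, ?_⟩
      rw [h1] at e1
      exact Nat.eq_of_mul_eq_mul_right hr0p.pos (e1.trans e0.symm)
    have hF : ((p0 * m0).primeFactors.card : ℝ) ≤ (k : ℝ) - 1 := by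
      have h1 : (p0 * m0).primeFactors.card ≤ k - 1 := by
        rw [Nat.primeFactors_mul hp0p.ne_zero hm0', hp0p.primeFactors]
        refine (card_union_le _ _).trans ?_
        rw [card_singleton, hc0]
        omega
      have h2 : ((p0 * m0).primeFactors.card : ℝ) ≤ ((k - 1 : ℕ) : ℝ) := by exact_mod_cast h1
      rwa [Nat.cast_sub (by omega), Nat.cast_one] at h2
    have hin : ∀ p ∈ S, ∑ r ∈ pr R, ∑ m ∈ Ico M (2 * M), t p r m ≤
        if p ∈ (p0 * m0).primeFactors then 1 / ((k : ℝ) - 1) else 0 := by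
      intro p hp
      split_ifs with hpF
      · rw [← Finset.sum_product']
        refine q0_one _ _ _ (by positivity) ?_ ?_
        · rintro ⟨r, m⟩ hx
          exact ht1 p r (mem_product.1 hx).1 m
        · rintro ⟨r, m⟩ hx ⟨r', m'⟩ hx' h1 h2
          obtain ⟨a1, a2⟩ := key p hp r (mem_product.1 hx).1 m h1
          obtain ⟨b1, b2⟩ := key p hp r' (mem_product.1 hx').1 m' h2
          have h3 : m = m' := Nat.eq_of_mul_eq_mul_left (hS p hp).1.pos (a2.trans b2.symm)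
          rw [a1, b1, h3]
      · refine le_of_eq (Finset.sum_eq_zero fun r hr' => Finset.sum_eq_zero fun m _ => ?_)
        by_contra h
        obtain ⟨-, h2⟩ := key p hp r hr' m h
        exact hpF (Nat.mem_primeFactors.2 ⟨(hS p hp).1, h2 ▸ dvd_mul_right p m, hpm0⟩)
    calc ∑ p ∈ S, ∑ r ∈ pr R, ∑ m ∈ Ico M (2 * M), t p r m
        ≤ ∑ p ∈ S, (if p ∈ (p0 * m0).primeFactors then 1 / ((k : ℝ) - 1) else 0) := Finset.sum_le_sum hin
      _ = ∑ p ∈ S.filter (fun p => p ∈ (p0 * m0).primeFactors), 1 / ((k : ℝ) - 1) := by rw [← Finset.sum_filter]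
      _ ≤ ∑ p ∈ (p0 * m0).primeFactors, 1 / ((k : ℝ) - 1) := by
          refine Finset.sum_le_sum_of_subset_of_nonneg ?_ fun _ _ _ => by positivity
          intro p hp
          exact (mem_filter.1 hp).2
      _ = (p0 * m0).primeFactors.card * (1 / ((k : ℝ) - 1)) := by rw [Finset.sum_const, nsmul_eq_mul]
      _ ≤ ((k : ℝ) - 1) * (1 / ((k : ℝ) - 1)) := mul_le_mul_of_nonneg_right hF (by positivity)
      _ = 1 := by field_simp
  · push Not at hT
    rw [Finset.sum_eq_zero fun p hp => Finset.sum_eq_zero fun r hr' => Finset.sum_eq_zero fun m _ => hT p hp r hr' m]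
    norm_num

theorem q0 (k e c1 d : ℕ) (hk : 2 ≤ k) : ∃ x0 : ℝ, ∀ Y : ℕ, x0 ≤ Y → ∀ w w' : ℕ, Rg Y w w' c1 d →
    (∀ b ∈ Ix Y e k w w', BlkS Y (2 ^ b.1) (2 ^ b.2.2) (2 ^ b.2.1) (SI w w' b.1) (aS k w w') e c1 d (d * (k - 2) + 1)) ∧
      ((Ix Y e k w w').card : ℝ) ≤ (Real.log Y) ^ 4 := by
  classical
  have hev : ∀ᶠ x : ℝ in Filter.atTop, (Real.log x) ^ (e + (d + (d * (k - 2) + d))) ≤ x := by
    have h1 := (Real.isLittleO_pow_log_id_atTop (n := e + (d + (d * (k - 2) + d)))).def (c := 1) one_pos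
    filter_upwards [h1, Filter.eventually_ge_atTop (1 : ℝ)] with x hx hx1
    have hl : 0 ≤ Real.log x := Real.log_nonneg hx1
    simp only [id, Real.norm_eq_abs, one_mul] at hx
    rwa [abs_of_nonneg (by positivity), abs_of_nonneg (by linarith)] at hx
  obtain ⟨x1, hx1⟩ := Filter.eventually_atTop.1 hev
  refine ⟨max x1 (Real.exp 27), ?_⟩
  intro Y hY w w' hRg
  have hY1 : (Real.log Y) ^ (e + (d + (d * (k - 2) + d))) ≤ Y := hx1 Y ((le_max_left _ _).trans hY)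
  have hY2 : Real.exp 27 ≤ Y := (le_max_right _ _).trans hY
  have hY0 : (0 : ℝ) < Y := lt_of_lt_of_le (Real.exp_pos _) hY2
  set l := Real.log Y with hl
  have hl27 : 27 ≤ l := by
    rw [hl, Real.le_log_iff_exp_le hY0]
    exact hY2
  have hl1 : 1 ≤ l := by linarith
  have hl0 : 0 < l := by linarith
  obtain ⟨g1, g2, g3⟩ := hRg
  rw [← hl] at g1 g3
  have hw1 : l ^ c1 ≤ w := (pow_le_pow_right₀ hl1 (Nat.le_succ c1)).trans g1
  have hlc : 0 < l ^ c1 := by positivity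
  constructor
  · rintro ⟨i, j, g⟩ hb
    unfold Ix at hb
    rw [mem_filter] at hb
    obtain ⟨-, ⟨p, hp⟩, hj, hb1, hb2⟩ := hb
    simp only at hp hj hb1 hb2 ⊢
    have hSI : ∀ q ∈ SI w w' i, q.Prime ∧ w < q ∧ q ≤ w' ∧ 2 ^ i < q ∧ q ≤ 2 ^ (i + 1) := by
      intro q hq
      unfold SI PP at hq
      rw [mem_filter, mem_filter, mem_Ioc] at hq
      exact ⟨hq.1.2, hq.1.1.1, hq.1.1.2, hq.2.1, hq.2.2⟩
    obtain ⟨hpp, hp1, hp2, hp3, hp4⟩ := hSI p hp
    have hPl : ((2 ^ i : ℕ) : ℝ) ≤ l ^ d := by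
      have h1 : ((2 ^ i : ℕ) : ℝ) ≤ (w' : ℝ) := by exact_mod_cast (hp3.le.trans hp2)
      exact h1.trans g3
    have hMl : ((2 ^ j : ℕ) : ℝ) ≤ l ^ (d * (k - 2)) := by
      have h1 : ((2 ^ j : ℕ) : ℝ) ≤ ((w' ^ (k - 2) : ℕ) : ℝ) := by exact_mod_cast hj
      refine h1.trans ?_
      rw [Nat.cast_pow, pow_mul]
      exact pow_le_pow_left₀ (Nat.cast_nonneg _) g3 _
    have hRw : w' ≤ 2 ^ g := by
      have h1 : l ^ d * (l ^ e * (l ^ d * l ^ (d * (k - 2)))) ≤ Y := by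
        refine le_trans (le_of_eq ?_) hY1
        rw [← pow_add, ← pow_add, ← pow_add]
        congr 1
        ring
      have h2 : (Y : ℝ) ≤ (l ^ e * (l ^ d * l ^ (d * (k - 2)))) * ((2 ^ g : ℕ) : ℝ) := by
        rw [div_le_iff₀ (by positivity)] at hb1
        refine hb1.trans ?_
        rw [Nat.cast_mul, Nat.cast_mul]
        have h3 : ((2 ^ i : ℕ) : ℝ) * ((2 ^ j : ℕ) : ℝ) ≤ l ^ d * l ^ (d * (k - 2)) :=
          mul_le_mul hPl hMl (Nat.cast_nonneg _) (by positivity)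
        calc ((2 ^ i : ℕ) : ℝ) * ((2 ^ j : ℕ) : ℝ) * ((2 ^ g : ℕ) : ℝ) * l ^ e
            = (((2 ^ i : ℕ) : ℝ) * ((2 ^ j : ℕ) : ℝ)) * (((2 ^ g : ℕ) : ℝ) * l ^ e) := by ring
          _ ≤ (l ^ d * l ^ (d * (k - 2))) * (((2 ^ g : ℕ) : ℝ) * l ^ e) :=
              mul_le_mul_of_nonneg_right h3 (by positivity)
          _ = _ := by ring
      have h4 : l ^ d ≤ ((2 ^ g : ℕ) : ℝ) := by
        have h5 : 0 < l ^ e * (l ^ d * l ^ (d * (k - 2))) := by positivity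
        refine le_of_mul_le_mul_right ?_ h5
        calc l ^ d * (l ^ e * (l ^ d * l ^ (d * (k - 2)))) ≤ Y := h1
          _ ≤ (l ^ e * (l ^ d * l ^ (d * (k - 2)))) * ((2 ^ g : ℕ) : ℝ) := h2
          _ = _ := by ring
      exact_mod_cast g3.trans h4
    refine ⟨?_, ?_, Nat.one_le_two_pow, ?_, hb1, hb2, ?_, ?_, ?_, ?_⟩
    · have h1 : (w : ℝ) ≤ ((2 ^ (i + 1) : ℕ) : ℝ) := by exact_mod_cast (hp1.le.trans hp4)
      have h2 : ((2 ^ (i + 1) : ℕ) : ℝ) = 2 * ((2 ^ i : ℕ) : ℝ) := by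
        push_cast
        ring
      rw [div_le_iff₀ (by norm_num)]
      linarith
    · have h1 : 0 ≤ l ^ d := by positivity
      linarith
    · exact hMl.trans (pow_le_pow_right₀ hl1 (Nat.le_succ _))
    · intro q hq
      obtain ⟨q1, q2, q3, q4, q5⟩ := hSI q hq
      unfold pr
      rw [mem_filter, mem_Ioc]
      refine ⟨⟨q4, ?_⟩, q1⟩
      rw [pow_succ] at q5
      omega
    · intro m
      obtain ⟨h1, h2⟩ := q0_as k w w' hk m
      rw [abs_of_nonneg h1]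
      refine h2.trans ?_
      have : (2 : ℝ) ≤ k := by exact_mod_cast hk
      rw [div_le_one (by linarith)]
      linarith
    · intro m hm q hq hqm
      have h1 : Squarefree m ∧ m.primeFactors.card = k - 2 ∧ m.primeFactors ⊆ PP w w' := by
        by_contra hcon
        unfold aS at hm
        rw [if_neg hcon] at hm
        exact hm rfl
      have h2 := h1.2.2 (Nat.mem_primeFactors.2 ⟨hq, hqm, h1.1.ne_zero⟩)
      unfold PP at h2
      rw [mem_filter, mem_Ioc] at h2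
      have h3 : (w : ℝ) < q := by exact_mod_cast h2.1.1
      linarith
    · exact fun n => q0_bound k w w' hk _ (fun q hq => ⟨(hSI q hq).1, (hSI q hq).2.2.1⟩) _ _ Nat.one_le_two_pow hRw n
  · have h1 : (Ix Y e k w w').card ≤ (Nat.log 2 Y + 1) * ((Nat.log 2 Y + 1) * (Nat.log 2 Y + 1)) := by
      unfold Ix
      refine (card_filter_le _ _).trans ?_
      rw [card_product, card_product, card_range]
    have h2 : ((Nat.log 2 Y : ℕ) : ℝ) ≤ 2 * l := by
      have hYn : Y ≠ 0 := by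
        rintro rfl
        simp at hY0
      have h3 : ((2 ^ Nat.log 2 Y : ℕ) : ℝ) ≤ Y := by exact_mod_cast Nat.pow_log_le_self 2 hYn
      have h4 := Real.log_le_log (by positivity) h3
      rw [Nat.cast_pow, Real.log_pow, ← hl] at h4
      have h5 := Real.log_two_gt_d9
      have h6 : (0 : ℝ) ≤ Nat.log 2 Y := Nat.cast_nonneg _
      have h7 : ((Nat.log 2 Y : ℕ) : ℝ) * (1 / 2) ≤ (Nat.log 2 Y : ℕ) * Real.log ((2 : ℕ) : ℝ) := by
        refine mul_le_mul_of_nonneg_left ?_ h6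
        push_cast
        linarith
      have h8 := h7.trans h4
      linarith
    have h3 : ((Ix Y e k w w').card : ℝ) ≤
        ((Nat.log 2 Y : ℕ) + 1) * (((Nat.log 2 Y : ℕ) + 1) * ((Nat.log 2 Y : ℕ) + 1)) := by exact_mod_cast h1
    have h4 : ((Nat.log 2 Y : ℕ) : ℝ) + 1 ≤ 3 * l := by linarith
    have h5 : (0 : ℝ) ≤ ((Nat.log 2 Y : ℕ) : ℝ) + 1 := by positivity
    calc ((Ix Y e k w w').card : ℝ)
        ≤ ((Nat.log 2 Y : ℕ) + 1) * (((Nat.log 2 Y : ℕ) + 1) * ((Nat.log 2 Y : ℕ) + 1)) := h3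
      _ = (((Nat.log 2 Y : ℕ) : ℝ) + 1) ^ 3 := by ring
      _ ≤ (3 * l) ^ 3 := pow_le_pow_left₀ h5 h4 3
      _ = 27 * l ^ 3 := by ring
      _ ≤ l * l ^ 3 := mul_le_mul_of_nonneg_right hl27 (by positivity)
      _ = l ^ 4 := by ring

end Pool.Agent.Lib.G5
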