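import Pool.Agent.Lib.G5.QIx
import Pool.Agent.Lib.Sieve.Mertens3

/-!
# G5, row Q1: Mertens: the sum of `1/p` over `(log X)^c < p ≤ (log X)^d` tends to `log (d/c)`

PROOF IN WORDS. `Sieve.Mertens3.mertens_three`: `log z ∏_{p ≤ z} (1 - 1/p) → e^(-γ)`. With `w = ⌊(log X)^c⌋ → ∞`, `w' = ⌊(log X)^d⌋ → ∞` (compose the
tendsto with the floors): the quotient `∏_{w < p ≤ w'} (1 - 1/p) · (log w' / log w) → 1`. And `log w' / log w → d/c`
(`log ⌊y⌋ = log y + O(1/y)`, `log (log X)^c = c loglog X`). So `- ∑_{w < p ≤ w'} log (1 - 1/p) → log (d/c)` (continuity of log at `c/d > 0`).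
Finally `0 ≤ -log(1-1/p) - 1/p ≤ 2/p^2` for `p ≥ 2`, and `∑_{p > w} 2/p^2 ≤ 4/w → 0` (`sum_Ioo_inv_sq_le`).
-/

set_option autoImplicit false

open Finset

namespace Pool.Agent.Lib.G5

open Filter Topology

private lemma Q1floor (f : ℕ → ℝ) (hf : Tendsto f atTop atTop) :
    Tendsto (fun X => Real.log (⌊f X⌋₊ : ℝ) - Real.log (f X)) atTop (𝓝 0) := by
  have h1 : Tendsto (fun X => (⌊f X⌋₊ : ℝ) / f X) atTop (𝓝 1) :=
    (tendsto_nat_floor_div_atTop (R := ℝ)).comp hf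
  have h2 : Tendsto (fun X => Real.log ((⌊f X⌋₊ : ℝ) / f X)) atTop (𝓝 (Real.log 1)) :=
    (Real.continuousAt_log one_ne_zero).tendsto.comp h1
  rw [Real.log_one] at h2
  refine h2.congr' ?_
  filter_upwards [hf.eventually_ge_atTop 1] with X hX
  have h3 : 1 ≤ ⌊f X⌋₊ := Nat.le_floor (by rw [Nat.cast_one]; exact hX)
  have h4 : ((⌊f X⌋₊ : ℕ) : ℝ) ≠ 0 := by
    have h5 : (1 : ℝ) ≤ ((⌊f X⌋₊ : ℕ) : ℝ) := by exact_mod_cast h3
    linarith
  rw [Real.log_div h4 (by linarith)]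

private lemma Q1lim (e : ℝ) (he : 0 < e) :
    Tendsto (fun X : ℕ => (Real.log X) ^ e) atTop atTop :=
  (tendsto_rpow_atTop he).comp (Real.tendsto_log_atTop.comp tendsto_natCast_atTop_atTop)

private lemma Q1ll : Tendsto (fun X : ℕ => Real.log (Real.log X)) atTop atTop :=
  Real.tendsto_log_atTop.comp (Real.tendsto_log_atTop.comp tendsto_natCast_atTop_atTop)

private lemma Q1ratio (e : ℝ) (he : 0 < e) :
    Tendsto (fun X : ℕ => Real.log (⌊(Real.log X) ^ e⌋₊ : ℝ) / Real.log (Real.log X)) atTop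
      (𝓝 e) := by
  have h1 := (Q1floor _ (Q1lim e he)).div_atTop Q1ll
  have h2 := h1.add_const e
  rw [zero_add] at h2
  refine h2.congr' ?_
  filter_upwards [Q1ll.eventually_gt_atTop 0,
    (Real.tendsto_log_atTop.comp tendsto_natCast_atTop_atTop :
      Tendsto (fun X : ℕ => Real.log (X : ℝ)) atTop atTop).eventually_gt_atTop 0] with X hX hX2
  have hX3 : 0 < Real.log (X : ℝ) := hX2
  rw [Real.log_rpow hX3]
  field_simp
  ring

private lemma Q1fl (e : ℝ) (he : 0 < e) :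
    Tendsto (fun X : ℕ => ⌊(Real.log X) ^ e⌋₊) atTop atTop :=
  tendsto_nat_floor_atTop.comp (Q1lim e he)

private noncomputable def Q1V (z : ℕ) : ℝ :=
  ∏ p ∈ (range (z + 1)).filter Nat.Prime, (1 - 1 / (p : ℝ))

private lemma Q1fac {p : ℕ} (hp : p.Prime) : 0 < 1 - 1 / (p : ℝ) := by
  have h2 : (1 : ℝ) / p ≤ 1 / 2 := by
    apply one_div_le_one_div_of_le (by norm_num)
    exact_mod_cast hp.two_le
  linarith

private lemma Q1Vpos (z : ℕ) : 0 < Q1V z :=
  Finset.prod_pos fun _ hp => Q1fac (Finset.mem_filter.mp hp).2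

private lemma Q1split {w w' : ℕ} (h : w ≤ w') :
    Q1V w' = Q1V w * ∏ p ∈ PP w w', (1 - 1 / (p : ℝ)) := by
  unfold Q1V PP
  rw [← Finset.prod_union]
  · apply Finset.prod_congr _ (fun _ _ => rfl)
    ext p
    simp only [Finset.mem_filter, Finset.mem_union, Finset.mem_range, Finset.mem_Ioc]
    constructor
    · rintro ⟨h1, h2⟩
      rcases Nat.lt_or_ge p (w + 1) with h3 | h3
      · exact Or.inl ⟨h3, h2⟩
      · exact Or.inr ⟨⟨by omega, by omega⟩, h2⟩
    · rintro (⟨h1, h2⟩ | ⟨⟨h1, h3⟩, h2⟩)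
      · exact ⟨by omega, h2⟩
      · exact ⟨by omega, h2⟩
  · rw [Finset.disjoint_left]
    intro p hp hp2
    rw [Finset.mem_filter, Finset.mem_range] at hp
    rw [Finset.mem_filter, Finset.mem_Ioc] at hp2
    omega

private lemma Q1G : Tendsto (fun z : ℕ => Real.log (Real.log z * Q1V z)) atTop
    (𝓝 (Real.log (Real.exp (-Real.eulerMascheroniConstant)))) :=
  (Real.continuousAt_log (Real.exp_pos _).ne').tendsto.comp Sieve.Mertens3.mertens_three

private lemma Q1elem {p : ℕ} (hp : p.Prime) :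
    |(1 : ℝ) / p + Real.log (1 - 1 / (p : ℝ))| ≤ 2 * ((p : ℝ) ^ 2)⁻¹ := by
  have hp2 : (2 : ℝ) ≤ p := by exact_mod_cast hp.two_le
  have ht : (1 : ℝ) / p ≤ 1 / 2 := one_div_le_one_div_of_le (by norm_num) hp2
  have ht0 : 0 < (1 : ℝ) / p := by positivity
  have h2 : ((p : ℝ) ^ 2)⁻¹ = (1 / (p : ℝ)) ^ 2 := by
    rw [one_div, inv_pow]
  rw [h2]
  set t := (1 : ℝ) / p with htdef
  have h1t : 0 < 1 - t := by linarith
  have h3 : Real.log (1 - t) ≤ -t := by
    have := Real.log_le_sub_one_of_pos h1t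
    linarith
  have h4 : -Real.log (1 - t) ≤ t + 2 * t ^ 2 := by
    rw [← Real.log_inv]
    have h5 := Real.log_le_sub_one_of_pos (inv_pos.mpr h1t)
    have h6 : (1 - t)⁻¹ ≤ 1 + t + 2 * t ^ 2 := by
      rw [inv_le_comm₀ h1t (by positivity), inv_le_iff_one_le_mul₀ (by positivity)]
      nlinarith [mul_pos ht0 ht0]
    linarith
  rw [abs_le]
  constructor
  · linarith
  · have : 0 ≤ t ^ 2 := by positivity
    linarith

theorem q1 (c d : ℝ) (hc : 0 < c) (hcd : c ≤ d) :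
    Filter.Tendsto (fun X : ℕ => sg1 ⌊(Real.log X) ^ c⌋₊ ⌊(Real.log X) ^ d⌋₊) Filter.atTop (nhds (Real.log (d / c))) := by
  have hd : 0 < d := lt_of_lt_of_le hc hcd
  set w : ℕ → ℕ := fun X => ⌊(Real.log X) ^ c⌋₊ with hw
  set w' : ℕ → ℕ := fun X => ⌊(Real.log X) ^ d⌋₊ with hw'
  have hwt : Tendsto w atTop atTop := Q1fl c hc
  have hwt' : Tendsto w' atTop atTop := Q1fl d hd
  have hww : ∀ᶠ X : ℕ in atTop, w X ≤ w' X := by
    filter_upwards [(Real.tendsto_log_atTop.comp tendsto_natCast_atTop_atTop :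
      Tendsto (fun X : ℕ => Real.log (X : ℝ)) atTop atTop).eventually_ge_atTop 1] with X hX
    exact Nat.floor_le_floor (Real.rpow_le_rpow_of_exponent_le hX hcd)
  have hR : Tendsto (fun X : ℕ => Real.log (w' X : ℝ) / Real.log (w X : ℝ)) atTop
      (𝓝 (d / c)) := by
    have h1 := (Q1ratio d hd).div (Q1ratio c hc) hc.ne'
    refine h1.congr' ?_
    filter_upwards [Q1ll.eventually_gt_atTop 0] with X hX
    simp only [Pi.div_apply]
    rw [div_div_div_cancel_right₀ hX.ne']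
  have hR2 : Tendsto (fun X : ℕ => Real.log (Real.log (w' X : ℝ) / Real.log (w X : ℝ))) atTop
      (𝓝 (Real.log (d / c))) :=
    (Real.continuousAt_log (div_pos hd hc).ne').tendsto.comp hR
  have hlp : ∀ X, Real.log (∏ p ∈ PP (w X) (w' X), (1 - 1 / (p : ℝ))) =
      ∑ p ∈ PP (w X) (w' X), Real.log (1 - 1 / (p : ℝ)) := fun X =>
    Real.log_prod (fun p hp => (Q1fac (Finset.mem_filter.mp hp).2).ne')
  have hG : Tendsto (fun X : ℕ => Real.log (Real.log (w' X) * Q1V (w' X)) -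
      Real.log (Real.log (w X) * Q1V (w X))) atTop (𝓝 0) := by
    have h1 := (Q1G.comp hwt').sub (Q1G.comp hwt)
    rw [sub_self] at h1
    exact h1
  have hT : Tendsto (fun X : ℕ => -∑ p ∈ PP (w X) (w' X), Real.log (1 - 1 / (p : ℝ))) atTop
      (𝓝 (Real.log (d / c))) := by
    have h1 := hR2.sub hG
    rw [sub_zero] at h1
    refine h1.congr' ?_
    filter_upwards [hww, hwt.eventually_ge_atTop 2, hwt'.eventually_ge_atTop 2] with X h2 h3 h4
    have h5 : 0 < Real.log (w X : ℝ) := Real.log_pos (by exact_mod_cast h3)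
    have h6 : 0 < Real.log (w' X : ℝ) := Real.log_pos (by exact_mod_cast h4)
    have h7 : 0 < ∏ p ∈ PP (w X) (w' X), (1 - 1 / (p : ℝ)) :=
      Finset.prod_pos fun _ hp => Q1fac (Finset.mem_filter.mp hp).2
    rw [Real.log_div h6.ne' h5.ne', Real.log_mul h6.ne' (Q1Vpos _).ne',
      Real.log_mul h5.ne' (Q1Vpos _).ne', Q1split h2, Real.log_mul (Q1Vpos _).ne' h7.ne', hlp]
    ring
  have hE : Tendsto (fun X : ℕ => sg1 (w X) (w' X) -
      -∑ p ∈ PP (w X) (w' X), Real.log (1 - 1 / (p : ℝ))) atTop (𝓝 0) := by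
    have h0 : Tendsto (fun X : ℕ => 4 / ((w X : ℝ) + 1)) atTop (𝓝 0) := by
      apply Tendsto.div_atTop tendsto_const_nhds
      apply Filter.tendsto_atTop_add_const_right
      exact tendsto_natCast_atTop_atTop.comp hwt
    apply squeeze_zero_norm _ h0
    intro X
    rw [Real.norm_eq_abs, sub_neg_eq_add]
    unfold sg1
    rw [← Finset.sum_add_distrib]
    refine le_trans (Finset.abs_sum_le_sum_abs _ _) ?_
    refine le_trans (Finset.sum_le_sum (fun p hp => Q1elem (Finset.mem_filter.mp hp).2)) ?_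
    rw [← Finset.mul_sum]
    have h1 : ∑ p ∈ PP (w X) (w' X), ((p : ℝ) ^ 2)⁻¹ ≤
        ∑ p ∈ Ioo (w X) (w' X + 1), ((p : ℝ) ^ 2)⁻¹ := by
      apply Finset.sum_le_sum_of_subset_of_nonneg
      · intro p hp
        unfold PP at hp
        rw [Finset.mem_filter, Finset.mem_Ioc] at hp
        rw [Finset.mem_Ioo]
        omega
      · intro p _ _
        positivity
    have h2 := sum_Ioo_inv_sq_le (α := ℝ) (w X) (w' X + 1)
    have h3 : (4 : ℝ) / ((w X : ℝ) + 1) = 2 * (2 / ((w X : ℝ) + 1)) := by ring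
    rw [h3]
    exact mul_le_mul_of_nonneg_left (h1.trans h2) (by norm_num)
  have h1 := hE.add hT
  rw [zero_add] at h1
  refine h1.congr ?_
  intro X
  ring

end Pool.Agent.Lib.G5
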