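import Pool.Agent.Lib.G5.QIx

/-!
# G5, row Q2: elementary symmetric sums

PROOF IN WORDS. `(j+1) e_(j+1) = ∑_{s, |s| = j} ∏_{q ∈ s} 1/q · ∑_{p ∉ s} 1/p` (count the pairs (set of `j+1` primes, element of it); in Lean e.g. with
`Finset.sum_bij'` / `Finset.powersetCard` and `insert`, `erase`, or Mathlib's `Finset.sum_powersetCard...`, or via `Multiset.esymm`/Newton), and
`∑_{p ∉ s} 1/p = σ - ∑_{p ∈ s} 1/p` with `0 ≤ ∑_{p ∈ s} 1/p ≤ j/w` as all `p > w`. So `0 ≤ σ e_j - (j+1) e_(j+1) ≤ (j/w) e_j`.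
q2 (limit): induction on `j` with row Q1's conclusion as hypothesis `h`: `e_0 = 1`, `e_(j+1) → L L^j/j!/(j+1)`, since `w → ∞` (hypothesis `hw`).
-/

set_option autoImplicit false

open Finset

namespace Pool.Agent.Lib.G5

/-- `(j+1) e_(j+1) = sum over the sets of size j of the product times the sum over the rest` -/
private theorem q2_succ (P : Finset ℕ) (f : ℕ → ℝ) (j : ℕ) :
    ((j : ℝ) + 1) * ∑ t ∈ P.powersetCard (j + 1), ∏ p ∈ t, f p =
      ∑ s ∈ P.powersetCard j, (∏ p ∈ s, f p) * ∑ p ∈ P \ s, f p := by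
  have h1 : ((j : ℝ) + 1) * ∑ t ∈ P.powersetCard (j + 1), ∏ p ∈ t, f p =
      ∑ t ∈ P.powersetCard (j + 1), ∑ _p ∈ t, ∏ q ∈ t, f q := by
    rw [mul_sum]
    refine sum_congr rfl fun t ht => ?_
    rw [sum_const, (mem_powersetCard.1 ht).2, nsmul_eq_mul]
    push_cast
    ring
  have h2 : ∑ s ∈ P.powersetCard j, (∏ p ∈ s, f p) * ∑ p ∈ P \ s, f p =
      ∑ s ∈ P.powersetCard j, ∑ p ∈ P \ s, (∏ q ∈ s, f q) * f p :=
    sum_congr rfl fun s _ => mul_sum _ _ _
  rw [h1, h2, sum_sigma', sum_sigma']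
  refine sum_bij' (fun x _ => ⟨x.1.erase x.2, x.2⟩) (fun x _ => ⟨insert x.2 x.1, x.2⟩) ?_ ?_ ?_ ?_ ?_
  · rintro ⟨t, p⟩ hx
    simp only [mem_sigma, mem_powersetCard, mem_sdiff] at hx ⊢
    obtain ⟨⟨ht, hc⟩, hp⟩ := hx
    refine ⟨⟨(erase_subset _ _).trans ht, ?_⟩, ht hp, notMem_erase _ _⟩
    rw [card_erase_of_mem hp, hc]
    rfl
  · rintro ⟨s, p⟩ hx
    simp only [mem_sigma, mem_powersetCard, mem_sdiff] at hx ⊢
    obtain ⟨⟨hs, hc⟩, hp, hps⟩ := hx
    refine ⟨⟨insert_subset hp hs, ?_⟩, mem_insert_self _ _⟩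
    rw [card_insert_of_notMem hps, hc]
  · rintro ⟨t, p⟩ hx
    simp only [mem_sigma] at hx
    simp only [Sigma.mk.injEq, heq_eq_eq, and_true]
    exact insert_erase hx.2
  · rintro ⟨s, p⟩ hx
    simp only [mem_sigma, mem_sdiff] at hx
    simp only [Sigma.mk.injEq, heq_eq_eq, and_true]
    exact erase_insert hx.2.2
  · rintro ⟨t, p⟩ hx
    simp only [mem_sigma] at hx
    exact (prod_erase_mul t f hx.2).symm

private theorem q2_diff (j w w' : ℕ) : sg1 w w' * esy j w w' - (j + 1) * esy (j + 1) w w' =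
    ∑ s ∈ (PP w w').powersetCard j, (∏ p ∈ s, (1 : ℝ) / p) * ∑ p ∈ s, (1 : ℝ) / p := by
  unfold sg1 esy
  rw [q2_succ (PP w w') (fun p => (1 : ℝ) / p) j, mul_sum, ← sum_sub_distrib]
  refine sum_congr rfl fun s hs => ?_
  have h := sum_sdiff (f := fun p : ℕ => (1 : ℝ) / p) (mem_powersetCard.1 hs).1
  rw [← h]
  ring

theorem q2a (j w w' : ℕ) (hw : 1 ≤ w) : 0 ≤ sg1 w w' * esy j w w' - (j + 1) * esy (j + 1) w w' ∧
    sg1 w w' * esy j w w' - (j + 1) * esy (j + 1) w w' ≤ (j : ℝ) / w * esy j w w' := by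
  have hw0 : (0 : ℝ) < w := by exact_mod_cast hw
  rw [q2_diff]
  have h0 : ∀ s : Finset ℕ, 0 ≤ ∏ p ∈ s, (1 : ℝ) / p := fun s => prod_nonneg fun p _ => by positivity
  refine ⟨sum_nonneg fun s _ => mul_nonneg (h0 s) (sum_nonneg fun p _ => by positivity), ?_⟩
  unfold esy
  rw [mul_sum]
  refine sum_le_sum fun s hs => ?_
  rw [mem_powersetCard] at hs
  rw [mul_comm]
  refine mul_le_mul_of_nonneg_right ?_ (h0 s)
  calc ∑ p ∈ s, (1 : ℝ) / p ≤ ∑ _p ∈ s, (1 : ℝ) / w := by
        refine sum_le_sum fun p hp => ?_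
        have h1 : w < p := by
          have := hs.1 hp
          unfold PP at this
          rw [mem_filter, mem_Ioc] at this
          exact this.1.1
        have h2 : (w : ℝ) ≤ p := by exact_mod_cast h1.le
        exact one_div_le_one_div_of_le hw0 h2
    _ = (j : ℝ) / w := by rw [sum_const, hs.2, nsmul_eq_mul, mul_one_div]

theorem q2 {w w' : ℕ → ℕ} {L : ℝ} (hw : Filter.Tendsto w Filter.atTop Filter.atTop)
    (h : Filter.Tendsto (fun X => sg1 (w X) (w' X)) Filter.atTop (nhds L)) (j : ℕ) :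
    Filter.Tendsto (fun X => esy j (w X) (w' X)) Filter.atTop (nhds (L ^ j / (Nat.factorial j : ℝ))) := by
  induction j with
  | zero =>
    have h1 : (fun X => esy 0 (w X) (w' X)) = fun _ => (1 : ℝ) := by
      funext X
      simp [esy]
    rw [h1]
    simp
  | succ j ih =>
    have hwR : Filter.Tendsto (fun X => (w X : ℝ)) Filter.atTop Filter.atTop :=
      tendsto_natCast_atTop_atTop.comp hw
    have hd : Filter.Tendsto (fun X => (j : ℝ) / (w X : ℝ) * esy j (w X) (w' X)) Filter.atTop (nhds 0) := by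
      have := (Filter.Tendsto.const_div_atTop hwR (j : ℝ)).mul ih
      simpa using this
    have he : ∀ᶠ X in Filter.atTop, 1 ≤ w X := hw.eventually_ge_atTop 1
    have hδ : Filter.Tendsto (fun X => sg1 (w X) (w' X) * esy j (w X) (w' X) - (j + 1) * esy (j + 1) (w X) (w' X))
        Filter.atTop (nhds 0) := by
      refine tendsto_of_tendsto_of_tendsto_of_le_of_le' tendsto_const_nhds hd ?_ ?_
      · filter_upwards [he] with X hX using (q2a j _ _ hX).1
      · filter_upwards [he] with X hX using (q2a j _ _ hX).2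
    have hj : ((j : ℝ) + 1) ≠ 0 := by positivity
    have hlim := ((h.mul ih).sub hδ).div_const ((j : ℝ) + 1)
    have h1 : (fun X => (sg1 (w X) (w' X) * esy j (w X) (w' X) - (sg1 (w X) (w' X) * esy j (w X) (w' X) -
        (j + 1) * esy (j + 1) (w X) (w' X))) / ((j : ℝ) + 1)) = fun X => esy (j + 1) (w X) (w' X) := by
      funext X
      field_simp
      ring
    have h2 : (L * (L ^ j / (Nat.factorial j : ℝ)) - 0) / ((j : ℝ) + 1) = L ^ (j + 1) / (Nat.factorial (j + 1) : ℝ) := by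
      rw [Nat.factorial_succ]
      push_cast
      have : (Nat.factorial j : ℝ) ≠ 0 := by positivity
      field_simp
      ring
    rw [h1, h2] at hlim
    exact hlim

end Pool.Agent.Lib.G5
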