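import Pool.Agent.Lib.G5.QIx

/-!
# G5, row Q8: the singular series is bounded below

PROOF IN WORDS. For even `N`: `SS N = 2 C2 ∏_{p ∣ N, p > 2} (p-1)/(p-2) ≥ 2 C2` (all factors `≥ 1`; the product over `N.primeFactors.filter (2 < ·)`) and
`C2 ≥ (∏_{p ≤ Q} tc p)(1 - 2/Q)` (`G3.ss_C2`) with `Q = 4`: `tc 3 = 3/4`, `tc p = 1` for `p = 0, 1, 2, 4`: `C2 ≥ 3/4 · 1/2 = 3/8`.
-/

set_option autoImplicit false

open Finset

namespace Pool.Agent.Lib.G5

private theorem q8_C2 : (3 : ℝ) / 8 ≤ Pool.Agent.Lib.G3.C2 := by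
  have h := (Pool.Agent.Lib.G3.ss_C2 (Q := 4) (by norm_num)).1
  have h0 : Pool.Agent.Lib.G3.tc 0 = 1 := by simp [Pool.Agent.Lib.G3.tc]
  have h1 : Pool.Agent.Lib.G3.tc 1 = 1 := by simp [Pool.Agent.Lib.G3.tc]
  have h2 : Pool.Agent.Lib.G3.tc 2 = 1 := by simp [Pool.Agent.Lib.G3.tc]
  have h3 : Pool.Agent.Lib.G3.tc 3 = 3 / 4 := by
    unfold Pool.Agent.Lib.G3.tc
    rw [if_pos ⟨by norm_num, by norm_num⟩]
    norm_num
  have h4 : Pool.Agent.Lib.G3.tc 4 = 1 := by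
    unfold Pool.Agent.Lib.G3.tc
    rw [if_neg (fun h => by revert h; norm_num)]
  rw [prod_range_succ, prod_range_succ, prod_range_succ, prod_range_succ, prod_range_succ, prod_range_zero, h0, h1, h2, h3, h4] at h
  norm_num at h
  linarith

theorem q8 (N : ℕ) (hN : Even N) : 1 / 2 ≤ Pool.Agent.Lib.G3.SS N := by
  unfold Pool.Agent.Lib.G3.SS
  rw [if_pos hN]
  have h1 : (1 : ℝ) ≤ ∏ p ∈ N.primeFactors.filter (fun p => 2 < p), ((p : ℝ) - 1) / ((p : ℝ) - 2) := by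
    refine Finset.prod_induction _ (fun x : ℝ => 1 ≤ x) (fun a b ha hb => by nlinarith) le_rfl fun p hp => ?_
    have hp2 : 2 < p := (mem_filter.mp hp).2
    have : (2 : ℝ) < p := by exact_mod_cast hp2
    rw [le_div_iff₀ (by linarith)]
    linarith
  have h2 := q8_C2
  nlinarith

end Pool.Agent.Lib.G5
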