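import Pool.Agent.Lib.G5.AsyS
import Pool.Agent.Lib.G5.Q0
import Pool.Agent.Lib.G5.Q3
import Pool.Agent.Lib.G5.Q5
import Pool.Agent.Lib.G5.Q8

/-!
# G5, row Q6: the asymptotic formula in a short window, main term with the sums over the primes of `(w, w']`

PROOF IN WORDS. `A1 = A + 8`, `e = 3`; `c10' = max c10 3` with `c10` of `asyS A1 3`; for `c1`, `d` take `C` of `asyS` with `cP = d`, `cM = d(k-2)+1`. Exceptional set `U` = union over the
blocks `b ∈ Ix Y 3 k w w'` of the sets of `asyS` (valid by q0): at most `l^4 · H/l^(A+8) ≤ H/l^A` numbers. For `N ∈ (Y, Y+H]` even, not in `U`: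
`|W - SS N · D| ≤ l^4 · Y/l^(A+8) ≤ Y/l^4` (`W = ∑ WB`, `D = ∑ DB`), `|D - σY/l| ≤ ε' σ Y/l` (q3), `|W - l T| ≤ ε'(|W| + Y/l)` (q5). With `SS N ≥ 1/2` (q8), `σ ≥ 0`:
`|W| ≤ SS (1+ε') σ Y/l + Y/l^4` and `|l T - SS σ Y/l| ≤ ε'(|W| + Y/l) + Y/l^4 + ε' SS σ Y/l ≤ 10 ε' SS (1 + σ) Y/l` for large `Y`, `ε' = min(ε,1)/10`. Divide by `l`.
-/

set_option autoImplicit false

open Finset

namespace Pool.Agent.Lib.G5

open Pool.Agent.Lib.G3 (SS)

theorem q6_num {W D T S s P l e ε : ℝ} (hP : 0 < P) (hS : 1 / 2 ≤ S) (he : 0 < e) (he1 : e ≤ 1)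
    (heε : 6 * e ≤ ε) (h1 : |W - S * D| ≤ e * P) (h2 : |D - P * s| ≤ e * (P * s))
    (h3 : |W - l * T| ≤ e * (|W| + P)) : |l * T - S * s * P| ≤ ε * (S * (1 + s) * P) := by
  obtain ⟨q, hq⟩ : ∃ q, q = P * s := ⟨_, rfl⟩
  rw [← hq] at h2
  have hq0 : 0 ≤ q := by
    have : 0 ≤ e * q := (abs_nonneg _).trans h2
    exact nonneg_of_mul_nonneg_right this he
  have hS0 : 0 ≤ S := by linarith
  have hD : |D| ≤ 2 * q := by
    have h : |D| ≤ |D - q| + |q| := by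
      have := abs_add_le (D - q) q
      simpa using this
    rw [abs_of_nonneg hq0] at h
    have : e * q ≤ q := mul_le_of_le_one_left hq0 he1
    linarith
  have hSD : |S * D| ≤ S * (2 * q) := by
    rw [abs_mul, abs_of_nonneg hS0]
    exact mul_le_mul_of_nonneg_left hD hS0
  have hW : |W| ≤ P + 2 * (S * q) := by
    have h : |W| ≤ |W - S * D| + |S * D| := by
      have := abs_add_le (W - S * D) (S * D)
      simpa using this
    have : e * P ≤ P := mul_le_of_le_one_left hP.le he1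
    linarith
  have hDS : |S * (D - q)| ≤ e * (S * q) := by
    rw [abs_mul, abs_of_nonneg hS0]
    calc S * |D - q| ≤ S * (e * q) := mul_le_mul_of_nonneg_left h2 hS0
      _ = e * (S * q) := by ring
  have hmain : |l * T - S * s * P| ≤ e * (|W| + P) + e * P + e * (S * q) := by
    have e1 : l * T - S * s * P = -(W - l * T) + (W - S * D) + S * (D - q) := by rw [hq]; ring
    rw [e1]
    refine (abs_add_three _ _ _).trans ?_
    rw [abs_neg]
    linarith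
  have hW2 : e * (|W| + P) ≤ e * (2 * P + 2 * (S * q)) :=
    mul_le_mul_of_nonneg_left (by linarith) he.le
  have hSP : P ≤ 2 * (S * P) := by
    have := mul_le_mul_of_nonneg_right hS hP.le
    linarith
  have hSq : 0 ≤ S * q := mul_nonneg hS0 hq0
  have heSP : e * P ≤ e * (2 * (S * P)) := mul_le_mul_of_nonneg_left hSP he.le
  have heSq : 0 ≤ e * (S * q) := mul_nonneg he.le hSq
  have hSPq : 0 ≤ S * P + S * q := add_nonneg (mul_nonneg hS0 hP.le) hSq
  calc |l * T - S * s * P| ≤ 6 * e * (S * P + S * q) := by linarith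
    _ ≤ ε * (S * P + S * q) := mul_le_mul_of_nonneg_right heε hSPq
    _ = ε * (S * (1 + s) * P) := by rw [hq]; ring

theorem q6 (k A : ℕ) (hk : 2 ≤ k) : ∃ c10 : ℕ, ∀ c1 : ℕ, c10 ≤ c1 → ∀ d : ℕ, ∀ ε : ℝ, 0 < ε → ∃ (C : ℕ) (x0 : ℝ), ∀ Y : ℕ, x0 ≤ Y →
    ∀ w w' : ℕ, Rg Y w w' c1 d → ∀ H : ℕ, (Real.log Y) ^ C ≤ H → 2 * (H : ℝ) ≤ Real.sqrt Y →
      (((Ioc Y (Y + H)).filter fun N => Even N ∧ ε * (SS N * (1 + sgK k w w') * (Y / (Real.log Y) ^ 2)) <
        |(TT k w w' N : ℝ) - SS N * sgK k w w' * (Y / (Real.log Y) ^ 2)|).card : ℝ) ≤ H / (Real.log Y) ^ A := by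
  obtain ⟨c10, hc10⟩ := asyS (A + 8) 3
  refine ⟨max c10 3, fun c1 hc1 d ε hε => ?_⟩
  obtain ⟨C, x1, hA⟩ := hc10 c1 (le_trans (le_max_left _ _) hc1) d (d * (k - 2) + 1)
  have hc3 : 3 ≤ c1 := le_trans (le_max_right _ _) hc1
  obtain ⟨x2, h0⟩ := q0 k 3 c1 d hk
  obtain ⟨e, he⟩ : ∃ e : ℝ, e = min ε 1 / 6 := ⟨_, rfl⟩
  have he0 : 0 < e := by rw [he]; positivity
  have he1 : e ≤ 1 := by
    have : min ε 1 ≤ 1 := min_le_right _ _
    rw [he]; linarith
  have heε : 6 * e ≤ ε := by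
    have : min ε 1 ≤ ε := min_le_left _ _
    rw [he]; linarith
  obtain ⟨x3, h3⟩ := q3 k 3 c1 d hk (by norm_num) e he0
  obtain ⟨x4, h5⟩ := q5 k c1 d hk hc3 e he0
  refine ⟨C, max x1 (max x2 (max x3 (max x4 (Real.exp (max 1 (1 / e)))))), ?_⟩
  intro Y hY w w' hR H hH hH2
  simp only [max_le_iff] at hY
  obtain ⟨y1, y2, y3, y4, y5⟩ := hY
  have hY0 : (0 : ℝ) < Y := lt_of_lt_of_le (Real.exp_pos _) y5
  have hl : max 1 (1 / e) ≤ Real.log Y := (Real.le_log_iff_exp_le hY0).2 y5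
  obtain ⟨l, hll⟩ : ∃ l : ℝ, l = Real.log Y := ⟨_, rfl⟩
  have hl1 : 1 ≤ l := by rw [hll]; exact (le_max_left _ _).trans hl
  have hl2 : 1 / e ≤ l := by rw [hll]; exact (le_max_right _ _).trans hl
  have hl0 : 0 < l := by linarith
  obtain ⟨hB, hcard⟩ := h0 Y y2 w w' hR
  rw [← hll] at hcard
  -- the exceptional set
  have hsub : ((Ioc Y (Y + H)).filter fun N => Even N ∧
      ε * (SS N * (1 + sgK k w w') * (Y / (Real.log Y) ^ 2)) <
        |(TT k w w' N : ℝ) - SS N * sgK k w w' * (Y / (Real.log Y) ^ 2)|) ⊆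
      (Ix Y 3 k w w').biUnion fun b => (Ioc Y (Y + H)).filter fun N =>
        (Y : ℝ) / (Real.log Y) ^ (A + 8) <
          |WS (SI w w' b.1) (aS k w w') (2 ^ b.2.2) (2 ^ b.2.1) N -
            SS N * DD (SI w w' b.1) (aS k w w') (2 ^ b.2.2) (2 ^ b.2.1) N| := by
    intro N hN
    rw [mem_filter] at hN
    obtain ⟨hNI, hev, hbig⟩ := hN
    by_contra hno
    apply absurd hbig
    rw [not_lt]
    have hgood : ∀ b ∈ Ix Y 3 k w w', |WB k w w' b N - SS N * DB k w w' b N| ≤ Y / l ^ (A + 8) := by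
      intro b hb
      by_contra hlt
      rw [not_le] at hlt
      apply hno
      rw [mem_biUnion]
      refine ⟨b, hb, mem_filter.2 ⟨hNI, ?_⟩⟩
      rw [← hll]
      exact hlt
    have hN1 : Y < N := (mem_Ioc.1 hNI).1
    have hN2 : (N : ℝ) ≤ Y + Real.sqrt Y := by
      have h : (N : ℝ) ≤ Y + H := by exact_mod_cast (mem_Ioc.1 hNI).2
      have : (0 : ℝ) ≤ H := Nat.cast_nonneg _
      linarith
    have q3' := h3 Y y3 w w' hR N hN1 hN2
    have q5' := h5 Y y4 w w' hR N hN1 hN2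
    rw [← hll] at q3' q5'
    have hP : 0 < (Y : ℝ) / l := by positivity
    have hW1 : |∑ b ∈ Ix Y 3 k w w', WB k w w' b N - SS N * ∑ b ∈ Ix Y 3 k w w', DB k w w' b N| ≤
        e * (Y / l) := by
      rw [mul_sum, ← sum_sub_distrib]
      refine (abs_sum_le_sum_abs _ _).trans ?_
      refine (sum_le_sum hgood).trans ?_
      rw [sum_const, nsmul_eq_mul]
      have hpos : (0 : ℝ) ≤ Y / l ^ (A + 8) := by positivity
      refine (mul_le_mul_of_nonneg_right hcard hpos).trans ?_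
      have hAe : (1 : ℝ) ≤ l ^ A := one_le_pow₀ hl1
      have hl3 : 1 ≤ e * l := by
        rw [div_le_iff₀ he0] at hl2; linarith
      have hll2 : (1 : ℝ) ≤ l ^ 2 := one_le_pow₀ hl1
      rw [← mul_div_assoc, div_le_iff₀ (by positivity)]
      have e1 : e * (Y / l) * l ^ (A + 8) = (Y * l ^ 4) * ((e * l) * l ^ 2 * l ^ A) := by
        field_simp
        ring
      rw [e1]
      have h9 : (1 : ℝ) ≤ (e * l) * l ^ 2 * l ^ A := by
        have h8 : (1 : ℝ) ≤ (e * l) * l ^ 2 := one_le_mul_of_one_le_of_one_le hl3 hll2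
        exact one_le_mul_of_one_le_of_one_le h8 hAe
      calc l ^ 4 * (Y : ℝ) = (Y * l ^ 4) * 1 := by ring
        _ ≤ (Y * l ^ 4) * ((e * l) * l ^ 2 * l ^ A) := by gcongr
    have hmain := q6_num hP (q8 N hev) he0 he1 heε hW1 q3' q5'
    rw [← hll]
    have e2 : (TT k w w' N : ℝ) - SS N * sgK k w w' * (Y / l ^ 2) =
        (l * (TT k w w' N : ℝ) - SS N * sgK k w w' * (Y / l)) / l := by
      field_simp
    rw [e2, abs_div, abs_of_pos hl0, div_le_iff₀ hl0]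
    refine hmain.trans (le_of_eq ?_)
    field_simp
  have hc := (card_le_card hsub).trans card_biUnion_le
  have hc' : ((((Ioc Y (Y + H)).filter fun N => Even N ∧
      ε * (SS N * (1 + sgK k w w') * (Y / (Real.log Y) ^ 2)) <
        |(TT k w w' N : ℝ) - SS N * sgK k w w' * (Y / (Real.log Y) ^ 2)|).card : ℕ) : ℝ) ≤
      ∑ b ∈ Ix Y 3 k w w', (((Ioc Y (Y + H)).filter fun N =>
        (Y : ℝ) / (Real.log Y) ^ (A + 8) <
          |WS (SI w w' b.1) (aS k w w') (2 ^ b.2.2) (2 ^ b.2.1) N -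
            SS N * DD (SI w w' b.1) (aS k w w') (2 ^ b.2.2) (2 ^ b.2.1) N|).card : ℝ) := by
    exact_mod_cast hc
  refine hc'.trans ?_
  have hterm : ∀ b ∈ Ix Y 3 k w w', (((Ioc Y (Y + H)).filter fun N =>
        (Y : ℝ) / (Real.log Y) ^ (A + 8) <
          |WS (SI w w' b.1) (aS k w w') (2 ^ b.2.2) (2 ^ b.2.1) N -
            SS N * DD (SI w w' b.1) (aS k w w') (2 ^ b.2.2) (2 ^ b.2.1) N|).card : ℝ) ≤
        H / (Real.log Y) ^ (A + 8) := by
    intro b hb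
    exact hA Y y1 (2 ^ b.1) (2 ^ b.2.2) (2 ^ b.2.1) (SI w w' b.1) (aS k w w') (hB b hb) H hH hH2
  refine (sum_le_sum hterm).trans ?_
  rw [sum_const, nsmul_eq_mul, ← hll]
  have hpos : (0 : ℝ) ≤ H / l ^ (A + 8) := by positivity
  refine (mul_le_mul_of_nonneg_right hcard hpos).trans ?_
  rw [← mul_div_assoc, div_le_div_iff₀ (by positivity) (by positivity)]
  have h4 : (1 : ℝ) ≤ l ^ 4 := one_le_pow₀ hl1
  have hH0 : (0 : ℝ) ≤ H := Nat.cast_nonneg _
  calc l ^ 4 * (H : ℝ) * l ^ A = (H * l ^ A * l ^ 4) * 1 := by ring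
    _ ≤ (H * l ^ A * l ^ 4) * l ^ 4 := by gcongr
    _ = H * l ^ (A + 8) := by ring

end Pool.Agent.Lib.G5
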