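import Pool.Agent.Lib.G5.Q7
import Pool.Agent.Lib.G5.Q8
import Pool.Agent.Lib.G3.FinA

/-!
# G5, row Q9: the final theorem with the thresholds `(log N)^c`, `(log N)^d` (instead of `(log X)^c`, `(log X)^d`)

PROOF IN WORDS (q9a). `EE`-type conditions: if `n = N - p` is counted by `TT k w1 w1' N` but not by `TT k w2 w2' N`, where `w1 ≤ w2 ≤ w1 + 1` and `w1' ≤ w2' ≤ w1' + 1`
(or the other way round), then `w1 + 1 ∣ n` or `w1' + 1 ∣ n`. The number of `n` with `1 ≤ n ≤ N` divisible by `m` is `N / m`. So the difference is at most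
`N/(w1+1) + N/(w1'+1) ≤ 2 N/(w1 + 1)` (if `w1 ≤ w1'`).
(q9) `c0 = max (c0 of q7 k (A+1)) 4`. Take `C1`, `X1` of `q7 k (A+1)` with `ε/2`. For `X ≤ Y ≤ 2X`, `h = ⌈(log X)^(C1+1)⌉` (so `(log Y)^C1 ≤ h ≤ √Y`), apply q7 with
`X := Y`, `H := h`: thresholds `w = ⌊(log Y)^c⌋`, `w' = ⌊(log Y)^d⌋`. For `N ∈ (Y, Y + h]`: `0 ≤ (log N)^c - (log Y)^c ≤ c (log N)^c (N-Y)/Y ≤ 1` for large `Y` (mean value, or
`(1 + t)^c ≤ 1 + 2ct`), so `⌊(log N)^c⌋` is `w` or `w+1`, same for `d`. By q9a the two `TT` differ by at most `2N/(log Y)^c ≤ 4 N/(log N)^4 ≤ (ε/2) SS N · N/(log N)^2` for large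
`N` (`SS N ≥ 1/2` for even `N`, row Q8). So the exceptional `N` of q9 in `(Y, Y+h]` are exceptional for q7: at most `h/(log Y)^(A+1) ≤ h/(log X)^(A+1)`. Cover `(X, X+H]` with
`G3.fin_cover` (FinA.lean) as in Q7: at most `2H/(log X)^(A+1) ≤ H/(log X)^A`.
-/

set_option autoImplicit false

open Finset

namespace Pool.Agent.Lib.G5

open Pool.Agent.Lib.G3 (SS)

theorem q9_dvd_card (N m : ℕ) : ((((range N).filter fun p => m ∣ N - p)).card : ℝ) ≤ (N : ℝ) / m := by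
  have h : ((range N).filter fun p => m ∣ N - p).card ≤ ((Ioc 0 N).filter fun n => m ∣ n).card := by
    refine card_le_card_of_injOn (fun p => N - p) ?_ ?_
    · intro p hp
      simp only [coe_filter, mem_range, Set.mem_ofPred_eq, mem_Ioc] at hp ⊢
      exact ⟨by omega, hp.2⟩
    · intro p hp q hq hpq
      simp only [coe_filter, mem_range, Set.mem_ofPred_eq] at hp hq hpq
      omega
  rw [Nat.Ioc_filter_dvd_card_eq_div] at h
  calc ((((range N).filter fun p => m ∣ N - p)).card : ℝ) ≤ ((N / m : ℕ) : ℝ) := by exact_mod_cast h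
    _ ≤ (N : ℝ) / m := Nat.cast_div_le

theorem q9a (k w1 w1' w2 w2' N : ℕ) (h1 : w1 ≤ w2) (h2 : w2 ≤ w1 + 1) (h3 : w1' ≤ w2') (h4 : w2' ≤ w1' + 1) :
    |(TT k w1 w1' N : ℝ) - TT k w2 w2' N| ≤ (N : ℝ) / (w1 + 1) + (N : ℝ) / (w1' + 1) := by
  classical
  have key : ∀ p ∈ range N, ¬ (w1 + 1 ∣ N - p) → ¬ (w1' + 1 ∣ N - p) →
      ((p.Prime ∧ Squarefree (N - p) ∧ (N - p).primeFactors.card = k ∧
        (∀ q ∈ (N - p).primeFactors, w1 < q) ∧ ((N - p).primeFactors.filter fun q => w1' < q).card = 1) ↔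
       (p.Prime ∧ Squarefree (N - p) ∧ (N - p).primeFactors.card = k ∧
        (∀ q ∈ (N - p).primeFactors, w2 < q) ∧ ((N - p).primeFactors.filter fun q => w2' < q).card = 1)) := by
    intro p _ ha hb
    have e1 : ∀ q ∈ (N - p).primeFactors, (w1 < q ↔ w2 < q) := by
      intro q hq
      have : q ≠ w1 + 1 := by
        rintro rfl
        exact ha (Nat.dvd_of_mem_primeFactors hq)
      omega
    have e2 : ∀ q ∈ (N - p).primeFactors, (w1' < q ↔ w2' < q) := by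
      intro q hq
      have : q ≠ w1' + 1 := by
        rintro rfl
        exact hb (Nat.dvd_of_mem_primeFactors hq)
      omega
    have e3 : ((N - p).primeFactors.filter fun q => w1' < q) = ((N - p).primeFactors.filter fun q => w2' < q) :=
      filter_congr e2
    rw [e3]
    have e4 : (∀ q ∈ (N - p).primeFactors, w1 < q) ↔ (∀ q ∈ (N - p).primeFactors, w2 < q) :=
      forall₂_congr e1
    rw [e4]
  set A := (range N).filter fun p => p.Prime ∧ Squarefree (N - p) ∧ (N - p).primeFactors.card = k ∧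
        (∀ q ∈ (N - p).primeFactors, w1 < q) ∧ ((N - p).primeFactors.filter fun q => w1' < q).card = 1 with hA
  set B := (range N).filter fun p => p.Prime ∧ Squarefree (N - p) ∧ (N - p).primeFactors.card = k ∧
        (∀ q ∈ (N - p).primeFactors, w2 < q) ∧ ((N - p).primeFactors.filter fun q => w2' < q).card = 1 with hB
  set D := ((range N).filter fun p => w1 + 1 ∣ N - p) ∪ ((range N).filter fun p => w1' + 1 ∣ N - p) with hD
  have hD1 : (D.card : ℝ) ≤ (N : ℝ) / (w1 + 1) + (N : ℝ) / (w1' + 1) := by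
    have g1 := q9_dvd_card N (w1 + 1)
    have g2 := q9_dvd_card N (w1' + 1)
    have g3 : (D.card : ℝ) ≤ (((range N).filter fun p => w1 + 1 ∣ N - p).card : ℝ) + (((range N).filter fun p => w1' + 1 ∣ N - p).card : ℝ) := by
      exact_mod_cast card_union_le _ _
    push_cast at g1 g2
    linarith
  have hAB : A ⊆ B ∪ D := by
    intro p hp
    rw [hA, mem_filter] at hp
    by_cases hpD : p ∈ D
    · exact mem_union_right _ hpD
    · refine mem_union_left _ ?_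
      rw [hD, mem_union, mem_filter, mem_filter] at hpD
      push Not at hpD
      rw [hB, mem_filter]
      exact ⟨hp.1, (key p hp.1 (hpD.1 hp.1) (hpD.2 hp.1)).1 hp.2⟩
  have hBA : B ⊆ A ∪ D := by
    intro p hp
    rw [hB, mem_filter] at hp
    by_cases hpD : p ∈ D
    · exact mem_union_right _ hpD
    · refine mem_union_left _ ?_
      rw [hD, mem_union, mem_filter, mem_filter] at hpD
      push Not at hpD
      rw [hA, mem_filter]
      exact ⟨hp.1, (key p hp.1 (hpD.1 hp.1) (hpD.2 hp.1)).2 hp.2⟩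
  have c1 : (A.card : ℝ) ≤ B.card + D.card := by
    exact_mod_cast (card_le_card hAB).trans (card_union_le _ _)
  have c2 : (B.card : ℝ) ≤ A.card + D.card := by
    exact_mod_cast (card_le_card hBA).trans (card_union_le _ _)
  have hTA : TT k w1 w1' N = A.card := by
    unfold TT
    rw [hA]
  have hTB : TT k w2 w2' N = B.card := by
    unfold TT
    rw [hB]
  rw [hTA, hTB, abs_le]
  constructor <;> linarith

theorem q9_floor (L δ c : ℝ) (hL : 1 ≤ L) (hδ : 0 ≤ δ) (hc : 0 ≤ c) (h1 : c * δ ≤ 1) (h2 : 2 * c * δ * L ^ c ≤ 1) :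
    ⌊L ^ c⌋₊ ≤ ⌊(L + δ) ^ c⌋₊ ∧ ⌊(L + δ) ^ c⌋₊ ≤ ⌊L ^ c⌋₊ + 1 := by
  have hL0 : 0 < L := by linarith
  refine ⟨Nat.floor_le_floor (Real.rpow_le_rpow hL0.le (by linarith) hc), ?_⟩
  have hLc : 0 ≤ L ^ c := Real.rpow_nonneg hL0.le c
  rw [← Nat.floor_add_one hLc]
  refine Nat.floor_le_floor ?_
  have e1 : L + δ ≤ L * Real.exp δ := by
    have : δ + 1 ≤ Real.exp δ := Real.add_one_le_exp δ
    nlinarith
  have e2 : (L + δ) ^ c ≤ L ^ c * Real.exp (δ * c) := by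
    calc (L + δ) ^ c ≤ (L * Real.exp δ) ^ c := Real.rpow_le_rpow (by linarith) e1 hc
      _ = L ^ c * Real.exp (δ * c) := by
          rw [Real.mul_rpow hL0.le (Real.exp_pos _).le, Real.exp_mul]
  have e3 : Real.exp (δ * c) ≤ 1 + 2 * (δ * c) := by
    have h0 : 0 ≤ δ * c := mul_nonneg hδ hc
    have h3 : |δ * c| ≤ 1 := by
      rw [abs_of_nonneg h0]
      linarith
    have h4 := Real.abs_exp_sub_one_le h3
    rw [abs_of_nonneg h0] at h4
    have h5 := le_abs_self (Real.exp (δ * c) - 1)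
    linarith
  calc (L + δ) ^ c ≤ L ^ c * Real.exp (δ * c) := e2
    _ ≤ L ^ c * (1 + 2 * (δ * c)) := mul_le_mul_of_nonneg_left e3 hLc
    _ = L ^ c + 2 * c * δ * L ^ c := by ring
    _ ≤ L ^ c + 1 := by linarith

theorem q9_large (D n : ℕ) : ∃ L0 : ℝ, ∀ L : ℝ, L0 ≤ L → 4 * ((D : ℝ) + 1) * L ^ n ≤ Real.exp L := by
  have h := (Real.tendsto_exp_div_pow_atTop n).eventually_ge_atTop (4 * ((D : ℝ) + 1))
  obtain ⟨L1, hL1⟩ := Filter.eventually_atTop.1 (h.and (Filter.eventually_ge_atTop (1 : ℝ)))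
  refine ⟨L1, fun L hL => ?_⟩
  obtain ⟨h1, h2⟩ := hL1 L hL
  have h3 : 0 < L ^ n := pow_pos (by linarith) n
  rwa [le_div_iff₀ h3] at h1

theorem q9_delta {L δ : ℝ} {D : ℕ} (hL1 : 1 ≤ L) (hδ0 : 0 ≤ δ) (hmain : 2 * ((D : ℝ) + 1) * (δ * L ^ D) ≤ 1) (e : ℝ) (he0 : 0 ≤ e)
    (hed : e ≤ D) : e * δ ≤ 1 ∧ 2 * e * δ * L ^ e ≤ 1 := by
  have e1 : L ^ e ≤ L ^ D := by
    calc L ^ e ≤ L ^ (D : ℝ) := Real.rpow_le_rpow_of_exponent_le hL1 hed
      _ = L ^ D := Real.rpow_natCast L D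
  have e2 : 1 ≤ L ^ e := Real.one_le_rpow hL1 he0
  have e5 : 0 ≤ e * δ := mul_nonneg he0 hδ0
  have e6 : (0 : ℝ) ≤ δ * L ^ D := mul_nonneg hδ0 (by positivity)
  have e3 : 2 * e * δ * L ^ e ≤ 2 * ((D : ℝ) + 1) * (δ * L ^ D) := by
    calc 2 * e * δ * L ^ e = 2 * (e * δ) * L ^ e := by ring
      _ ≤ 2 * (e * δ) * L ^ D := mul_le_mul_of_nonneg_left e1 (by linarith)
      _ = (2 * e) * (δ * L ^ D) := by ring
      _ ≤ (2 * ((D : ℝ) + 1)) * (δ * L ^ D) := mul_le_mul_of_nonneg_right (by linarith) e6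
      _ = 2 * ((D : ℝ) + 1) * (δ * L ^ D) := by ring
  have e4 : e * δ ≤ 2 * e * δ * L ^ e := by
    calc e * δ = (e * δ) * 1 := by ring
      _ ≤ (e * δ) * L ^ e := mul_le_mul_of_nonneg_left e2 e5
      _ ≤ 2 * ((e * δ) * L ^ e) := by
          have : 0 ≤ (e * δ) * L ^ e := mul_nonneg e5 (by linarith)
          linarith
      _ = 2 * e * δ * L ^ e := by ring
  exact ⟨by linarith, by linarith⟩

theorem q9_term {k w1 w1' w2 w2' N : ℕ} {c d L ε : ℝ} (hL : 1 ≤ L) (hc : 4 ≤ c) (hcd : c < d) (hε : 0 < ε)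
    (hw1 : w1 = ⌊L ^ c⌋₊) (hw1' : w1' = ⌊L ^ d⌋₊) (h1 : w1 ≤ w2) (h2 : w2 ≤ w1 + 1) (h3 : w1' ≤ w2') (h4 : w2' ≤ w1' + 1)
    (hN : Real.log N ≤ 2 * L) (hN0 : 0 < Real.log N) (hev : Even N) (hLε : 64 / ε ≤ L ^ 2) :
    |(TT k w1 w1' N : ℝ) - TT k w2 w2' N| ≤ ε / 2 * (SS N * (N / (Real.log N) ^ 2)) := by
  have hL0 : 0 < L := by linarith
  have g1 : L ^ 4 ≤ (w1 : ℝ) + 1 := by
    calc L ^ 4 = L ^ (4 : ℝ) := by norm_cast
      _ ≤ L ^ c := Real.rpow_le_rpow_of_exponent_le hL hc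
      _ ≤ (w1 : ℝ) + 1 := by rw [hw1]; exact (Nat.lt_floor_add_one _).le
  have g2 : L ^ 4 ≤ (w1' : ℝ) + 1 := by
    calc L ^ 4 = L ^ (4 : ℝ) := by norm_cast
      _ ≤ L ^ d := Real.rpow_le_rpow_of_exponent_le hL (by linarith)
      _ ≤ (w1' : ℝ) + 1 := by rw [hw1']; exact (Nat.lt_floor_add_one _).le
  have hN1 : (0 : ℝ) ≤ N := Nat.cast_nonneg N
  have hL4 : 0 < L ^ 4 := by positivity
  have g3 : (N : ℝ) / (w1 + 1) + (N : ℝ) / (w1' + 1) ≤ 2 * (N / L ^ 4) := by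
    have e1 : (N : ℝ) / (w1 + 1) ≤ N / L ^ 4 := div_le_div_of_nonneg_left hN1 hL4 g1
    have e2 : (N : ℝ) / (w1' + 1) ≤ N / L ^ 4 := div_le_div_of_nonneg_left hN1 hL4 g2
    linarith
  have g4 : 2 * (N / L ^ 4) ≤ ε / 2 * (1 / 2 * (N / (Real.log N) ^ 2)) := by
    have e1 : (N : ℝ) / (2 * L) ^ 2 ≤ N / (Real.log N) ^ 2 := by
      refine div_le_div_of_nonneg_left hN1 (by positivity) ?_
      exact pow_le_pow_left₀ hN0.le hN 2
    have e2 : 2 * ((N : ℝ) / L ^ 4) ≤ ε / 2 * (1 / 2 * (N / (2 * L) ^ 2)) := by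
      have e3 : ε / 2 * (1 / 2 * ((N : ℝ) / (2 * L) ^ 2)) = (ε * L ^ 2 / 16) * (N / L ^ 4) := by
        field_simp
        ring
      rw [e3]
      have e4 : 64 ≤ ε * L ^ 2 := by
        rw [div_le_iff₀ hε] at hLε
        linarith
      have e5 : 0 ≤ (N : ℝ) / L ^ 4 := by positivity
      nlinarith
    refine e2.trans ?_
    gcongr
  refine (q9a k w1 w1' w2 w2' N h1 h2 h3 h4).trans (g3.trans (g4.trans ?_))
  have := q8 N hev
  gcongr

theorem q9_cmp {k Y h N D : ℕ} {c d ε : ℝ} (hL1 : 1 ≤ Real.log Y) (hc : 4 ≤ c) (hcd : c < d) (hdD : d ≤ D) (hε : 0 < ε)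
    (h64 : 64 / ε ≤ (Real.log Y) ^ 2) (hbig : 2 * ((D : ℝ) + 1) * (h * (Real.log Y) ^ D) ≤ Y) (hY0 : (0 : ℝ) < Y)
    (hN : N ∈ Ioc Y (Y + h)) (hev : Even N) :
    |(TT k ⌊(Real.log Y) ^ c⌋₊ ⌊(Real.log Y) ^ d⌋₊ N : ℝ) - TT k ⌊(Real.log N) ^ c⌋₊ ⌊(Real.log N) ^ d⌋₊ N| ≤
      ε / 2 * (SS N * (N / (Real.log N) ^ 2)) := by
  obtain ⟨L, hLd⟩ : ∃ L, L = Real.log Y := ⟨_, rfl⟩
  rw [← hLd] at hL1 h64 hbig ⊢
  rw [mem_Ioc] at hN
  have hYN : (Y : ℝ) ≤ N := by exact_mod_cast hN.1.le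
  have hNYh : (N : ℝ) ≤ Y + h := by exact_mod_cast hN.2
  have hN0 : (0 : ℝ) < N := hY0.trans_le hYN
  obtain ⟨δ, hδ⟩ : ∃ δ, δ = Real.log N - L := ⟨_, rfl⟩
  have hδ0 : 0 ≤ δ := by
    have := Real.log_le_log hY0 hYN
    rw [hδ, hLd]
    linarith
  have hδ1 : δ ≤ h / Y := by
    rw [hδ, hLd, ← Real.log_div hN0.ne' hY0.ne']
    have e1 := Real.log_le_sub_one_of_pos (show (0 : ℝ) < N / Y by positivity)
    refine e1.trans ?_
    rw [div_sub_one hY0.ne']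
    exact div_le_div_of_nonneg_right (by linarith) hY0.le
  have hlogN : Real.log N = L + δ := by rw [hδ]; ring
  have hD1 : (0 : ℝ) ≤ 2 * ((D : ℝ) + 1) := by positivity
  have hLD : (0 : ℝ) ≤ L ^ D := by positivity
  have hmain : 2 * ((D : ℝ) + 1) * (δ * L ^ D) ≤ 1 := by
    calc 2 * ((D : ℝ) + 1) * (δ * L ^ D) ≤ 2 * ((D : ℝ) + 1) * (h / Y * L ^ D) :=
          mul_le_mul_of_nonneg_left (mul_le_mul_of_nonneg_right hδ1 hLD) hD1
      _ = 2 * ((D : ℝ) + 1) * (h * L ^ D) / Y := by ring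
      _ ≤ 1 := by rw [div_le_one hY0]; exact hbig
  have hc0 : 0 ≤ c := by linarith
  have hd0 : 0 ≤ d := by linarith
  obtain ⟨a1, a2⟩ := q9_delta hL1 hδ0 hmain c hc0 (hcd.le.trans hdD)
  obtain ⟨b1, b2⟩ := q9_delta hL1 hδ0 hmain d hd0 hdD
  obtain ⟨f1, f2⟩ := q9_floor L δ c hL1 hδ0 hc0 a1 a2
  obtain ⟨f3, f4⟩ := q9_floor L δ d hL1 hδ0 hd0 b1 b2
  have hδ2 : δ ≤ 1 := by
    have e1 : 1 * δ ≤ c * δ := mul_le_mul_of_nonneg_right (by linarith) hδ0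
    linarith
  have ht := q9_term (k := k) (N := N) (ε := ε) hL1 hc hcd hε rfl rfl f1 f2 f3 f4
    (by rw [hlogN]; linarith) (by rw [hlogN]; linarith) hev h64
  rwa [← hlogN] at ht

theorem q9 (k A : ℕ) (hk : 2 ≤ k) : ∃ c0 : ℕ, ∀ c d : ℝ, (c0 : ℝ) ≤ c → c < d → ∀ ε : ℝ, 0 < ε → ∃ C X₀ : ℕ, ∀ X H : ℕ, X₀ ≤ X →
    (Real.log X) ^ C ≤ H → H ≤ X →
      (((Ioc X (X + H)).filter fun N => Even N ∧ ε * (SS N * (N / (Real.log N) ^ 2)) <
        |(TT k ⌊(Real.log N) ^ c⌋₊ ⌊(Real.log N) ^ d⌋₊ N : ℝ) -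
          (Real.log (d / c)) ^ (k - 1) / (Nat.factorial (k - 1) : ℝ) * (SS N * (N / (Real.log N) ^ 2))|).card : ℝ) ≤
        H / (Real.log X) ^ A := by
  classical
  obtain ⟨c0, hc0⟩ := q7 k (A + 1) hk
  refine ⟨max c0 4, fun c d hc hcd ε hε => ?_⟩
  have hc1 : (c0 : ℝ) ≤ c := le_trans (by exact_mod_cast le_max_left c0 4) hc
  have hc4 : (4 : ℝ) ≤ c := le_trans (by exact_mod_cast le_max_right c0 4) hc
  obtain ⟨C1, X1, h7⟩ := hc0 c d hc1 hcd (ε / 2) (by positivity)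
  set D := ⌈d⌉₊ with hD
  have hdD : d ≤ D := Nat.le_ceil d
  obtain ⟨L0, hL0⟩ := q9_large D (C1 + 1 + D)
  set B : ℝ := max (max L0 (2 ^ C1 + 2)) (64 / ε + 2) with hB
  refine ⟨C1 + 2, max X1 (⌈Real.exp B⌉₊), fun X H hX hH1 hH2 => ?_⟩
  have hX1 : X1 ≤ X := le_trans (le_max_left _ _) hX
  have hXB : Real.exp B ≤ X := by
    have : ⌈Real.exp B⌉₊ ≤ X := le_trans (le_max_right _ _) hX
    exact (Nat.le_ceil _).trans (by exact_mod_cast this)
  have hX0 : (0 : ℝ) < X := lt_of_lt_of_le (Real.exp_pos B) hXB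
  set l := Real.log X with hl
  have hBl : B ≤ l := (Real.le_log_iff_exp_le hX0).2 hXB
  have hlL0 : L0 ≤ l := le_trans (le_trans (le_max_left _ _) (le_max_left _ _)) hBl
  have hlC : (2 : ℝ) ^ C1 + 2 ≤ l := le_trans (le_trans (le_max_right _ _) (le_max_left _ _)) hBl
  have hlε : 64 / ε + 2 ≤ l := le_trans (le_max_right _ _) hBl
  have h2C : (0 : ℝ) < 2 ^ C1 := by positivity
  have hl2 : 2 ≤ l := by linarith
  have hl1 : 1 ≤ l := by linarith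
  have hl0 : 0 < l := by linarith
  have h64 : 0 < 64 / ε := by positivity
  set h := ⌈l ^ (C1 + 1)⌉₊ with hh
  have hh1 : l ^ (C1 + 1) ≤ h := Nat.le_ceil _
  have hlp : 1 ≤ l ^ (C1 + 1) := one_le_pow₀ hl1
  have hh2 : (h : ℝ) ≤ l ^ (C1 + 1) + 1 := (Nat.ceil_lt_add_one (by linarith)).le
  have hh3 : (h : ℝ) ≤ 2 * l ^ (C1 + 1) := by linarith
  have hhp : 1 ≤ h := by
    have : (1 : ℝ) ≤ h := hlp.trans hh1
    exact_mod_cast this
  have hhH : h ≤ H := by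
    have : (h : ℝ) ≤ H := by
      refine (hh3.trans ?_).trans hH1
      rw [show C1 + 2 = (C1 + 1) + 1 by ring, pow_succ l (C1 + 1), mul_comm (l ^ (C1 + 1)) l]
      exact mul_le_mul_of_nonneg_right hl2 (by linarith)
    exact_mod_cast this
  have hcov := Pool.Agent.Lib.G3.fin_cover (fun N => Even N ∧ ε * (SS N * (N / (Real.log N) ^ 2)) <
        |(TT k ⌊(Real.log N) ^ c⌋₊ ⌊(Real.log N) ^ d⌋₊ N : ℝ) -
          (Real.log (d / c)) ^ (k - 1) / (Nat.factorial (k - 1) : ℝ) * (SS N * (N / (Real.log N) ^ 2))|)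
      (X := X) (ε := 1 / l ^ (A + 1)) (S := (H : ℝ) + h) hhp hhH (by positivity) le_rfl ?_
  · refine hcov.trans ?_
    have h4 : (H : ℝ) / l ^ A = l * (H / l ^ (A + 1)) := by
      rw [pow_succ l A]
      field_simp
    rw [h4]
    have h5 : 0 ≤ (H : ℝ) / l ^ (A + 1) := by positivity
    have h6 : 2 * (H : ℝ) * (1 / l ^ (A + 1)) = 2 * (H / l ^ (A + 1)) := by ring
    rw [h6]
    exact mul_le_mul_of_nonneg_right hl2 h5
  · intro Y hY hYS
    have hXY : (X : ℝ) ≤ Y := by exact_mod_cast hY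
    have hY0 : (0 : ℝ) < Y := by linarith
    have hHX : (H : ℝ) ≤ X := by exact_mod_cast hH2
    have hY2 : (Y : ℝ) ≤ 2 * X := by linarith
    set L := Real.log Y with hLd
    have hlL : l ≤ L := Real.log_le_log hX0 hXY
    have hL1 : 1 ≤ L := by linarith
    have hLp : 0 < L := by linarith
    have hLl : L ≤ 2 * l := by
      have e1 : L ≤ Real.log (2 * X) := Real.log_le_log hY0 hY2
      rw [Real.log_mul (by norm_num) hX0.ne'] at e1
      have e2 : Real.log 2 ≤ 1 := by linarith [Real.log_two_lt_d9]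
      linarith
    have hexpL : Real.exp L = Y := Real.exp_log hY0
    have hbig := hL0 L (hlL0.trans hlL)
    rw [hexpL] at hbig
    -- `4 (D + 1) L ^ (C1 + 1 + D) ≤ Y`
    have hhL : (h : ℝ) ≤ 2 * L ^ (C1 + 1) := hh3.trans (by gcongr)
    have hLD1 : 1 ≤ L ^ D := one_le_pow₀ hL1
    have hD0 : (0 : ℝ) ≤ D := Nat.cast_nonneg D
    have hLC0 : 0 < L ^ (C1 + 1) := by positivity
    have hbig2 : 2 * ((D : ℝ) + 1) * (h * L ^ D) ≤ Y := by
      refine le_trans ?_ hbig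
      calc 2 * ((D : ℝ) + 1) * (h * L ^ D) ≤ 2 * ((D : ℝ) + 1) * (2 * L ^ (C1 + 1) * L ^ D) := by gcongr
        _ = 4 * ((D : ℝ) + 1) * L ^ (C1 + 1 + D) := by rw [pow_add L (C1 + 1) D]; ring
    have hhr0 : (0 : ℝ) ≤ h := Nat.cast_nonneg h
    have h64L : 64 / ε ≤ L ^ 2 := by
      have e1 : L * 1 ≤ L * L := mul_le_mul_of_nonneg_left hL1 hLp.le
      rw [pow_two]
      linarith
    have hhY : (h : ℝ) ≤ Y := by
      have e1 : (h : ℝ) ≤ h * L ^ D := le_mul_of_one_le_right hhr0 hLD1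
      have e2 : 0 ≤ (h : ℝ) * L ^ D := by positivity
      have e3 : 1 * ((h : ℝ) * L ^ D) ≤ 2 * ((D : ℝ) + 1) * (h * L ^ D) := mul_le_mul_of_nonneg_right (by linarith) e2
      linarith
    have hhY' : h ≤ Y := by exact_mod_cast hhY
    have h7Y := h7 Y h (hX1.trans hY) ?_ hhY'
    · refine le_trans ?_ (h7Y.trans ?_)
      · have hsub : ((Ioc Y (Y + h)).filter fun N => Even N ∧ ε * (SS N * (N / (Real.log N) ^ 2)) <
            |(TT k ⌊(Real.log N) ^ c⌋₊ ⌊(Real.log N) ^ d⌋₊ N : ℝ) -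
              (Real.log (d / c)) ^ (k - 1) / (Nat.factorial (k - 1) : ℝ) * (SS N * (N / (Real.log N) ^ 2))|) ⊆
            ((Ioc Y (Y + h)).filter fun N => Even N ∧ ε / 2 * (SS N * (N / (Real.log N) ^ 2)) <
            |(TT k ⌊(Real.log Y) ^ c⌋₊ ⌊(Real.log Y) ^ d⌋₊ N : ℝ) -
              (Real.log (d / c)) ^ (k - 1) / (Nat.factorial (k - 1) : ℝ) * (SS N * (N / (Real.log N) ^ 2))|) := by
          intro N hN
          rw [mem_filter] at hN ⊢
          obtain ⟨hN1, hev, hN3⟩ := hN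
          refine ⟨hN1, hev, ?_⟩
          have ht := q9_cmp (k := k) hL1 hc4 hcd hdD hε h64L hbig2 hY0 hN1 hev
          have htri : |(TT k ⌊(Real.log N) ^ c⌋₊ ⌊(Real.log N) ^ d⌋₊ N : ℝ) -
              (Real.log (d / c)) ^ (k - 1) / (Nat.factorial (k - 1) : ℝ) * (SS N * (N / (Real.log N) ^ 2))| ≤
              |(TT k ⌊L ^ c⌋₊ ⌊L ^ d⌋₊ N : ℝ) - TT k ⌊(Real.log N) ^ c⌋₊ ⌊(Real.log N) ^ d⌋₊ N| +
              |(TT k ⌊L ^ c⌋₊ ⌊L ^ d⌋₊ N : ℝ) -
              (Real.log (d / c)) ^ (k - 1) / (Nat.factorial (k - 1) : ℝ) * (SS N * (N / (Real.log N) ^ 2))| := by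
            rw [abs_sub_comm (TT k ⌊L ^ c⌋₊ ⌊L ^ d⌋₊ N : ℝ) (TT k ⌊(Real.log N) ^ c⌋₊ ⌊(Real.log N) ^ d⌋₊ N : ℝ)]
            exact abs_sub_le _ _ _
          linarith
        exact_mod_cast card_le_card hsub
      · have e1 : (h : ℝ) * (1 / l ^ (A + 1)) = h / l ^ (A + 1) := by ring
        rw [e1]
        gcongr
    · calc L ^ C1 ≤ (2 * l) ^ C1 := by gcongr
        _ = 2 ^ C1 * l ^ C1 := mul_pow _ _ _
        _ ≤ l * l ^ C1 := by
            refine mul_le_mul_of_nonneg_right (by linarith) (by positivity)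
        _ = l ^ (C1 + 1) := by ring
        _ ≤ h := hh1

end Pool.Agent.Lib.G5
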