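import Pool.Agent.Lib.G3.SSer

/-!
# G5: the objects of the asymptotic formula for a prime plus a product of exactly `k` primes
-/

set_option autoImplicit false

open Finset

namespace Pool.Agent.Lib.G5

open Pool.Agent.Lib.G3 (pr lp SS)

/-- the block function: products `p m r`, `p` in `S`, `m` in `[M, 2M)` with weight `a m`, `r` a prime of `(R, 2R]` with weight
`log r / log 2R` -/
noncomputable def bS (S : Finset ℕ) (a : ℕ → ℝ) (R M n : ℕ) : ℝ :=
  ∑ p ∈ S, ∑ r ∈ pr R, ∑ m ∈ Ico M (2 * M), if p * m * r = n then a m * (lp r / Real.log (2 * R : ℕ)) else 0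

/-- the mass of the block function below `N` -/
noncomputable def DD (S : Finset ℕ) (a : ℕ → ℝ) (R M N : ℕ) : ℝ :=
  ∑ p ∈ S, ∑ m ∈ Ico M (2 * M), a m / (p * m * Real.log (2 * R : ℕ)) *
    (((Ioc (p * m * R) (2 * (p * m * R))).filter fun n => n < N).card : ℝ)

/-- the weighted number of representations `N = p' + p m r` -/
noncomputable def WS (S : Finset ℕ) (a : ℕ → ℝ) (R M N : ℕ) : ℝ := ∑ n ∈ Icc 1 N, bS S a R M n * lp (N - n)

/-- the conditions on a block at the scale `X`: `P` between powers of `log X`, `S` a set of primes of `(P, 2P]`, `|a| ≤ 1`, the prime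
factors of the `m` with `a m ≠ 0` are large, the product `P M R` is between `X / (log X)^e` and `X` -/
structure BlkS (X P R M : ℕ) (S : Finset ℕ) (a : ℕ → ℝ) (e c1 cP cM : ℕ) : Prop where
  hP1 : (Real.log X) ^ c1 / 2 ≤ P
  hP2 : (P : ℝ) ≤ 2 * (Real.log X) ^ cP
  hM1 : 1 ≤ M
  hM2 : (M : ℝ) ≤ (Real.log X) ^ cM
  hR1 : (X : ℝ) / (Real.log X) ^ e ≤ (P * M * R : ℕ)
  hR2 : P * M * R ≤ X
  hS : S ⊆ pr P
  ha : ∀ m, |a m| ≤ 1
  ham : ∀ m, a m ≠ 0 → ∀ p : ℕ, p.Prime → p ∣ m → (Real.log X) ^ c1 / 2 < p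
  hb : ∀ n, |bS S a R M n| ≤ 1

open Classical in
/-- number of primes `p < N` such that `N - p` is squarefree with exactly `k` prime factors, all larger than `w`, exactly one of them
larger than `w'` -/
noncomputable def TT (k w w' N : ℕ) : ℕ := ((range N).filter fun p => p.Prime ∧ Squarefree (N - p) ∧ (N - p).primeFactors.card = k ∧
  (∀ q ∈ (N - p).primeFactors, w < q) ∧ ((N - p).primeFactors.filter fun q => w' < q).card = 1).card

/-- the primes of `(w, w']` -/
def PP (w w' : ℕ) : Finset ℕ := (Ioc w w').filter Nat.Prime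

open Classical in
/-- `1/(k-1)` on the squarefree numbers with exactly `k - 2` prime factors, all of them in `(w, w']` -/
noncomputable def aS (k w w' m : ℕ) : ℝ :=
  if Squarefree m ∧ m.primeFactors.card = k - 2 ∧ m.primeFactors ⊆ PP w w' then 1 / ((k : ℝ) - 1) else 0

/-- `∑ 1 / p` over the primes of `(w, w']` -/
noncomputable def sg1 (w w' : ℕ) : ℝ := ∑ p ∈ PP w w', (1 : ℝ) / p

/-- `∑ 1 / (p_1 ⋯ p_j)` over the sets of `j` primes of `(w, w']` -/
noncomputable def esy (j w w' : ℕ) : ℝ := ∑ s ∈ (PP w w').powersetCard j, ∏ p ∈ s, (1 : ℝ) / p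

end Pool.Agent.Lib.G5
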