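import Pool.Agent.Lib.G5.GDefs

/-!
# G5, row R0 (general variant of Q0: copy G5/Q0.lean)

PROOF IN WORDS. As Q0, with `Rg2` and `BlkG`: `M = 1000 k`. `2^i < p ≤ w'` gives `(2^i)^400 ≤ w'^400 ≤ w'^(1000 k) ≤ Y` (hP2; `w' ≥ 1`); `2^j ≤ w'^(k-2)` gives
`(2^i 2^j)^200 ≤ w'^(200 (k-1)) ≤ Y` (hM2). hb: `R = 2^g ≥ Y/(l^e 2^i 2^j) ≥ Y/(l^e w'^(k-1)) > w'` because `l^e w'^k < Y` (`w'^k ≤ Y^(1/1000)`, i.e. `(w'^k)^1000 ≤ Y`, `l^e ≤ Y^(1/2)` for
large `Y`). The number of blocks as before.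
-/

set_option autoImplicit false

open Finset

namespace Pool.Agent.Lib.G5

open Pool.Agent.Lib.G3 (pr lp)

private theorem r0_one {ι : Type} [DecidableEq ι] (A : Finset ι) (f : ι → ℝ) (c : ℝ) (hc : 0 ≤ c) (h1 : ∀ x ∈ A, f x ≤ c)
    (h2 : ∀ x ∈ A, ∀ y ∈ A, f x ≠ 0 → f y ≠ 0 → x = y) : ∑ x ∈ A, f x ≤ c := by
  by_cases h : ∃ x ∈ A, f x ≠ 0
  · obtain ⟨x, hx, hfx⟩ := h
    rw [Finset.sum_eq_single x]
    · exact h1 x hx
    · intro y hy hyx
      by_contra hfy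
      exact hyx (h2 y hy x hx hfy hfx)
    · intro h
      exact absurd hx h
  · push Not at h
    rw [Finset.sum_eq_zero h]
    exact hc

private theorem r0_as (k w w' : ℕ) (hk : 2 ≤ k) (m : ℕ) : 0 ≤ aS k w w' m ∧ aS k w w' m ≤ 1 / ((k : ℝ) - 1) := by
  have hk' : (0 : ℝ) < (k : ℝ) - 1 := by
    have : (2 : ℝ) ≤ k := by exact_mod_cast hk
    linarith
  unfold aS
  split_ifs
  · exact ⟨by positivity, le_rfl⟩
  · exact ⟨le_rfl, by positivity⟩

private theorem r0_bound (k w w' : ℕ) (hk : 2 ≤ k) (S : Finset ℕ) (hS : ∀ p ∈ S, p.Prime ∧ p ≤ w') (R M : ℕ) (hR1 : 1 ≤ R)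
    (hR : w' ≤ R) (n : ℕ) : |bS S (aS k w w') R M n| ≤ 1 := by
  classical
  have hk' : (0 : ℝ) < (k : ℝ) - 1 := by
    have : (2 : ℝ) ≤ k := by exact_mod_cast hk
    linarith
  have hlogR : 0 < Real.log ((2 * R : ℕ) : ℝ) := Real.log_pos (by exact_mod_cast (by omega : 1 < 2 * R))
  have hr : ∀ r ∈ pr R, r.Prime ∧ R < r ∧ 0 ≤ lp r / Real.log ((2 * R : ℕ) : ℝ) ∧ lp r / Real.log ((2 * R : ℕ) : ℝ) ≤ 1 := by
    intro r hr
    unfold pr at hr
    rw [mem_filter, mem_Ioc] at hr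
    obtain ⟨⟨hr1, hr2⟩, hrp⟩ := hr
    have e : lp r = Real.log r := by
      unfold Pool.Agent.Lib.G3.lp
      rw [if_pos hrp]
    have hr0 : (0 : ℝ) < r := by exact_mod_cast hrp.pos
    refine ⟨hrp, hr1, ?_, ?_⟩
    · rw [e]
      exact div_nonneg (Real.log_nonneg (by exact_mod_cast hrp.one_lt.le)) hlogR.le
    · rw [e, div_le_one hlogR]
      exact Real.log_le_log hr0 (by exact_mod_cast hr2)
  set t : ℕ → ℕ → ℕ → ℝ := fun p r m =>
    if p * m * r = n then aS k w w' m * (lp r / Real.log ((2 * R : ℕ) : ℝ)) else 0 with ht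
  have ht0 : ∀ p, ∀ r ∈ pr R, ∀ m, 0 ≤ t p r m := by
    intro p r hr' m
    simp only [ht]
    split_ifs
    · exact mul_nonneg (r0_as k w w' hk m).1 (hr r hr').2.2.1
    · exact le_rfl
  have ht1 : ∀ p, ∀ r ∈ pr R, ∀ m, t p r m ≤ 1 / ((k : ℝ) - 1) := by
    intro p r hr' m
    simp only [ht]
    split_ifs
    · calc aS k w w' m * (lp r / Real.log ((2 * R : ℕ) : ℝ)) ≤ aS k w w' m * 1 :=
            mul_le_mul_of_nonneg_left (hr r hr').2.2.2 (r0_as k w w' hk m).1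
        _ ≤ 1 / ((k : ℝ) - 1) := by rw [mul_one]; exact (r0_as k w w' hk m).2
    · positivity
  have htn : ∀ p r m, t p r m ≠ 0 → p * m * r = n ∧
      (Squarefree m ∧ m.primeFactors.card = k - 2 ∧ m.primeFactors ⊆ PP w w') := by
    intro p r m h
    simp only [ht] at h
    have h1 : p * m * r = n := by
      by_contra hcon
      rw [if_neg hcon] at h
      exact h rfl
    rw [if_pos h1] at h
    have h2 : aS k w w' m ≠ 0 := left_ne_zero_of_mul h
    refine ⟨h1, ?_⟩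
    by_contra hcon
    unfold aS at h2
    rw [if_neg hcon] at h2
    exact h2 rfl
  have hb : bS S (aS k w w') R M n = ∑ p ∈ S, ∑ r ∈ pr R, ∑ m ∈ Ico M (2 * M), t p r m := rfl
  have hb0 : 0 ≤ bS S (aS k w w') R M n := by
    rw [hb]
    exact Finset.sum_nonneg fun p _ => Finset.sum_nonneg fun r hr' => Finset.sum_nonneg fun m _ => ht0 p r hr' m
  rw [abs_of_nonneg hb0, hb]
  by_cases hT : ∃ p0 ∈ S, ∃ r0 ∈ pr R, ∃ m0, t p0 r0 m0 ≠ 0
  · obtain ⟨p0, hp0, r0, hr0, m0, h0⟩ := hT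
    obtain ⟨e0, hm0, hc0, hs0⟩ := htn p0 r0 m0 h0
    have hp0p := (hS p0 hp0).1
    have hr0p := (hr r0 hr0).1
    have hm0' : m0 ≠ 0 := hm0.ne_zero
    have hpm0 : p0 * m0 ≠ 0 := mul_ne_zero hp0p.ne_zero hm0'
    have hle : ∀ q : ℕ, q.Prime → q ∣ p0 * m0 → q ≤ w' := by
      intro q hq hd
      rcases (Nat.Prime.dvd_mul hq).1 hd with h | h
      · rw [(Nat.prime_dvd_prime_iff_eq hq hp0p).1 h]
        exact (hS p0 hp0).2
      · have h1 := hs0 (Nat.mem_primeFactors.2 ⟨hq, h, hm0'⟩)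
        unfold PP at h1
        rw [mem_filter, mem_Ioc] at h1
        exact h1.1.2
    have key : ∀ p ∈ S, ∀ r ∈ pr R, ∀ m, t p r m ≠ 0 → r = r0 ∧ p * m = p0 * m0 := by
      intro p hp r hr' m h
      obtain ⟨e1, -⟩ := htn p r m h
      obtain ⟨hrp, hrR, -⟩ := hr r hr'
      have hd : r ∣ p0 * m0 * r0 := by
        rw [e0, ← e1]
        exact dvd_mul_left r _
      have h1 : r = r0 := by
        rcases (Nat.Prime.dvd_mul hrp).1 hd with h2 | h2
        · have := hle r hrp h2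
          omega
        · exact (Nat.prime_dvd_prime_iff_eq hrp hr0p).1 h2
      refine ⟨h1, ?_⟩
      rw [h1] at e1
      exact Nat.eq_of_mul_eq_mul_right hr0p.pos (e1.trans e0.symm)
    have hF : ((p0 * m0).primeFactors.card : ℝ) ≤ (k : ℝ) - 1 := by
      have h1 : (p0 * m0).primeFactors.card ≤ k - 1 := by
        rw [Nat.primeFactors_mul hp0p.ne_zero hm0', hp0p.primeFactors]
        refine (card_union_le _ _).trans ?_
        rw [card_singleton, hc0]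
        omega
      have h2 : ((p0 * m0).primeFactors.card : ℝ) ≤ ((k - 1 : ℕ) : ℝ) := by exact_mod_cast h1
      rwa [Nat.cast_sub (by omega), Nat.cast_one] at h2
    have hin : ∀ p ∈ S, ∑ r ∈ pr R, ∑ m ∈ Ico M (2 * M), t p r m ≤
        if p ∈ (p0 * m0).primeFactors then 1 / ((k : ℝ) - 1) else 0 := by
      intro p hp
      split_ifs with hpF
      · rw [← Finset.sum_product']
        refine r0_one _ _ _ (by positivity) ?_ ?_
        · rintro ⟨r, m⟩ hx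
          exact ht1 p r (mem_product.1 hx).1 m
        · rintro ⟨r, m⟩ hx ⟨r', m'⟩ hx' h1 h2
          obtain ⟨a1, a2⟩ := key p hp r (mem_product.1 hx).1 m h1
          obtain ⟨b1, b2⟩ := key p hp r' (mem_product.1 hx').1 m' h2
          have h3 : m = m' := Nat.eq_of_mul_eq_mul_left (hS p hp).1.pos (a2.trans b2.symm)
          rw [a1, b1, h3]
      · refine le_of_eq (Finset.sum_eq_zero fun r hr' => Finset.sum_eq_zero fun m _ => ?_)
        by_contra h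
        obtain ⟨-, h2⟩ := key p hp r hr' m h
        exact hpF (Nat.mem_primeFactors.2 ⟨(hS p hp).1, h2 ▸ dvd_mul_right p m, hpm0⟩)
    calc ∑ p ∈ S, ∑ r ∈ pr R, ∑ m ∈ Ico M (2 * M), t p r m
        ≤ ∑ p ∈ S, (if p ∈ (p0 * m0).primeFactors then 1 / ((k : ℝ) - 1) else 0) := Finset.sum_le_sum hin
      _ = ∑ p ∈ S.filter (fun p => p ∈ (p0 * m0).primeFactors), 1 / ((k : ℝ) - 1) := by rw [← Finset.sum_filter]
      _ ≤ ∑ p ∈ (p0 * m0).primeFactors, 1 / ((k : ℝ) - 1) := by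
          refine Finset.sum_le_sum_of_subset_of_nonneg ?_ fun _ _ _ => by positivity
          intro p hp
          exact (mem_filter.1 hp).2
      _ = (p0 * m0).primeFactors.card * (1 / ((k : ℝ) - 1)) := by rw [Finset.sum_const, nsmul_eq_mul]
      _ ≤ ((k : ℝ) - 1) * (1 / ((k : ℝ) - 1)) := mul_le_mul_of_nonneg_right hF (by positivity)
      _ = 1 := by field_simp
  · push Not at hT
    rw [Finset.sum_eq_zero fun p hp => Finset.sum_eq_zero fun r hr' => Finset.sum_eq_zero fun m _ => hT p hp r hr' m]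
    norm_num

theorem r0 (k e c1 : ℕ) (hk : 2 ≤ k) : ∃ x0 : ℝ, ∀ Y : ℕ, x0 ≤ Y → ∀ w w' : ℕ, Rg2 Y w w' c1 (1000 * k) →
    (∀ b ∈ Ix Y e k w w', BlkG Y (2 ^ b.1) (2 ^ b.2.2) (2 ^ b.2.1) (SI w w' b.1) (aS k w w') e c1) ∧
      ((Ix Y e k w w').card : ℝ) ≤ (Real.log Y) ^ 4 ∧ ∀ b ∈ Ix Y e k w w', 2 ^ b.1 ≤ w' := by
  classical
  have hev : ∀ᶠ x : ℝ in Filter.atTop, (Real.log x) ^ (2 * e + 1) ≤ x := by
    have h1 := (Real.isLittleO_pow_log_id_atTop (n := 2 * e + 1)).def (c := 1) one_pos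
    filter_upwards [h1, Filter.eventually_ge_atTop (1 : ℝ)] with x hx hx1
    have hl : 0 ≤ Real.log x := Real.log_nonneg hx1
    simp only [id, Real.norm_eq_abs, one_mul] at hx
    rwa [abs_of_nonneg (by positivity), abs_of_nonneg (by linarith)] at hx
  obtain ⟨x1, hx1⟩ := Filter.eventually_atTop.1 hev
  refine ⟨max x1 (Real.exp 27), ?_⟩
  intro Y hY w w' hRg
  have hY1 : (Real.log Y) ^ (2 * e + 1) ≤ Y := hx1 Y ((le_max_left _ _).trans hY)
  have hY2 : Real.exp 27 ≤ Y := (le_max_right _ _).trans hY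
  have hY0 : (0 : ℝ) < Y := lt_of_lt_of_le (Real.exp_pos _) hY2
  set l := Real.log Y with hl
  have hl27 : 27 ≤ l := by
    rw [hl, Real.le_log_iff_exp_le hY0]
    exact hY2
  have hl1 : 1 ≤ l := by linarith
  have hl0 : 0 < l := by linarith
  obtain ⟨g1, g2, g3⟩ := hRg
  rw [← hl] at g1
  have hw1 : l ^ c1 ≤ w := (pow_le_pow_right₀ hl1 (Nat.le_succ c1)).trans g1
  have hlc : 0 < l ^ c1 := by positivity
  have hw'1 : 1 ≤ w' := by
    have h1 : (1 : ℝ) ≤ w := (one_le_pow₀ hl1).trans hw1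
    have h2 : 1 ≤ w := by exact_mod_cast h1
    exact h2.trans g2
  have hmem : ∀ b ∈ Ix Y e k w w', (∃ p, p ∈ SI w w' b.1) ∧ 2 ^ b.2.1 ≤ w' ^ (k - 2) ∧
      (Y : ℝ) / l ^ e ≤ ((2 ^ b.1 * 2 ^ b.2.1 * 2 ^ b.2.2 : ℕ) : ℝ) ∧ 2 ^ b.1 * 2 ^ b.2.1 * 2 ^ b.2.2 ≤ Y := by
    rintro ⟨i, j, g⟩ hb
    unfold Ix at hb
    rw [mem_filter] at hb
    obtain ⟨-, ⟨p, hp⟩, hj, hb1, hb2⟩ := hb
    exact ⟨⟨p, hp⟩, hj, hb1, hb2⟩
  have hSI : ∀ i, ∀ q ∈ SI w w' i, q.Prime ∧ w < q ∧ q ≤ w' ∧ 2 ^ i < q ∧ q ≤ 2 ^ (i + 1) := by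
    intro i q hq
    unfold SI PP at hq
    rw [mem_filter, mem_filter, mem_Ioc] at hq
    exact ⟨hq.1.2, hq.1.1.1, hq.1.1.2, hq.2.1, hq.2.2⟩
  have hPw : ∀ b ∈ Ix Y e k w w', 2 ^ b.1 ≤ w' := by
    intro b hb
    obtain ⟨⟨p, hp⟩, -⟩ := hmem b hb
    obtain ⟨-, -, hp2, hp3, -⟩ := hSI b.1 p hp
    exact hp3.le.trans hp2
  refine ⟨?_, ?_, hPw⟩
  · intro b hb
    have hPw' := hPw b hb
    obtain ⟨⟨p, hp⟩, hj, hb1, hb2⟩ := hmem b hb
    obtain ⟨i, j, g⟩ := b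
    simp only at hp hj hb1 hb2 hPw' ⊢
    obtain ⟨hpp, hp1, hp2, hp3, hp4⟩ := hSI i p hp
    have hPM : 2 ^ i * 2 ^ j ≤ w' ^ (k - 1) := by
      have h1 : 2 ^ i * 2 ^ j ≤ w' * w' ^ (k - 2) := Nat.mul_le_mul hPw' hj
      have h2 : w' * w' ^ (k - 2) = w' ^ (k - 1) := by
        rw [← pow_succ']
        congr 1
        omega
      rwa [h2] at h1
    have hRw : w' ≤ 2 ^ g := by
      by_contra hcon
      push Not at hcon
      have h1 : 2 ^ i * 2 ^ j * 2 ^ g ≤ w' ^ k := by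
        have h2 : 2 ^ i * 2 ^ j * 2 ^ g ≤ w' ^ (k - 1) * w' := Nat.mul_le_mul hPM hcon.le
        have h3 : w' ^ (k - 1) * w' = w' ^ k := by
          rw [← pow_succ]
          congr 1
          omega
        rwa [h3] at h2
      set W : ℝ := ((w' ^ k : ℕ) : ℝ) with hW
      have hW1 : 1 ≤ W := by
        rw [hW]
        exact_mod_cast Nat.one_le_pow _ _ hw'1
      have h4 : (Y : ℝ) ≤ W * l ^ e := by
        rw [div_le_iff₀ (by positivity)] at hb1
        refine hb1.trans (mul_le_mul_of_nonneg_right ?_ (by positivity))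
        rw [hW]
        exact_mod_cast h1
      have h5 : W ^ 2 ≤ Y := by
        have h6 : (w' ^ k) ^ 2 ≤ Y := by
          refine le_trans ?_ g3
          rw [← pow_mul]
          exact Nat.pow_le_pow_right hw'1 (by omega)
        rw [hW]
        exact_mod_cast h6
      have h7 : l ^ (2 * e) < Y := by
        refine lt_of_lt_of_le ?_ hY1
        rw [pow_succ]
        have h8 : 0 < l ^ (2 * e) := by positivity
        nlinarith
      have h9 : (Y : ℝ) ^ 2 ≤ (W * l ^ e) ^ 2 := pow_le_pow_left₀ hY0.le h4 2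
      have h10 : (W * l ^ e) ^ 2 = W ^ 2 * l ^ (2 * e) := by ring
      rw [h10] at h9
      have h11 : W ^ 2 * l ^ (2 * e) ≤ Y * l ^ (2 * e) := mul_le_mul_of_nonneg_right h5 (by positivity)
      have h12 : (Y : ℝ) * l ^ (2 * e) < Y * Y := mul_lt_mul_of_pos_left h7 hY0
      nlinarith
    refine ⟨?_, ?_, Nat.one_le_two_pow, ?_, hb1, hb2, ?_, ?_, ?_, ?_⟩
    · have h1 : (w : ℝ) ≤ ((2 ^ (i + 1) : ℕ) : ℝ) := by exact_mod_cast (hp1.le.trans hp4)
      have h2 : ((2 ^ (i + 1) : ℕ) : ℝ) = 2 * ((2 ^ i : ℕ) : ℝ) := by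
        push_cast
        ring
      rw [div_le_iff₀ (by norm_num)]
      linarith
    · exact ((Nat.pow_le_pow_left hPw' 400).trans (Nat.pow_le_pow_right hw'1 (by omega))).trans g3
    · refine ((Nat.pow_le_pow_left hPM 200).trans ?_).trans g3
      rw [← pow_mul]
      exact Nat.pow_le_pow_right hw'1 (by omega)
    · intro q hq
      obtain ⟨q1, q2, q3, q4, q5⟩ := hSI i q hq
      unfold pr
      rw [mem_filter, mem_Ioc]
      refine ⟨⟨q4, ?_⟩, q1⟩
      rw [pow_succ] at q5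
      omega
    · intro m
      obtain ⟨h1, h2⟩ := r0_as k w w' hk m
      rw [abs_of_nonneg h1]
      refine h2.trans ?_
      have : (2 : ℝ) ≤ k := by exact_mod_cast hk
      rw [div_le_one (by linarith)]
      linarith
    · intro m hm q hq hqm
      have h1 : Squarefree m ∧ m.primeFactors.card = k - 2 ∧ m.primeFactors ⊆ PP w w' := by
        by_contra hcon
        unfold aS at hm
        rw [if_neg hcon] at hm
        exact hm rfl
      have h2 := h1.2.2 (Nat.mem_primeFactors.2 ⟨hq, hqm, h1.1.ne_zero⟩)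
      unfold PP at h2
      rw [mem_filter, mem_Ioc] at h2
      have h3 : (w : ℝ) < q := by exact_mod_cast h2.1.1
      linarith
    · exact fun n => r0_bound k w w' hk _ (fun q hq => ⟨(hSI i q hq).1, (hSI i q hq).2.2.1⟩) _ _ Nat.one_le_two_pow hRw n
  · have h1 : (Ix Y e k w w').card ≤ (Nat.log 2 Y + 1) * ((Nat.log 2 Y + 1) * (Nat.log 2 Y + 1)) := by
      unfold Ix
      refine (card_filter_le _ _).trans ?_
      rw [card_product, card_product, card_range]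
    have h2 : ((Nat.log 2 Y : ℕ) : ℝ) ≤ 2 * l := by
      have hYn : Y ≠ 0 := by
        rintro rfl
        simp at hY0
      have h3 : ((2 ^ Nat.log 2 Y : ℕ) : ℝ) ≤ Y := by exact_mod_cast Nat.pow_log_le_self 2 hYn
      have h4 := Real.log_le_log (by positivity) h3
      rw [Nat.cast_pow, Real.log_pow, ← hl] at h4
      have h5 := Real.log_two_gt_d9
      have h6 : (0 : ℝ) ≤ Nat.log 2 Y := Nat.cast_nonneg _
      have h7 : ((Nat.log 2 Y : ℕ) : ℝ) * (1 / 2) ≤ (Nat.log 2 Y : ℕ) * Real.log ((2 : ℕ) : ℝ) := by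
        refine mul_le_mul_of_nonneg_left ?_ h6
        push_cast
        linarith
      have h8 := h7.trans h4
      linarith
    have h3 : ((Ix Y e k w w').card : ℝ) ≤
        ((Nat.log 2 Y : ℕ) + 1) * (((Nat.log 2 Y : ℕ) + 1) * ((Nat.log 2 Y : ℕ) + 1)) := by exact_mod_cast h1
    have h4 : ((Nat.log 2 Y : ℕ) : ℝ) + 1 ≤ 3 * l := by linarith
    have h5 : (0 : ℝ) ≤ ((Nat.log 2 Y : ℕ) : ℝ) + 1 := by positivity
    calc ((Ix Y e k w w').card : ℝ)
        ≤ ((Nat.log 2 Y : ℕ) + 1) * (((Nat.log 2 Y : ℕ) + 1) * ((Nat.log 2 Y : ℕ) + 1)) := h3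
      _ = (((Nat.log 2 Y : ℕ) : ℝ) + 1) ^ 3 := by ring
      _ ≤ (3 * l) ^ 3 := pow_le_pow_left₀ h5 h4 3
      _ = 27 * l ^ 3 := by ring
      _ ≤ l * l ^ 3 := mul_le_mul_of_nonneg_right hl27 (by positivity)
      _ = l ^ 4 := by ring

end Pool.Agent.Lib.G5
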