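import Pool.Agent.Lib.G5.GDefs

/-!
# G5, row R4 (general variant of Q4: copy G5/Q4.lean)

PROOF IN WORDS. As Q4; only `R > w'` and `2R ≥ √Y` are proved differently: `R = 2^g ≥ Y/(l^e w'^(k-1))` and `(w'^k)^1000 ≤ Y`.
-/

set_option autoImplicit false

open Finset

namespace Pool.Agent.Lib.G5

open Pool.Agent.Lib.G3 (pr lp)

private theorem r4_large (N : ℕ) : ∃ x0 : ℝ, ∀ Y : ℝ, x0 ≤ Y →
    1 ≤ Real.log Y ∧ (Real.log Y) ^ N ≤ Real.sqrt Y ∧ 1 < Real.sqrt Y ∧ 0 < Y := by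
  have h := (Real.isLittleO_pow_log_id_atTop (n := 2 * N)).bound one_pos
  obtain ⟨x1, hx1⟩ := Filter.eventually_atTop.1 h
  refine ⟨max x1 (Real.exp 1), fun Y hY => ?_⟩
  have h1 := hx1 Y ((le_max_left _ _).trans hY)
  have h2 : Real.exp 1 ≤ Y := (le_max_right _ _).trans hY
  have h3 : 1 < Real.exp 1 := Real.one_lt_exp_iff.2 one_pos
  have hY0 : 0 < Y := by linarith
  have h4 : 1 ≤ Real.log Y := by
    rw [Real.le_log_iff_exp_le hY0]
    exact h2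
  refine ⟨h4, ?_, ?_, hY0⟩
  · apply Real.le_sqrt_of_sq_le
    rw [one_mul, id, Real.norm_of_nonneg hY0.le, Real.norm_of_nonneg (by positivity)] at h1
    rw [← pow_mul, mul_comm N 2]
    exact h1
  · rw [Real.lt_sqrt zero_le_one]
    linarith

private theorem r4_pow {i i' p : ℕ} (h1 : 2 ^ i < p) (h2 : p ≤ 2 ^ (i + 1)) (h3 : 2 ^ i' < p)
    (h4 : p ≤ 2 ^ (i' + 1)) : i = i' := by
  rcases lt_trichotomy i i' with h | h | h
  · have : 2 ^ (i + 1) ≤ 2 ^ i' := Nat.pow_le_pow_right (by norm_num) h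
    omega
  · exact h
  · have : 2 ^ (i' + 1) ≤ 2 ^ i := Nat.pow_le_pow_right (by norm_num) h
    omega

private theorem r4_pow' {j j' m : ℕ} (h1 : 2 ^ j ≤ m) (h2 : m < 2 * 2 ^ j) (h3 : 2 ^ j' ≤ m)
    (h4 : m < 2 * 2 ^ j') : j = j' := by
  rcases lt_trichotomy j j' with h | h | h
  · have : 2 ^ (j + 1) ≤ 2 ^ j' := Nat.pow_le_pow_right (by norm_num) h
    rw [pow_succ] at this
    omega
  · exact h
  · have : 2 ^ (j' + 1) ≤ 2 ^ j := Nat.pow_le_pow_right (by norm_num) h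
    rw [pow_succ] at this
    omega

private theorem r4_R {Y e k c1 w w' : ℕ} (hk : 2 ≤ k) (hR : Rg2 Y w w' c1 (1000 * k))
    (hl : 1 ≤ Real.log Y) (hN : (Real.log Y) ^ (2 * e) ≤ Real.sqrt Y) (hs : 1 < Real.sqrt Y)
    {i j g p : ℕ} (hp : p ∈ SI w w' i) (hj : 2 ^ j ≤ w' ^ (k - 2))
    (hb : (Y : ℝ) / (Real.log Y) ^ e ≤ ((2 ^ i * 2 ^ j * 2 ^ g : ℕ) : ℝ)) :
    w' < 2 ^ g ∧ Real.sqrt Y ≤ ((2 ^ g : ℕ) : ℝ) := by
  obtain ⟨K, rfl⟩ := Nat.exists_eq_add_of_le hk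
  rw [Nat.add_sub_cancel_left] at hj
  obtain ⟨l, hld⟩ : ∃ l : ℝ, l = Real.log Y := ⟨_, rfl⟩
  obtain ⟨W, hW⟩ : ∃ W : ℝ, W = (w' : ℝ) := ⟨_, rfl⟩
  rw [← hld] at hl hN hb
  have hl0 : 0 < l := by linarith
  have hi' : 2 ^ i ≤ w' := by
    unfold SI PP at hp
    rw [mem_filter, mem_filter, mem_Ioc] at hp
    omega
  have hw1 : 1 ≤ w' := (Nat.one_le_two_pow).trans hi'
  have hW1 : 1 ≤ W := by rw [hW]; exact_mod_cast hw1
  have hW0 : 0 < W := by linarith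
  have hi : ((2 ^ i : ℕ) : ℝ) ≤ W := by rw [hW]; exact_mod_cast hi'
  have hj' : ((2 ^ j : ℕ) : ℝ) ≤ W ^ K := by
    rw [hW]
    exact_mod_cast hj
  obtain ⟨G, hG⟩ : ∃ G : ℝ, G = ((2 ^ g : ℕ) : ℝ) := ⟨_, rfl⟩
  have hG0 : 0 < G := by rw [hG]; positivity
  have hs0 : 0 < Real.sqrt Y := by linarith
  have hYY : Real.sqrt Y * Real.sqrt Y = Y := Real.mul_self_sqrt (Nat.cast_nonneg _)
  have hw3 : W ^ (1000 * (2 + K)) ≤ (Y : ℝ) := by
    rw [hW]
    exact_mod_cast hR.h3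
  have hW2 : W ^ (2 * (2 + K)) ≤ Real.sqrt Y := by
    apply Real.le_sqrt_of_sq_le
    rw [← pow_mul]
    refine le_trans (pow_le_pow_right₀ hW1 ?_) hw3
    omega
  have h0 : l ^ e * W ^ (2 + K) ≤ Real.sqrt Y := by
    apply Real.le_sqrt_of_sq_le
    calc (l ^ e * W ^ (2 + K)) ^ 2 = l ^ (2 * e) * W ^ (2 * (2 + K)) := by
          rw [mul_pow, ← pow_mul, ← pow_mul, mul_comm e 2, mul_comm (2 + K) 2]
      _ ≤ Real.sqrt Y * Real.sqrt Y := mul_le_mul hN hW2 (by positivity) hs0.le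
      _ = Y := hYY
  have h1 : (Y : ℝ) ≤ l ^ e * (W * W ^ K * G) := by
    rw [div_le_iff₀ (by positivity)] at hb
    calc (Y : ℝ) ≤ ((2 ^ i * 2 ^ j * 2 ^ g : ℕ) : ℝ) * l ^ e := hb
      _ = l ^ e * (((2 ^ i : ℕ) : ℝ) * ((2 ^ j : ℕ) : ℝ) * G) := by rw [hG]; push_cast; ring
      _ ≤ l ^ e * (W * W ^ K * G) := by gcongr
  have h2 : (Y : ℝ) * W ≤ Real.sqrt Y * G := by
    calc (Y : ℝ) * W ≤ (l ^ e * (W * W ^ K * G)) * W :=
          mul_le_mul_of_nonneg_right h1 hW0.le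
      _ = l ^ e * W ^ (2 + K) * G := by
          rw [pow_add]
          ring
      _ ≤ Real.sqrt Y * G := mul_le_mul_of_nonneg_right h0 hG0.le
  have h3 : Real.sqrt Y * W ≤ G := by
    have h4 : Real.sqrt Y * (Real.sqrt Y * W) ≤ Real.sqrt Y * G := by
      rw [← mul_assoc, hYY]
      exact h2
    exact le_of_mul_le_mul_left h4 hs0
  constructor
  · have h4 : (w' : ℝ) < G := by
      calc (w' : ℝ) = 1 * W := by rw [hW, one_mul]
        _ < Real.sqrt Y * W := mul_lt_mul_of_pos_right hs hW0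
        _ ≤ G := h3
    rw [hG] at h4
    exact_mod_cast h4
  · rw [← hG]
    calc Real.sqrt Y = Real.sqrt Y * 1 := (mul_one _).symm
      _ ≤ Real.sqrt Y * W := mul_le_mul_of_nonneg_left hW1 hs0.le
      _ ≤ G := h3

private theorem r4_aS {k w w' m : ℕ} (h : aS k w w' m ≠ 0) :
    (Squarefree m ∧ m.primeFactors.card = k - 2 ∧ m.primeFactors ⊆ PP w w') ∧
      aS k w w' m = 1 / ((k : ℝ) - 1) := by
  unfold aS at h ⊢
  split_ifs at h ⊢ with h1
  · exact ⟨h1, rfl⟩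
  · exact absurd rfl h

private theorem r4_aS_nonneg {k : ℕ} (hk : 2 ≤ k) (w w' m : ℕ) : 0 ≤ aS k w w' m := by
  have : (2 : ℝ) ≤ k := by exact_mod_cast hk
  unfold aS
  split_ifs
  · apply div_nonneg zero_le_one
    linarith
  · exact le_rfl

/-- the triples of the blocks -/
private noncomputable def r4T (Y e k w w' : ℕ) : Finset ((_ : ℕ × ℕ × ℕ) × (ℕ × ℕ × ℕ)) :=
  (Ix Y e k w w').sigma (fun b => (SI w w' b.1) ×ˢ (pr (2 ^ b.2.2)) ×ˢ
    (Ico (2 ^ b.2.1) (2 * 2 ^ b.2.1)))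

/-- the terms -/
private noncomputable def r4F (k w w' n : ℕ) (x : (_ : ℕ × ℕ × ℕ) × (ℕ × ℕ × ℕ)) : ℝ :=
  if x.2.1 * x.2.2.2 * x.2.2.1 = n then
    aS k w w' x.2.2.2 * (lp x.2.2.1 / Real.log (2 * 2 ^ x.1.2.2 : ℕ)) else 0

private theorem r4_sum (Y e k w w' n : ℕ) :
    ∑ b ∈ Ix Y e k w w', bB k w w' b n = ∑ x ∈ r4T Y e k w w', r4F k w w' n x := by
  unfold r4T
  rw [Finset.sum_sigma]
  refine sum_congr rfl fun b _ => ?_
  unfold bB bS
  rw [Finset.sum_product]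
  refine sum_congr rfl fun p _ => ?_
  rw [Finset.sum_product]
  rfl

private theorem r4_lp {r : ℕ} : 0 ≤ lp r := by
  unfold Pool.Agent.Lib.G3.lp
  split_ifs
  · exact Real.log_natCast_nonneg r
  · exact le_rfl

private theorem r4_nonneg {k : ℕ} (hk : 2 ≤ k) (w w' n : ℕ)
    (x : (_ : ℕ × ℕ × ℕ) × (ℕ × ℕ × ℕ)) : 0 ≤ r4F k w w' n x := by
  unfold r4F
  split_ifs
  · exact mul_nonneg (r4_aS_nonneg hk _ _ _) (div_nonneg r4_lp (Real.log_natCast_nonneg _))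
  · exact le_rfl

private theorem r4_facts {Y e k c1 w w' n : ℕ} (hk : 2 ≤ k) (hR : Rg2 Y w w' c1 (1000 * k))
    (hl : 1 ≤ Real.log Y) (hN : (Real.log Y) ^ (2 * e) ≤ Real.sqrt Y) (hs : 1 < Real.sqrt Y)
    {i j g p r m : ℕ} (hx : (⟨(i, j, g), (p, r, m)⟩ : (_ : ℕ × ℕ × ℕ) × (ℕ × ℕ × ℕ)) ∈ r4T Y e k w w')
    (hF : r4F k w w' n ⟨(i, j, g), (p, r, m)⟩ ≠ 0) :
    p ∈ PP w w' ∧ r.Prime ∧ w' < r ∧ Squarefree m ∧ m.primeFactors.card = k - 2 ∧
      m.primeFactors ⊆ PP w w' ∧ p * m * r = n ∧ r4F k w w' n ⟨(i, j, g), (p, r, m)⟩ ≤ 1 / ((k : ℝ) - 1) ∧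
      (2 ^ i < p ∧ p ≤ 2 ^ (i + 1)) ∧ (2 ^ j ≤ m ∧ m < 2 * 2 ^ j) ∧ 2 ^ g < r ∧ r ≤ 2 ^ (g + 1) := by
  unfold r4T at hx
  rw [mem_sigma, mem_product, mem_product, mem_Ico] at hx
  obtain ⟨hb, hp, hr, hm1, hm2⟩ := hx
  simp only at hb hp hr hm1 hm2
  have hb2 := hb
  unfold Ix at hb2
  rw [mem_filter] at hb2
  obtain ⟨-, -, hj, hY1, -⟩ := hb2
  simp only at hj hY1
  obtain ⟨hw, -⟩ := r4_R hk hR hl hN hs hp hj hY1
  unfold r4F at hF
  simp only at hF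
  have hn : p * m * r = n := by
    by_contra h
    rw [if_neg h] at hF
    exact hF rfl
  rw [if_pos hn] at hF
  obtain ⟨⟨a1, a2, a3⟩, a4⟩ := r4_aS (left_ne_zero_of_mul hF)
  have hp' := hp
  unfold SI at hp'
  rw [mem_filter] at hp'
  unfold pr at hr
  rw [mem_filter, mem_Ioc] at hr
  have hk' : (2 : ℝ) ≤ k := by exact_mod_cast hk
  have hk1 : 0 < (k : ℝ) - 1 := by linarith
  refine ⟨hp'.1, hr.2, by omega, a1, a2, a3, hn, ?_, hp'.2, ⟨hm1, hm2⟩, hr.1.1, ?_⟩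
  · unfold r4F
    simp only
    rw [if_pos hn, a4]
    have h1 : lp r / Real.log (2 * 2 ^ g : ℕ) ≤ 1 := by
      apply div_le_one_of_le₀ _ (Real.log_natCast_nonneg _)
      unfold Pool.Agent.Lib.G3.lp
      rw [if_pos hr.2]
      apply Real.log_le_log
      · exact_mod_cast hr.2.pos
      · exact_mod_cast hr.1.2
    calc 1 / ((k : ℝ) - 1) * (lp r / Real.log (2 * 2 ^ g : ℕ)) ≤ 1 / ((k : ℝ) - 1) * 1 :=
          mul_le_mul_of_nonneg_left h1 (by positivity)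
      _ = 1 / ((k : ℝ) - 1) := mul_one _
  · rw [pow_succ]
    omega

private theorem r4_PP {w w' q : ℕ} (h : q ∈ PP w w') : q.Prime ∧ w < q ∧ q ≤ w' := by
  unfold PP at h
  rw [mem_filter, mem_Ioc] at h
  exact ⟨h.2, h.1⟩

/-- a prime factor of `p m` is in `PP` -/
private theorem r4_div {w w' p m q : ℕ} (hp : p ∈ PP w w') (hm : m.primeFactors ⊆ PP w w')
    (hm0 : m ≠ 0) (hq : q.Prime) (h : q ∣ p * m) : q = p ∨ q ∈ m.primeFactors := by
  rcases hq.dvd_mul.1 h with h1 | h1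
  · exact Or.inl ((Nat.prime_dvd_prime_iff_eq hq (r4_PP hp).1).1 h1)
  · exact Or.inr (Nat.mem_primeFactors.2 ⟨hq, h1, hm0⟩)

private theorem r4_r {w w' p m r p' m' r' : ℕ} (hr : r.Prime) (hwr : w' < r)
    (hr' : r'.Prime) (hp' : p' ∈ PP w w') (hm' : m'.primeFactors ⊆ PP w w') (hm0 : m' ≠ 0)
    (h : p * m * r = p' * m' * r') : r = r' := by
  have h1 : r ∣ p' * m' * r' := by
    rw [← h]
    exact dvd_mul_left _ _
  rcases hr.dvd_mul.1 h1 with h2 | h2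
  · exfalso
    rcases r4_div hp' hm' hm0 hr h2 with h3 | h3
    · have := (r4_PP hp').2.2
      omega
    · have := (r4_PP (hm' h3)).2.2
      omega
  · exact (Nat.prime_dvd_prime_iff_eq hr hr').1 h2

private theorem r4_card {Y e k c1 w w' n : ℕ} (hk : 2 ≤ k) (hR : Rg2 Y w w' c1 (1000 * k))
    (hl : 1 ≤ Real.log Y) (hN : (Real.log Y) ^ (2 * e) ≤ Real.sqrt Y)
    (hs : 1 < Real.sqrt Y) (hn : 1 ≤ n) :
    ((r4T Y e k w w').filter (fun x => r4F k w w' n x ≠ 0)).card ≤ k - 1 := by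
  classical
  rcases ((r4T Y e k w w').filter (fun x => r4F k w w' n x ≠ 0)).eq_empty_or_nonempty with h0 | h0
  · rw [h0]
    simp
  obtain ⟨⟨⟨i0, j0, g0⟩, p0, r0, m0⟩, hx0⟩ := h0
  rw [mem_filter] at hx0
  obtain ⟨f1, f2, f3, f4, f5, f6, f7, -, -, -, -⟩ := r4_facts hk hR hl hN hs hx0.1 hx0.2
  have hcard : (insert p0 m0.primeFactors).card ≤ k - 1 := by
    have := card_insert_le p0 m0.primeFactors
    omega
  refine le_trans (card_le_card_of_injOn (fun x => x.2.1) ?_ ?_) hcard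
  · rintro ⟨⟨i, j, g⟩, p, r, m⟩ hx
    rw [Finset.mem_coe, mem_filter] at hx
    obtain ⟨e1, e2, e3, e4, e5, e6, e7, -, -, -, -⟩ := r4_facts hk hR hl hN hs hx.1 hx.2
    rw [Finset.mem_coe, mem_insert]
    simp only
    have hp := r4_PP e1
    have h1 : p ∣ p0 * m0 * r0 := by
      rw [f7, ← e7, mul_assoc]
      exact dvd_mul_right _ _
    rcases hp.1.dvd_mul.1 h1 with h2 | h2
    · exact r4_div f1 f6 f4.ne_zero hp.1 h2
    · exfalso
      have := (Nat.prime_dvd_prime_iff_eq hp.1 f2).1 h2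
      omega
  · rintro ⟨⟨i, j, g⟩, p, r, m⟩ hx ⟨⟨i', j', g'⟩, p', r', m'⟩ hx' hpp
    rw [Finset.mem_coe, mem_filter] at hx hx'
    simp only at hpp
    subst hpp
    obtain ⟨e1, e2, e3, e4, e5, e6, e7, -, e9, e10, e11⟩ := r4_facts hk hR hl hN hs hx.1 hx.2
    obtain ⟨e1', e2', e3', e4', e5', e6', e7', -, e9', e10', e11'⟩ :=
      r4_facts hk hR hl hN hs hx'.1 hx'.2
    have hrr : r = r' := r4_r e2 e3 e2' e1' e6' e4'.ne_zero (e7.trans e7'.symm)
    subst hrr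
    have hmm : m = m' := by
      have h1 := e7.trans e7'.symm
      have h2 := Nat.eq_of_mul_eq_mul_right e2.pos h1
      exact Nat.eq_of_mul_eq_mul_left (r4_PP e1).1.pos h2
    subst hmm
    rw [r4_pow e9.1 e9.2 e9'.1 e9'.2, r4_pow' e10.1 e10.2 e10'.1 e10'.2,
      r4_pow e11.1 e11.2 e11'.1 e11'.2]

/-- the prime factors of `n` -/
private theorem r4_EE {k w w' p m r n : ℕ} (hk : 2 ≤ k) (hww : w ≤ w') (hp : p ∈ PP w w')
    (hr : r.Prime) (hwr : w' < r) (hm : Squarefree m) (hc : m.primeFactors.card = k - 2)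
    (hmP : m.primeFactors ⊆ PP w w') (hn : p * m * r = n) (hpm : ¬ p ∣ m) : EE k w w' n := by
  classical
  have hp1 := r4_PP hp
  have hm0 := hm.ne_zero
  have hpm0 : p * m ≠ 0 := Nat.mul_ne_zero hp1.1.ne_zero hm0
  have hcop : Nat.Coprime p m := (Nat.Prime.coprime_iff_not_dvd hp1.1).2 hpm
  have hrpm : ¬ r ∣ p * m := by
    intro h
    rcases r4_div hp hmP hm0 hr h with h1 | h1
    · omega
    · have := (r4_PP (hmP h1)).2.2
      omega
  have hcop2 : Nat.Coprime (p * m) r := ((Nat.Prime.coprime_iff_not_dvd hr).2 hrpm).symm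
  have hsq : Squarefree n := by
    rw [← hn, Nat.squarefree_mul_iff]
    refine ⟨hcop2, ?_, hr.squarefree⟩
    rw [Nat.squarefree_mul_iff]
    exact ⟨hcop, hp1.1.squarefree, hm⟩
  have hpf : n.primeFactors = insert r (insert p m.primeFactors) := by
    rw [← hn, Nat.primeFactors_mul hpm0 hr.ne_zero, Nat.primeFactors_mul hp1.1.ne_zero hm0,
      hr.primeFactors, hp1.1.primeFactors]
    ext q
    simp only [mem_union, mem_singleton, mem_insert]
    tauto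
  have hpn : p ∉ m.primeFactors := fun h => hpm (Nat.dvd_of_mem_primeFactors h)
  have hrn : r ∉ insert p m.primeFactors := by
    rw [mem_insert]
    rintro (h | h)
    · omega
    · have := (r4_PP (hmP h)).2.2
      omega
  refine ⟨hsq, ?_, ?_, ?_⟩
  · rw [hpf, card_insert_of_notMem hrn, card_insert_of_notMem hpn, hc]
    omega
  · intro q hq
    rw [hpf, mem_insert, mem_insert] at hq
    rcases hq with rfl | rfl | hq
    · omega
    · exact hp1.2.1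
    · exact (r4_PP (hmP hq)).2.1
  · have : n.primeFactors.filter (fun q => w' < q) = {r} := by
      ext q
      rw [mem_filter, hpf, mem_insert, mem_insert, mem_singleton]
      constructor
      · rintro ⟨h1 | h1 | h1, h2⟩
        · exact h1
        · exfalso
          omega
        · exfalso
          have := (r4_PP (hmP h1)).2.2
          omega
      · rintro rfl
        exact ⟨Or.inl rfl, hwr⟩
    rw [this, card_singleton]

/-- the decomposition of an element of `EE` -/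
private theorem r4_dec {k w w' n : ℕ} (hk : 2 ≤ k) (h : EE k w w' n) : ∃ r : ℕ, r.Prime ∧ w' < r ∧
    r ∈ n.primeFactors ∧ ∀ p ∈ n.primeFactors.erase r, p ∈ PP w w' ∧ p * (n / r / p) * r = n ∧
      Squarefree (n / r / p) ∧ (n / r / p).primeFactors.card = k - 2 ∧
      (n / r / p).primeFactors ⊆ PP w w' := by
  classical
  obtain ⟨h1, h2, h3, h4⟩ := h
  obtain ⟨r, hr⟩ := card_eq_one.1 h4
  have hr1 : r ∈ n.primeFactors.filter (fun q => w' < q) := by rw [hr]; exact mem_singleton_self r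
  rw [mem_filter] at hr1
  have hrp := Nat.prime_of_mem_primeFactors hr1.1
  have hle : ∀ q ∈ n.primeFactors, q ≠ r → q ≤ w' := by
    intro q hq hqr
    by_contra hcon
    have : q ∈ n.primeFactors.filter (fun q => w' < q) := mem_filter.2 ⟨hq, not_le.1 hcon⟩
    rw [hr, mem_singleton] at this
    exact hqr this
  refine ⟨r, hrp, hr1.2, hr1.1, fun p hp => ?_⟩
  rw [mem_erase] at hp
  have hpp := Nat.prime_of_mem_primeFactors hp.2
  have hpP : p ∈ PP w w' := by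
    unfold PP
    rw [mem_filter, mem_Ioc]
    exact ⟨⟨h3 p hp.2, hle p hp.2 hp.1⟩, hpp⟩
  have hrn : r ∣ n := Nat.dvd_of_mem_primeFactors hr1.1
  have hpn : p ∣ n := Nat.dvd_of_mem_primeFactors hp.2
  have e1 : n / r * r = n := Nat.div_mul_cancel hrn
  have hpnr : p ∣ n / r := by
    have : p ∣ n / r * r := by rw [e1]; exact hpn
    rcases hpp.dvd_mul.1 this with h | h
    · exact h
    · exact absurd ((Nat.prime_dvd_prime_iff_eq hpp hrp).1 h) hp.1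
  have e2 : p * (n / r / p) = n / r := Nat.mul_div_cancel' hpnr
  have e3 : p * (n / r / p) * r = n := by rw [e2, e1]
  obtain ⟨m, hm⟩ : ∃ m, m = n / r / p := ⟨_, rfl⟩
  rw [← hm] at e2 e3 ⊢
  have hsq := h1
  rw [← e3, Nat.squarefree_mul_iff, Nat.squarefree_mul_iff] at hsq
  obtain ⟨c1, ⟨c2, -, hsm⟩, -⟩ := hsq
  have hm0 := hsm.ne_zero
  have hpm0 : p * m ≠ 0 := Nat.mul_ne_zero hpp.ne_zero hm0
  have hpf : n.primeFactors = insert r (insert p m.primeFactors) := by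
    rw [← e3, Nat.primeFactors_mul hpm0 hrp.ne_zero, Nat.primeFactors_mul hpp.ne_zero hm0,
      hrp.primeFactors, hpp.primeFactors]
    ext q
    simp only [mem_union, mem_singleton, mem_insert]
    tauto
  have hpn' : p ∉ m.primeFactors := by
    intro h
    exact (Nat.Prime.coprime_iff_not_dvd hpp).1 c2 (Nat.dvd_of_mem_primeFactors h)
  have hrn' : r ∉ insert p m.primeFactors := by
    rw [mem_insert]
    rintro (h | h)
    · exact hp.1 h.symm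
    · exact (Nat.Prime.coprime_iff_not_dvd hrp).1 c1.symm
        (Dvd.dvd.mul_left (Nat.dvd_of_mem_primeFactors h) p)
  refine ⟨hpP, e3, hsm, ?_, ?_⟩
  · rw [hpf, card_insert_of_notMem hrn', card_insert_of_notMem hpn'] at h2
    omega
  · intro q hq
    have hq1 : q ∈ n.primeFactors := by
      rw [hpf]
      exact mem_insert_of_mem (mem_insert_of_mem hq)
    have hqr : q ≠ r := by
      rintro rfl
      exact hrn' (mem_insert_of_mem hq)
    unfold PP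
    rw [mem_filter, mem_Ioc]
    exact ⟨⟨h3 q hq1, hle q hq1 hqr⟩, Nat.prime_of_mem_primeFactors hq⟩

private theorem r4_mle {k w w' m : ℕ} (hm : Squarefree m) (hc : m.primeFactors.card = k - 2)
    (hmP : m.primeFactors ⊆ PP w w') : m ≤ w' ^ (k - 2) := by
  rw [← Nat.prod_primeFactors_of_squarefree hm, ← hc]
  exact Finset.prod_le_pow_card _ _ _ fun q hq => (r4_PP (hmP hq)).2.2

private theorem r4_two {p : ℕ} (hp : 2 ≤ p) :
    2 ^ Nat.log 2 (p - 1) < p ∧ p ≤ 2 ^ (Nat.log 2 (p - 1) + 1) := by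
  have h1 := Nat.pow_log_le_self 2 (show p - 1 ≠ 0 by omega)
  have h2 := Nat.lt_pow_succ_log_self (show 1 < 2 by norm_num) (p - 1)
  rw [Nat.succ_eq_add_one] at h2
  omega

/-- one term of the lower bound -/
private theorem r4_term {Y e k c1 w w' n : ℕ} (hk : 2 ≤ k) (hR : Rg2 Y w w' c1 (1000 * k))
    (hl : 1 ≤ Real.log Y) (hN : (Real.log Y) ^ (2 * e) ≤ Real.sqrt Y)
    (hs : 1 < Real.sqrt Y) (hY0 : (0 : ℝ) < Y) {p m r : ℕ} (hp : p ∈ PP w w') (hr : r.Prime)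
    (hm : Squarefree m) (hc : m.primeFactors.card = k - 2)
    (hmP : m.primeFactors ⊆ PP w w') (hn : p * m * r = n)
    (h1 : 8 * (Y : ℝ) / (Real.log Y) ^ e ≤ n) (h2 : n ≤ Y) :
    (⟨(Nat.log 2 (p - 1), Nat.log 2 m, Nat.log 2 (r - 1)), (p, r, m)⟩ :
      (_ : ℕ × ℕ × ℕ) × (ℕ × ℕ × ℕ)) ∈ r4T Y e k w w' ∧
    1 / ((k : ℝ) - 1) * (1 - 2 / Real.log Y) ≤
      r4F k w w' n ⟨(Nat.log 2 (p - 1), Nat.log 2 m, Nat.log 2 (r - 1)), (p, r, m)⟩ := by
  have hp1 := r4_PP hp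
  obtain ⟨i, hi⟩ : ∃ i, i = Nat.log 2 (p - 1) := ⟨_, rfl⟩
  obtain ⟨j, hj⟩ : ∃ j, j = Nat.log 2 m := ⟨_, rfl⟩
  obtain ⟨g, hg⟩ : ∃ g, g = Nat.log 2 (r - 1) := ⟨_, rfl⟩
  obtain ⟨i1, i2⟩ := r4_two hp1.1.two_le
  obtain ⟨g1, g2⟩ := r4_two hr.two_le
  have j1 := Nat.pow_log_le_self 2 hm.ne_zero
  have j2 := Nat.lt_pow_succ_log_self (show 1 < 2 by norm_num) m
  rw [Nat.succ_eq_add_one] at j2
  rw [← hi, ← hj, ← hg]
  rw [← hi] at i1 i2
  rw [← hj] at j1 j2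
  rw [← hg] at g1 g2
  rw [pow_succ] at i2 j2 g2
  have hpSI : p ∈ SI w w' i := by
    unfold SI
    rw [mem_filter, pow_succ]
    exact ⟨hp, i1, i2⟩
  have hmle := r4_mle hm hc hmP
  have hjw : 2 ^ j ≤ w' ^ (k - 2) := j1.trans hmle
  have hlow : n ≤ 8 * (2 ^ i * 2 ^ j * 2 ^ g) := by
    rw [← hn]
    calc p * m * r ≤ (2 ^ i * 2) * (2 ^ j * 2) * (2 ^ g * 2) :=
          Nat.mul_le_mul (Nat.mul_le_mul i2 j2.le) g2
      _ = 8 * (2 ^ i * 2 ^ j * 2 ^ g) := by ring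
  have hup : 2 ^ i * 2 ^ j * 2 ^ g ≤ Y := by
    refine le_trans ?_ h2
    rw [← hn]
    exact Nat.mul_le_mul (Nat.mul_le_mul i1.le j1) g1.le
  have hYe : (Y : ℝ) / (Real.log Y) ^ e ≤ ((2 ^ i * 2 ^ j * 2 ^ g : ℕ) : ℝ) := by
    have e1 : (n : ℝ) ≤ 8 * ((2 ^ i * 2 ^ j * 2 ^ g : ℕ) : ℝ) := by exact_mod_cast hlow
    have e2 : 8 * (Y : ℝ) / (Real.log Y) ^ e = 8 * ((Y : ℝ) / (Real.log Y) ^ e) := by ring
    rw [e2] at h1
    linarith
  have hpos : ∀ a : ℕ, 1 ≤ 2 ^ a := fun a => Nat.one_le_two_pow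
  have hrange : ∀ a b c : ℕ, 2 ^ a * 2 ^ b * 2 ^ c ≤ Y → a < Nat.log 2 Y + 1 ∧
      b < Nat.log 2 Y + 1 ∧ c < Nat.log 2 Y + 1 := by
    intro a b c h
    have hY0' : Y ≠ 0 := by
      rintro rfl
      simp at hY0
    have key : ∀ t : ℕ, 2 ^ t ≤ Y → t < Nat.log 2 Y + 1 := by
      intro t ht
      have := (Nat.le_log_iff_pow_le (by norm_num) hY0').2 ht
      omega
    refine ⟨key a ?_, key b ?_, key c ?_⟩
    · refine le_trans ?_ h
      rw [mul_assoc]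
      exact Nat.le_mul_of_pos_right _ (Nat.mul_pos (hpos b) (hpos c))
    · refine le_trans ?_ h
      calc 2 ^ b ≤ 2 ^ a * 2 ^ b := Nat.le_mul_of_pos_left _ (hpos a)
        _ ≤ 2 ^ a * 2 ^ b * 2 ^ c := Nat.le_mul_of_pos_right _ (hpos c)
    · exact le_trans (Nat.le_mul_of_pos_left _ (Nat.mul_pos (hpos a) (hpos b))) h
  obtain ⟨r1, r2, r3⟩ := hrange i j g hup
  obtain ⟨hwg, hsg⟩ := r4_R hk hR hl hN hs hpSI hjw hYe
  constructor
  · unfold r4T
    rw [mem_sigma, mem_product, mem_product, mem_Ico]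
    refine ⟨?_, hpSI, ?_, j1, ?_⟩
    · unfold Ix
      rw [mem_filter, mem_product, mem_product, mem_range, mem_range, mem_range]
      exact ⟨⟨r1, r2, r3⟩, ⟨p, hpSI⟩, hjw, hYe, hup⟩
    · unfold pr
      rw [mem_filter, mem_Ioc]
      refine ⟨⟨g1, ?_⟩, hr⟩
      rw [mul_comm]
      exact g2
    · rw [mul_comm]
      exact j2
  · unfold r4F
    simp only
    rw [if_pos hn]
    have haS : aS k w w' m = 1 / ((k : ℝ) - 1) := by
      unfold aS
      rw [if_pos ⟨hm, hc, hmP⟩]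
    rw [haS]
    have hk' : (2 : ℝ) ≤ k := by exact_mod_cast hk
    apply mul_le_mul_of_nonneg_left _ (div_nonneg zero_le_one (by linarith))
    obtain ⟨G, hG⟩ : ∃ G : ℝ, G = ((2 ^ g : ℕ) : ℝ) := ⟨_, rfl⟩
    have hG1 : (1 : ℝ) ≤ G := by rw [hG]; exact_mod_cast hpos g
    have e1 : ((2 * 2 ^ g : ℕ) : ℝ) = 2 * G := by rw [hG]; push_cast; ring
    have hlG : Real.log Y / 2 ≤ Real.log (2 * G) := by
      have e2 : Real.log (Real.sqrt Y) = Real.log Y / 2 := Real.log_sqrt hY0.le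
      rw [← e2]
      apply Real.log_le_log (by linarith)
      rw [← hG] at hsg
      linarith
    have hlr : Real.log (2 * G) - Real.log 2 ≤ lp r := by
      unfold Pool.Agent.Lib.G3.lp
      rw [if_pos hr, Real.log_mul (by norm_num) (by linarith)]
      have : Real.log G ≤ Real.log r := by
        apply Real.log_le_log (by linarith)
        rw [hG]
        exact_mod_cast g1.le
      linarith
    have hl2 : Real.log 2 ≤ 1 := by
      have := Real.log_two_lt_d9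
      linarith
    have hpos2 : 0 < Real.log (2 * G) := by linarith
    rw [e1, le_div_iff₀ hpos2]
    have e3 : 1 ≤ 2 / Real.log Y * Real.log (2 * G) := by
      rw [div_mul_eq_mul_div, le_div_iff₀ (by linarith)]
      linarith
    nlinarith

theorem r4 (k e c1 : ℕ) (hk : 2 ≤ k) : ∃ x0 : ℝ, ∀ Y : ℕ, x0 ≤ Y → ∀ w w' : ℕ, Rg2 Y w w' c1 (1000 * k) → ∀ n : ℕ, 1 ≤ n →
    (0 ≤ ∑ b ∈ Ix Y e k w w', bB k w w' b n ∧ ∑ b ∈ Ix Y e k w w', bB k w w' b n ≤ 1) ∧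
    (∑ b ∈ Ix Y e k w w', bB k w w' b n ≠ 0 → EE k w w' n ∨ ∃ p ∈ PP w w', p ^ 2 ∣ n) ∧
    (EE k w w' n → 8 * (Y : ℝ) / (Real.log Y) ^ e ≤ n → n ≤ Y → 1 - 2 / Real.log Y ≤ ∑ b ∈ Ix Y e k w w', bB k w w' b n) := by
  classical
  obtain ⟨x0, hx0⟩ := r4_large (2 * e)
  refine ⟨x0, fun Y hY w w' hR n hn => ?_⟩
  obtain ⟨hl, hN, hs, hY0⟩ := hx0 Y hY
  rw [r4_sum]
  have hk' : (2 : ℝ) ≤ k := by exact_mod_cast hk
  have hk1 : 0 < (k : ℝ) - 1 := by linarith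
  refine ⟨⟨sum_nonneg fun x _ => r4_nonneg hk _ _ _ _, ?_⟩, ?_, ?_⟩
  · rw [← Finset.sum_filter_ne_zero]
    have h1 : ∀ x ∈ (r4T Y e k w w').filter (fun x => r4F k w w' n x ≠ 0),
        r4F k w w' n x ≤ 1 / ((k : ℝ) - 1) := by
      rintro ⟨⟨i, j, g⟩, p, r, m⟩ hx
      rw [mem_filter] at hx
      exact (r4_facts hk hR hl hN hs hx.1 hx.2).2.2.2.2.2.2.2.1
    have h2 := sum_le_card_nsmul _ _ _ h1
    refine h2.trans ?_
    rw [nsmul_eq_mul]
    have h3 := r4_card hk hR hl hN hs hn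
    have h4 : (((r4T Y e k w w').filter (fun x => r4F k w w' n x ≠ 0)).card : ℝ) ≤ (k : ℝ) - 1 := by
      have h5 : (((r4T Y e k w w').filter (fun x => r4F k w w' n x ≠ 0)).card : ℝ) ≤
        ((k - 1 : ℕ) : ℝ) := by exact_mod_cast h3
      rwa [Nat.cast_sub (by omega), Nat.cast_one] at h5
    calc (((r4T Y e k w w').filter (fun x => r4F k w w' n x ≠ 0)).card : ℝ) * (1 / ((k : ℝ) - 1)) ≤
        ((k : ℝ) - 1) * (1 / ((k : ℝ) - 1)) := mul_le_mul_of_nonneg_right h4 (by positivity)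
      _ = 1 := by field_simp
  · intro h
    obtain ⟨⟨⟨i, j, g⟩, p, r, m⟩, hx, hF⟩ := exists_ne_zero_of_sum_ne_zero h
    obtain ⟨e1, e2, e3, e4, e5, e6, e7, -, -, -, -⟩ := r4_facts hk hR hl hN hs hx hF
    by_cases hpm : p ∣ m
    · right
      refine ⟨p, e1, ?_⟩
      rw [← e7, sq]
      exact Dvd.dvd.mul_right (Nat.mul_dvd_mul_left p hpm) r
    · left
      exact r4_EE hk hR.h2 e1 e2 e3 e4 e5 e6 e7 hpm
  · intro hE h8 hnY
    obtain ⟨r, hr, hwr, hrn, hdec⟩ := r4_dec hk hE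
    obtain ⟨φ, hφ⟩ : ∃ φ : ℕ → (_ : ℕ × ℕ × ℕ) × (ℕ × ℕ × ℕ), φ = fun p =>
      ⟨(Nat.log 2 (p - 1), Nat.log 2 (n / r / p), Nat.log 2 (r - 1)), (p, r, n / r / p)⟩ := ⟨_, rfl⟩
    have hterm : ∀ p ∈ n.primeFactors.erase r, φ p ∈ r4T Y e k w w' ∧
        1 / ((k : ℝ) - 1) * (1 - 2 / Real.log Y) ≤ r4F k w w' n (φ p) := by
      intro p hp
      obtain ⟨d1, d2, d3, d4, d5⟩ := hdec p hp
      rw [hφ]
      exact r4_term hk hR hl hN hs hY0 d1 hr d3 d4 d5 d2 h8 hnY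
    have hinj : Set.InjOn φ (n.primeFactors.erase r : Finset ℕ) := by
      intro p _ p' _ h
      rw [hφ] at h
      have := congrArg (fun x : (_ : ℕ × ℕ × ℕ) × (ℕ × ℕ × ℕ) => x.2.1) h
      exact this
    have hcard : (n.primeFactors.erase r).card = k - 1 := by
      rw [card_erase_of_mem hrn, hE.2.1]
    have hsub : (n.primeFactors.erase r).image φ ⊆ r4T Y e k w w' := by
      intro x hx
      obtain ⟨p, hp, rfl⟩ := mem_image.1 hx
      exact (hterm p hp).1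
    have h1 : ∑ x ∈ (n.primeFactors.erase r).image φ, r4F k w w' n x ≤
        ∑ x ∈ r4T Y e k w w', r4F k w w' n x :=
      sum_le_sum_of_subset_of_nonneg hsub fun x _ _ => r4_nonneg hk _ _ _ _
    rw [sum_image hinj] at h1
    have h2 := card_nsmul_le_sum _ _ _ fun p hp => (hterm p hp).2
    rw [hcard, nsmul_eq_mul, Nat.cast_sub (by omega), Nat.cast_one] at h2
    have h3 : ((k : ℝ) - 1) * (1 / ((k : ℝ) - 1) * (1 - 2 / Real.log Y)) = 1 - 2 / Real.log Y := by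
      field_simp
    linarith

end Pool.Agent.Lib.G5
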