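import Pool.Agent.Lib.G5.R4

/-!
# G5, row R5 (general variant of Q5: copy G5/Q5.lean, with `r4` in place of `q4`)
-/

set_option autoImplicit false

open Finset

namespace Pool.Agent.Lib.G5

private theorem r5_lp_nonneg (n : ℕ) : 0 ≤ G3.lp n := by
  unfold G3.lp
  split_ifs with h
  · exact Real.log_nonneg (by exact_mod_cast h.one_lt.le)
  · exact le_rfl

private theorem r5_lp_le {n N : ℕ} (h : n < N) : G3.lp n ≤ Real.log N := by
  have hN : (1 : ℝ) ≤ N := by exact_mod_cast (by omega : 1 ≤ N)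
  unfold G3.lp
  split_ifs with hp
  · exact Real.log_le_log (by exact_mod_cast hp.pos) (by exact_mod_cast h.le)
  · exact Real.log_nonneg hN

/-- the sum over the blocks as one sum over the primes `p = N - n` -/
private theorem r5_sum (k w w' Y N : ℕ) : ∑ b ∈ Ix Y 3 k w w', WB k w w' b N =
    ∑ p ∈ range N, (∑ b ∈ Ix Y 3 k w w', bB k w w' b (N - p)) * G3.lp p := by
  have h1 : ∑ b ∈ Ix Y 3 k w w', WB k w w' b N =
      ∑ n ∈ Icc 1 N, (∑ b ∈ Ix Y 3 k w w', bB k w w' b n) * G3.lp (N - n) := by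
    unfold WB WS bB
    rw [sum_comm]
    refine sum_congr rfl fun n _ => ?_
    rw [sum_mul]
  rw [h1]
  refine sum_nbij' (fun n => N - n) (fun p => N - p) ?_ ?_ ?_ ?_ ?_
  · intro n hn
    rw [mem_Icc] at hn
    rw [mem_range]
    omega
  · intro p hp
    rw [mem_range] at hp
    rw [mem_Icc]
    omega
  · intro n hn
    rw [mem_Icc] at hn
    omega
  · intro p hp
    rw [mem_range] at hp
    omega
  · intro n hn
    rw [mem_Icc] at hn
    rw [show N - (N - n) = n by omega]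

/-- the numbers divisible by the square of a prime of `(w, w']` are few -/
private theorem r5_sq (w w' N : ℕ) (hw : 1 ≤ w) (s : Finset ℕ)
    (hs : ∀ p ∈ s, p < N ∧ ∃ q ∈ PP w w', q ^ 2 ∣ N - p) : (s.card : ℝ) ≤ 2 * N / w := by
  classical
  have hwr : (0 : ℝ) < w := by exact_mod_cast hw
  have h1 : s.card ≤ ((PP w w').biUnion fun q => (Ioc 0 N).filter fun x => q ^ 2 ∣ x).card := by
    refine card_le_card_of_injOn (fun p => N - p) ?_ ?_
    · intro p hp
      obtain ⟨h2, q, hq, h3⟩ := hs p (by simpa using hp)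
      simp only [coe_biUnion, Set.mem_iUnion, coe_filter, Set.mem_ofPred_eq, mem_Ioc, exists_prop]
      exact ⟨q, by simpa using hq, ⟨by omega, by omega⟩, h3⟩
    · intro p hp p' hp' h
      have h2 := (hs p (by simpa using hp)).1
      have h3 := (hs p' (by simpa using hp')).1
      simp only at h
      omega
  have h2 : (((PP w w').biUnion fun q => (Ioc 0 N).filter fun x => q ^ 2 ∣ x).card : ℝ) ≤ ∑ q ∈ PP w w', (N : ℝ) * ((q : ℝ) ^ 2)⁻¹ := by
    refine (Nat.cast_le.2 (card_biUnion_le (s := PP w w') (t := fun q => (Ioc 0 N).filter fun x => q ^ 2 ∣ x))).trans ?_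
    rw [Nat.cast_sum]
    refine sum_le_sum fun q _ => ?_
    rw [Nat.Ioc_filter_dvd_card_eq_div]
    refine Nat.cast_div_le.trans ?_
    rw [Nat.cast_pow, div_eq_mul_inv]
  have h3 : ∑ q ∈ PP w w', ((q : ℝ) ^ 2)⁻¹ ≤ ∑ q ∈ Ioo w (w' + 1), ((q : ℝ) ^ 2)⁻¹ := by
    refine sum_le_sum_of_subset_of_nonneg ?_ fun _ _ _ => by positivity
    intro q hq
    unfold PP at hq
    rw [mem_filter, mem_Ioc] at hq
    rw [mem_Ioo]
    omega
  have h4 := sum_Ioo_inv_sq_le (α := ℝ) w (w' + 1)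
  have h5 : (2 : ℝ) / (w + 1) ≤ 2 / w := by
    apply div_le_div_of_nonneg_left (by norm_num) hwr
    linarith
  rw [← mul_sum] at h2
  calc (s.card : ℝ) ≤ _ := Nat.cast_le.2 h1
    _ ≤ _ := h2
    _ ≤ N * (2 / w) := by
        refine mul_le_mul_of_nonneg_left ?_ (Nat.cast_nonneg _)
        linarith
    _ = 2 * N / w := by ring

/-- the conditions on `l = log Y` -/
private theorem r5_large (ε : ℝ) (hε : 0 < ε) : ∃ x0 : ℝ, ∀ Y : ℝ, x0 ≤ Y → 1 ≤ Y ∧ 6 ≤ Real.log Y ∧ 2 / Real.log Y ≤ ε ∧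
    18 / Real.log Y ^ 2 ≤ ε ∧ 10 / Real.log Y ≤ ε ∧ Real.sqrt Y + 1 ≤ Y / Real.log Y ^ 3 ∧
    3 * Real.log (Real.log Y) ≤ Real.log Y / 4 ∧
    Real.log Y ≤ (1 + ε) * ((1 - 2 / Real.log Y) * (Real.log Y - 3 * Real.log (Real.log Y))) := by
  have hl := Real.tendsto_log_atTop
  have h1 : ∀ᶠ Y : ℝ in Filter.atTop, 1 ≤ Y := Filter.eventually_ge_atTop 1
  have h2 : ∀ᶠ Y : ℝ in Filter.atTop, 6 ≤ Real.log Y := hl.eventually_ge_atTop 6
  have h3 : ∀ᶠ Y : ℝ in Filter.atTop, 2 / ε ≤ Real.log Y := hl.eventually_ge_atTop _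
  have h4 : ∀ᶠ Y : ℝ in Filter.atTop, 18 / ε ≤ Real.log Y := hl.eventually_ge_atTop _
  have h5 : ∀ᶠ Y : ℝ in Filter.atTop, 10 / ε ≤ Real.log Y := hl.eventually_ge_atTop _
  have hll : Filter.Tendsto (fun x : ℝ => Real.log x / x) Filter.atTop (nhds 0) := by
    have := Real.tendsto_pow_log_div_mul_add_atTop 1 0 1 one_ne_zero
    simpa using this
  have hlY : Filter.Tendsto (fun Y : ℝ => Real.log (Real.log Y) / Real.log Y) Filter.atTop (nhds 0) := hll.comp hl
  have h7 : ∀ᶠ Y : ℝ in Filter.atTop, Real.log (Real.log Y) / Real.log Y ≤ 1 / 12 :=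
    (hlY.eventually_lt_const (by norm_num : (0 : ℝ) < 1 / 12)).mono fun _ h => h.le
  have h8 : ∀ᶠ Y : ℝ in Filter.atTop,
      1 ≤ (1 + ε) * ((1 - 2 / Real.log Y) * (1 - 3 * (Real.log (Real.log Y) / Real.log Y))) := by
    have h9 : Filter.Tendsto (fun Y : ℝ => 2 / Real.log Y) Filter.atTop (nhds 0) :=
      hl.const_div_atTop 2
    have h10 : Filter.Tendsto (fun Y : ℝ => (1 + ε) * ((1 - 2 / Real.log Y) * (1 - 3 * (Real.log (Real.log Y) / Real.log Y))))
        Filter.atTop (nhds ((1 + ε) * ((1 - 0) * (1 - 3 * 0)))) :=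
      ((h9.const_sub 1).mul ((hlY.const_mul 3).const_sub 1)).const_mul (1 + ε)
    refine (h10.eventually_const_lt ?_).mono fun _ h => h.le
    linarith
  have h6 : ∀ᶠ Y : ℝ in Filter.atTop, 2 * Real.log Y ^ 3 ≤ Real.sqrt Y := by
    have h9 : (fun x : ℝ => Real.log x ^ (3 : ℝ)) =o[Filter.atTop] fun x : ℝ => x ^ (1 / 2 : ℝ) :=
      isLittleO_log_rpow_rpow_atTop 3 (by norm_num)
    have h10 := h9.bound (c := 1 / 2) (by norm_num)
    filter_upwards [h10, h1, h2] with Y hY hY1 hY2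
    rw [Real.norm_of_nonneg (Real.rpow_nonneg (by linarith) _), Real.norm_of_nonneg (Real.rpow_nonneg (by linarith) _),
      ← Real.sqrt_eq_rpow] at hY
    have h11 : Real.log Y ^ (3 : ℝ) = Real.log Y ^ 3 := by
      rw [← Real.rpow_natCast]
      norm_num
    rw [h11] at hY
    linarith
  obtain ⟨x0, hx0⟩ := Filter.eventually_atTop.1 (h1.and (h2.and (h3.and (h4.and (h5.and (h6.and (h7.and h8)))))))
  refine ⟨x0, fun Y hY => ?_⟩
  obtain ⟨g1, g2, g3, g4, g5, g6, g7, g8⟩ := hx0 Y hY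
  have hlpos : 0 < Real.log Y := by linarith
  refine ⟨g1, g2, ?_, ?_, ?_, ?_, ?_, ?_⟩
  · rw [div_le_iff₀ hε] at g3
    rw [div_le_iff₀ hlpos]
    linarith
  · rw [div_le_iff₀ hε] at g4
    rw [div_le_iff₀ (by positivity)]
    nlinarith [mul_pos hε hlpos]
  · rw [div_le_iff₀ hε] at g5
    rw [div_le_iff₀ hlpos]
    linarith
  · have hs : 1 ≤ Real.sqrt Y := by
      rw [Real.one_le_sqrt]
      exact g1
    rw [le_div_iff₀ (by positivity)]
    have hss : Real.sqrt Y * Real.sqrt Y = Y := Real.mul_self_sqrt (by linarith)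
    calc (Real.sqrt Y + 1) * Real.log Y ^ 3 ≤ (2 * Real.sqrt Y) * Real.log Y ^ 3 := by
          refine mul_le_mul_of_nonneg_right (by linarith) (by positivity)
      _ = Real.sqrt Y * (2 * Real.log Y ^ 3) := by ring
      _ ≤ Real.sqrt Y * Real.sqrt Y := mul_le_mul_of_nonneg_left g6 (by positivity)
      _ = Y := hss
  · rw [div_le_iff₀ hlpos] at g7
    linarith
  · have e1 : (1 + ε) * ((1 - 2 / Real.log Y) * (Real.log Y - 3 * Real.log (Real.log Y))) =
        ((1 + ε) * ((1 - 2 / Real.log Y) * (1 - 3 * (Real.log (Real.log Y) / Real.log Y)))) * Real.log Y := by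
      field_simp
    rw [e1]
    nlinarith

/-- the comparison, for a function `F` with the properties of row Q4 -/
private theorem r5_main (k w w' Y N : ℕ) (ε : ℝ) (F : ℕ → ℝ)
    (hF0 : ∀ n, 1 ≤ n → 0 ≤ F n ∧ F n ≤ 1)
    (hF1 : ∀ n, 1 ≤ n → F n ≠ 0 → EE k w w' n ∨ ∃ p ∈ PP w w', p ^ 2 ∣ n)
    (hF2 : ∀ n, 1 ≤ n → EE k w w' n → 8 * (Y : ℝ) / (Real.log Y) ^ 3 ≤ n → n ≤ Y → 1 - 2 / Real.log Y ≤ F n)
    (hw : (Real.log Y) ^ 4 ≤ w) (hYN : Y < N) (hN : (N : ℝ) ≤ Y + Real.sqrt Y)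
    (hε : 0 < ε) (g1 : (1 : ℝ) ≤ Y) (g2 : 6 ≤ Real.log Y) (g3 : 2 / Real.log Y ≤ ε)
    (g4 : 18 / Real.log Y ^ 2 ≤ ε) (g5 : 10 / Real.log Y ≤ ε) (g6 : Real.sqrt Y + 1 ≤ Y / Real.log Y ^ 3)
    (g7 : 3 * Real.log (Real.log Y) ≤ Real.log Y / 4)
    (g8 : Real.log Y ≤ (1 + ε) * ((1 - 2 / Real.log Y) * (Real.log Y - 3 * Real.log (Real.log Y)))) :
    |∑ p ∈ range N, F (N - p) * G3.lp p - Real.log Y * TT k w w' N| ≤
      ε * (|∑ p ∈ range N, F (N - p) * G3.lp p| + Y / Real.log Y) := by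
  classical
  set l := Real.log Y with hl
  set W := ∑ p ∈ range N, F (N - p) * G3.lp p with hW
  have hlpos : 0 < l := by linarith
  have hYpos : (0 : ℝ) < Y := by linarith
  have hterm : ∀ p ∈ range N, 0 ≤ F (N - p) * G3.lp p := by
    intro p hp
    rw [mem_range] at hp
    exact mul_nonneg (hF0 _ (by omega)).1 (r5_lp_nonneg p)
  have hW0 : 0 ≤ W := sum_nonneg hterm
  rw [abs_of_nonneg hW0]
  -- `log N ≤ l + 1`
  have hsq : Real.sqrt Y ≤ Y := by
    rw [Real.sqrt_le_left (by linarith)]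
    nlinarith
  have hN2 : (N : ℝ) ≤ 2 * Y := by linarith
  have hlogN : Real.log N ≤ l + 1 := by
    have h1 : (0 : ℝ) < N := by exact_mod_cast (by omega : 0 < N)
    have h2 := Real.log_le_log h1 hN2
    rw [Real.log_mul (by norm_num) hYpos.ne'] at h2
    have h3 := Real.log_two_lt_d9
    linarith
  have hlogN0 : 0 ≤ Real.log N := Real.log_nonneg (by exact_mod_cast (by omega : 1 ≤ N))
  -- the set counted by `TT`
  set ST := (range N).filter fun p => p.Prime ∧ EE k w w' (N - p) with hST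
  have hTT : TT k w w' N = ST.card := by
    rw [hST]
    unfold TT EE
    congr 1
    ext p
    simp only [mem_filter]
  rw [hTT]
  set T : ℝ := (ST.card : ℝ) with hT
  have hT0 : 0 ≤ T := Nat.cast_nonneg _
  -- (1) the upper bound for `W`
  set SB := (range N).filter fun p => ∃ q ∈ PP w w', q ^ 2 ∣ N - p with hSB
  have hw1 : (1 : ℝ) ≤ w := by
    have h1 : (1 : ℝ) ≤ l ^ 4 := one_le_pow₀ (by linarith)
    linarith
  have hB : (SB.card : ℝ) ≤ 4 * Y / l ^ 4 := by
    have h1 := r5_sq w w' N (by exact_mod_cast hw1) SB (by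
      intro p hp
      rw [hSB, mem_filter, mem_range] at hp
      exact hp)
    refine h1.trans ?_
    rw [div_le_div_iff₀ (by linarith) (by positivity)]
    have h2 : 2 * (N : ℝ) ≤ 4 * Y := by linarith
    have h3 : (0 : ℝ) ≤ 4 * Y := by linarith
    calc 2 * (N : ℝ) * l ^ 4 ≤ 4 * Y * l ^ 4 := mul_le_mul_of_nonneg_right h2 (by positivity)
      _ ≤ 4 * Y * w := mul_le_mul_of_nonneg_left hw h3
  have hup : W ≤ (T + SB.card) * Real.log N := by
    have h1 : W ≤ ∑ p ∈ range N, if p ∈ ST ∪ SB then Real.log N else 0 := by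
      refine sum_le_sum fun p hp => ?_
      rw [mem_range] at hp
      have hn : 1 ≤ N - p := by omega
      by_cases hmem : p ∈ ST ∪ SB
      · rw [if_pos hmem]
        calc F (N - p) * G3.lp p ≤ 1 * G3.lp p := mul_le_mul_of_nonneg_right (hF0 _ hn).2 (r5_lp_nonneg p)
          _ ≤ Real.log N := by
              rw [one_mul]
              exact r5_lp_le hp
      · rw [if_neg hmem]
        apply le_of_eq
        by_cases hpp : p.Prime
        · have h2 : F (N - p) = 0 := by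
            by_contra h3
            apply hmem
            rw [mem_union]
            rcases hF1 _ hn h3 with h4 | h4
            · left
              rw [hST, mem_filter, mem_range]
              exact ⟨hp, hpp, h4⟩
            · right
              rw [hSB, mem_filter, mem_range]
              exact ⟨hp, h4⟩
          rw [h2, zero_mul]
        · have h2 : G3.lp p = 0 := by
            unfold G3.lp
            rw [if_neg hpp]
          rw [h2, mul_zero]
    have h2 : ∑ p ∈ range N, (if p ∈ ST ∪ SB then Real.log N else 0) = ((ST ∪ SB).card : ℝ) * Real.log N := by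
      rw [← sum_filter, sum_const, nsmul_eq_mul]
      congr 2
      congr 1
      ext p
      rw [mem_filter]
      refine ⟨fun h => h.2, fun h => ⟨?_, h⟩⟩
      rw [mem_union] at h
      rcases h with h | h
      · exact (mem_filter.1 h).1
      · exact (mem_filter.1 h).1
    rw [h2] at h1
    refine h1.trans (mul_le_mul_of_nonneg_right ?_ hlogN0)
    have h3 : ((ST ∪ SB).card : ℝ) ≤ ((ST.card + SB.card : ℕ) : ℝ) := Nat.cast_le.2 (card_union_le _ _)
    rw [Nat.cast_add] at h3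
    exact h3
  -- (2) the lower bound
  set S' := ST.filter fun p => 8 * (Y : ℝ) / l ^ 3 ≤ ((N - p : ℕ) : ℝ) ∧ N - p ≤ Y ∧ (Y : ℝ) / l ^ 3 ≤ p with hS'
  set T' : ℝ := (S'.card : ℝ) with hT'
  have hT'0 : 0 ≤ T' := Nat.cast_nonneg _
  have hYl : 0 ≤ (Y : ℝ) / l ^ 3 := by positivity
  have h8Yl : 0 ≤ 8 * (Y : ℝ) / l ^ 3 := by positivity
  have hTT' : T ≤ T' + 10 * (Y / l ^ 3) := by
    set S1 := (range N).filter fun p => ((N - p : ℕ) : ℝ) < 8 * (Y : ℝ) / l ^ 3 with hS1
    set S2 := (range N).filter fun p => Y < N - p with hS2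
    set S3 := (range N).filter fun p : ℕ => (p : ℝ) < (Y : ℝ) / l ^ 3 with hS3
    have hsub : ST ⊆ S' ∪ (S1 ∪ (S2 ∪ S3)) := by
      intro p hp
      have hpr : p ∈ range N := (mem_filter.1 hp).1
      by_cases a1 : 8 * (Y : ℝ) / l ^ 3 ≤ ((N - p : ℕ) : ℝ)
      · by_cases a2 : N - p ≤ Y
        · by_cases a3 : (Y : ℝ) / l ^ 3 ≤ p
          · exact mem_union_left _ (mem_filter.2 ⟨hp, a1, a2, a3⟩)
          · exact mem_union_right _ (mem_union_right _ (mem_union_right _ (mem_filter.2 ⟨hpr, not_le.1 a3⟩)))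
        · exact mem_union_right _ (mem_union_right _ (mem_union_left _ (mem_filter.2 ⟨hpr, not_le.1 a2⟩)))
      · exact mem_union_right _ (mem_union_left _ (mem_filter.2 ⟨hpr, not_le.1 a1⟩))
    have hc : ST.card ≤ S'.card + (S1.card + (S2.card + S3.card)) := by
      refine (card_le_card hsub).trans ((card_union_le _ _).trans ?_)
      refine Nat.add_le_add_left ((card_union_le _ _).trans ?_) _
      exact Nat.add_le_add_left (card_union_le _ _) _
    have hc1 : (S1.card : ℝ) ≤ 8 * (Y : ℝ) / l ^ 3 := by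
      have h1 : S1.card ≤ (Icc 1 ⌊8 * (Y : ℝ) / l ^ 3⌋₊).card := by
        refine card_le_card_of_injOn (fun p => N - p) ?_ ?_
        · intro p hp
          have hp' : p ∈ S1 := by simpa using hp
          rw [hS1, mem_filter, mem_range] at hp'
          have h2 : N - p ∈ Icc 1 ⌊8 * (Y : ℝ) / l ^ 3⌋₊ := by
            rw [mem_Icc]
            exact ⟨by omega, Nat.le_floor hp'.2.le⟩
          simpa using h2
        · intro p hp p' hp' h
          have h1 : p ∈ S1 := by simpa using hp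
          have h2 : p' ∈ S1 := by simpa using hp'
          rw [hS1, mem_filter, mem_range] at h1 h2
          simp only at h
          omega
      rw [Nat.card_Icc, Nat.add_sub_cancel] at h1
      exact (Nat.cast_le.2 h1).trans (Nat.floor_le h8Yl)
    have hc2 : (S2.card : ℝ) ≤ Real.sqrt Y := by
      have h1 : S2 ⊆ range (N - Y) := by
        intro p hp
        rw [hS2, mem_filter, mem_range] at hp
        rw [mem_range]
        omega
      have h2 := card_le_card h1
      rw [card_range] at h2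
      have h3 : (S2.card : ℝ) ≤ ((N - Y : ℕ) : ℝ) := Nat.cast_le.2 h2
      rw [Nat.cast_sub hYN.le] at h3
      linarith
    have hc3 : (S3.card : ℝ) ≤ (Y : ℝ) / l ^ 3 + 1 := by
      have h1 : S3 ⊆ range ⌈(Y : ℝ) / l ^ 3⌉₊ := by
        intro p hp
        rw [hS3, mem_filter] at hp
        rw [mem_range]
        exact Nat.lt_ceil.2 hp.2
      have h2 := card_le_card h1
      rw [card_range] at h2
      exact (Nat.cast_le.2 h2).trans (Nat.ceil_lt_add_one hYl).le
    have hc' : T ≤ T' + ((S1.card : ℝ) + ((S2.card : ℝ) + (S3.card : ℝ))) := by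
      have := (Nat.cast_le (α := ℝ)).2 hc
      push_cast at this
      exact this
    have h9 : 8 * (Y : ℝ) / l ^ 3 = 8 * (Y / l ^ 3) := by ring
    rw [h9] at hc1
    linarith
  have hllog : Real.log (l ^ 3) = 3 * Real.log l := by
    rw [Real.log_pow]
    norm_num
  have hfac0 : 0 ≤ 1 - 2 / l := by
    have : 2 / l ≤ 1 := by
      rw [div_le_one hlpos]
      linarith
    linarith
  have hlow : T' * ((1 - 2 / l) * (l - 3 * Real.log l)) ≤ W := by
    have h1 : ∑ p ∈ S', (1 - 2 / l) * (l - 3 * Real.log l) ≤ ∑ p ∈ S', F (N - p) * G3.lp p := by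
      refine sum_le_sum fun p hp => ?_
      rw [hS', mem_filter] at hp
      obtain ⟨hpT, a1, a2, a3⟩ := hp
      rw [hST, mem_filter, mem_range] at hpT
      obtain ⟨hpN, hpp, hEE⟩ := hpT
      have h2 := hF2 (N - p) (by omega) hEE a1 a2
      have h3 : l - 3 * Real.log l ≤ G3.lp p := by
        unfold G3.lp
        rw [if_pos hpp]
        have h4 : 0 < (Y : ℝ) / l ^ 3 := by positivity
        have h5 := Real.log_le_log h4 a3
        rw [Real.log_div hYpos.ne' (by positivity), hllog] at h5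
        exact h5
      have h4 : 0 ≤ l - 3 * Real.log l := by linarith
      exact mul_le_mul h2 h3 h4 (hfac0.trans h2)
    rw [sum_const, nsmul_eq_mul] at h1
    refine h1.trans ?_
    refine sum_le_sum_of_subset_of_nonneg ?_ fun p hp _ => hterm p hp
    intro p hp
    exact (mem_filter.1 (mem_filter.1 hp).1).1
  -- conclusion
  have hX : 0 ≤ (Y : ℝ) / l := by positivity
  have hlT' : l * T' ≤ (1 + ε) * W := by
    calc l * T' ≤ (1 + ε) * ((1 - 2 / l) * (l - 3 * Real.log l)) * T' := mul_le_mul_of_nonneg_right g8 hT'0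
      _ = (1 + ε) * (T' * ((1 - 2 / l) * (l - 3 * Real.log l))) := by ring
      _ ≤ (1 + ε) * W := mul_le_mul_of_nonneg_left hlow (by linarith)
  have hfac : l / 2 ≤ (1 - 2 / l) * (l - 3 * Real.log l) := by
    have h1 : 2 / 3 ≤ 1 - 2 / l := by
      have : 2 / l ≤ 1 / 3 := by
        rw [div_le_div_iff₀ hlpos (by norm_num)]
        linarith
      linarith
    have h2 : 3 / 4 * l ≤ l - 3 * Real.log l := by linarith
    calc l / 2 = 2 / 3 * (3 / 4 * l) := by ring
      _ ≤ (1 - 2 / l) * (l - 3 * Real.log l) := mul_le_mul h1 h2 (by positivity) hfac0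
  have hT'W : T' ≤ 2 / l * W := by
    have h1 : T' * (l / 2) ≤ W := (mul_le_mul_of_nonneg_left hfac hT'0).trans hlow
    rw [div_mul_eq_mul_div, le_div_iff₀ hlpos]
    linarith
  have hY3 : 18 * (Y / l ^ 3) ≤ ε * (Y / l) := by
    have e1 : 18 * ((Y : ℝ) / l ^ 3) = 18 / l ^ 2 * (Y / l) := by
      field_simp
    rw [e1]
    exact mul_le_mul_of_nonneg_right g4 hX
  have hY2 : l * (10 * (Y / l ^ 3)) ≤ ε * (Y / l) := by
    have e1 : l * (10 * ((Y : ℝ) / l ^ 3)) = 10 / l * (Y / l) := by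
      field_simp
    rw [e1]
    exact mul_le_mul_of_nonneg_right g5 hX
  have hWε : 2 / l * W ≤ ε * W := mul_le_mul_of_nonneg_right g3 hW0
  rw [abs_le]
  constructor
  · -- `l T - W` is small
    have h1 : l * T ≤ l * T' + l * (10 * (Y / l ^ 3)) := by
      rw [← mul_add]
      exact mul_le_mul_of_nonneg_left hTT' hlpos.le
    nlinarith
  · -- `W - l T` is small
    have h1 : W ≤ (T + 4 * Y / l ^ 4) * (l + 1) := by
      refine hup.trans (mul_le_mul (by linarith) hlogN hlogN0 (by positivity))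
    have h2 : 4 * (Y : ℝ) / l ^ 4 * (l + 1) ≤ 8 * (Y / l ^ 3) := by
      have h3 : (l + 1) / l ≤ 2 := by
        rw [div_le_iff₀ hlpos]
        linarith
      have e1 : 4 * (Y : ℝ) / l ^ 4 * (l + 1) = (l + 1) / l * (4 * (Y / l ^ 3)) := by
        field_simp
      rw [e1]
      calc (l + 1) / l * (4 * ((Y : ℝ) / l ^ 3)) ≤ 2 * (4 * (Y / l ^ 3)) := mul_le_mul_of_nonneg_right h3 (by positivity)
        _ = 8 * (Y / l ^ 3) := by ring
    have h3 : W ≤ l * T + T + 8 * (Y / l ^ 3) := by nlinarith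
    nlinarith

theorem r5 (k c1 : ℕ) (hk : 2 ≤ k) (hc1 : 3 ≤ c1) (ε : ℝ) (hε : 0 < ε) : ∃ x0 : ℝ, ∀ Y : ℕ, x0 ≤ Y → ∀ w w' : ℕ,
    Rg2 Y w w' c1 (1000 * k) → ∀ N : ℕ, Y < N → (N : ℝ) ≤ Y + Real.sqrt Y →
      |∑ b ∈ Ix Y 3 k w w', WB k w w' b N - Real.log Y * TT k w w' N| ≤
        ε * (|∑ b ∈ Ix Y 3 k w w', WB k w w' b N| + Y / Real.log Y) := by
  obtain ⟨x1, hx1⟩ := r4 k 3 c1 hk
  obtain ⟨x2, hx2⟩ := r5_large ε hε
  refine ⟨max x1 x2, fun Y hY w w' hR N hYN hN => ?_⟩
  obtain ⟨g1, g2, g3, g4, g5, g6, g7, g8⟩ := hx2 Y ((le_max_right _ _).trans hY)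
  have h4 := hx1 Y ((le_max_left _ _).trans hY) w w' hR
  have hw : (Real.log Y) ^ 4 ≤ w := by
    refine le_trans ?_ hR.h1
    exact pow_le_pow_right₀ (by linarith) (by omega)
  rw [r5_sum]
  exact r5_main k w w' Y N ε (fun n => ∑ b ∈ Ix Y 3 k w w', bB k w w' b n) (fun n hn => (h4 n hn).1) (fun n hn => (h4 n hn).2.1)
    (fun n hn => (h4 n hn).2.2) hw hYN hN hε g1 g2 g3 g4 g5 g6 g7 g8

end Pool.Agent.Lib.G5
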