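import Pool.Agent.Lib.G5.AsyG
import Pool.Agent.Lib.G5.R0
import Pool.Agent.Lib.G5.R3
import Pool.Agent.Lib.G5.R5
import Pool.Agent.Lib.G5.Q8
import Pool.Agent.Lib.G5.Q6

/-!
# G5, row R6 (general variant of Q6: copy G5/Q6.lean; `q6_num` may be used)

PROOF IN WORDS. As Q6 with `asyG (A+8) 3`, `r0`, `r3`, `r5`: the window condition of a block is `P l^C ≤ H`, and `P = 2^i ≤ w'` (third part of r0). `M = max (M of r3) (1000 k)`
(`w' ^ M ≤ Y` implies `w'^(1000 k) ≤ Y` and `w'^(M of r3) ≤ Y` as `w' ≥ 1`). `C` comes before `ε`.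
-/

set_option autoImplicit false

open Finset

namespace Pool.Agent.Lib.G5

open Pool.Agent.Lib.G3 (SS)

theorem r6 (k A : ℕ) (hk : 2 ≤ k) : ∃ c10 : ℕ, ∀ c1 : ℕ, c10 ≤ c1 → ∃ C : ℕ, ∀ ε : ℝ, 0 < ε → ∃ (M : ℕ) (x0 : ℝ), ∀ Y : ℕ, x0 ≤ Y →
    ∀ w w' : ℕ, Rg2 Y w w' c1 M → ∀ H : ℕ, (w' : ℝ) * (Real.log Y) ^ C ≤ H → 2 * (H : ℝ) ≤ Real.sqrt Y →
      (((Ioc Y (Y + H)).filter fun N => Even N ∧ ε * (SS N * (1 + sgK k w w') * (Y / (Real.log Y) ^ 2)) <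
        |(TT k w w' N : ℝ) - SS N * sgK k w w' * (Y / (Real.log Y) ^ 2)|).card : ℝ) ≤ H / (Real.log Y) ^ A := by
  obtain ⟨c10, hc10⟩ := asyG (A + 8) 3
  refine ⟨max c10 3, fun c1 hc1 => ?_⟩
  obtain ⟨C, x1, hA⟩ := hc10 c1 (le_trans (le_max_left _ _) hc1)
  refine ⟨C, fun ε hε => ?_⟩
  have hc3 : 3 ≤ c1 := le_trans (le_max_right _ _) hc1
  obtain ⟨x2, h0⟩ := r0 k 3 c1 hk
  obtain ⟨e, he⟩ : ∃ e : ℝ, e = min ε 1 / 6 := ⟨_, rfl⟩
  have he0 : 0 < e := by rw [he]; positivity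
  have he1 : e ≤ 1 := by
    have : min ε 1 ≤ 1 := min_le_right _ _
    rw [he]; linarith
  have heε : 6 * e ≤ ε := by
    have : min ε 1 ≤ ε := min_le_left _ _
    rw [he]; linarith
  obtain ⟨M3, x3, h3⟩ := r3 k 3 c1 hk (by norm_num) e he0
  obtain ⟨x4, h5⟩ := r5 k c1 hk hc3 e he0
  refine ⟨max M3 (1000 * k), max x1 (max x2 (max x3 (max x4 (Real.exp (max 1 (1 / e)))))), ?_⟩
  intro Y hY w w' hR0 H hH hH2
  simp only [max_le_iff] at hY
  obtain ⟨y1, y2, y3, y4, y5⟩ := hY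
  have hY0 : (0 : ℝ) < Y := lt_of_lt_of_le (Real.exp_pos _) y5
  have hl : max 1 (1 / e) ≤ Real.log Y := (Real.le_log_iff_exp_le hY0).2 y5
  obtain ⟨l, hll⟩ : ∃ l : ℝ, l = Real.log Y := ⟨_, rfl⟩
  have hl1 : 1 ≤ l := by rw [hll]; exact (le_max_left _ _).trans hl
  have hl2 : 1 / e ≤ l := by rw [hll]; exact (le_max_right _ _).trans hl
  have hl0 : 0 < l := by linarith
  have hw1 : 1 ≤ w' := by
    have h1 := hR0.h1
    rw [← hll] at h1
    have h2 : (1 : ℝ) ≤ w := le_trans (one_le_pow₀ hl1) h1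
    have h3 : 1 ≤ w := by exact_mod_cast h2
    exact h3.trans hR0.h2
  have hR3 : Rg2 Y w w' c1 M3 :=
    ⟨hR0.h1, hR0.h2, (Nat.pow_le_pow_right hw1 (le_max_left _ _)).trans hR0.h3⟩
  have hR : Rg2 Y w w' c1 (1000 * k) :=
    ⟨hR0.h1, hR0.h2, (Nat.pow_le_pow_right hw1 (le_max_right _ _)).trans hR0.h3⟩
  obtain ⟨hB, hcard, hPw⟩ := h0 Y y2 w w' hR
  rw [← hll] at hcard
  -- the exceptional set
  have hsub : ((Ioc Y (Y + H)).filter fun N => Even N ∧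
      ε * (SS N * (1 + sgK k w w') * (Y / (Real.log Y) ^ 2)) <
        |(TT k w w' N : ℝ) - SS N * sgK k w w' * (Y / (Real.log Y) ^ 2)|) ⊆
      (Ix Y 3 k w w').biUnion fun b => (Ioc Y (Y + H)).filter fun N =>
        (Y : ℝ) / (Real.log Y) ^ (A + 8) <
          |WS (SI w w' b.1) (aS k w w') (2 ^ b.2.2) (2 ^ b.2.1) N -
            SS N * DD (SI w w' b.1) (aS k w w') (2 ^ b.2.2) (2 ^ b.2.1) N| := by
    intro N hN
    rw [mem_filter] at hN
    obtain ⟨hNI, hev, hbig⟩ := hN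
    by_contra hno
    apply absurd hbig
    rw [not_lt]
    have hgood : ∀ b ∈ Ix Y 3 k w w', |WB k w w' b N - SS N * DB k w w' b N| ≤ Y / l ^ (A + 8) := by
      intro b hb
      by_contra hlt
      rw [not_le] at hlt
      apply hno
      rw [mem_biUnion]
      refine ⟨b, hb, mem_filter.2 ⟨hNI, ?_⟩⟩
      rw [← hll]
      exact hlt
    have hN1 : Y < N := (mem_Ioc.1 hNI).1
    have hN2 : (N : ℝ) ≤ Y + Real.sqrt Y := by
      have h : (N : ℝ) ≤ Y + H := by exact_mod_cast (mem_Ioc.1 hNI).2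
      have : (0 : ℝ) ≤ H := Nat.cast_nonneg _
      linarith
    have q3' := h3 Y y3 w w' hR3 N hN1 hN2
    have q5' := h5 Y y4 w w' hR N hN1 hN2
    rw [← hll] at q3' q5'
    have hP : 0 < (Y : ℝ) / l := by positivity
    have hW1 : |∑ b ∈ Ix Y 3 k w w', WB k w w' b N - SS N * ∑ b ∈ Ix Y 3 k w w', DB k w w' b N| ≤
        e * (Y / l) := by
      rw [mul_sum, ← sum_sub_distrib]
      refine (abs_sum_le_sum_abs _ _).trans ?_
      refine (sum_le_sum hgood).trans ?_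
      rw [sum_const, nsmul_eq_mul]
      have hpos : (0 : ℝ) ≤ Y / l ^ (A + 8) := by positivity
      refine (mul_le_mul_of_nonneg_right hcard hpos).trans ?_
      have hAe : (1 : ℝ) ≤ l ^ A := one_le_pow₀ hl1
      have hl3 : 1 ≤ e * l := by
        rw [div_le_iff₀ he0] at hl2; linarith
      have hll2 : (1 : ℝ) ≤ l ^ 2 := one_le_pow₀ hl1
      rw [← mul_div_assoc, div_le_iff₀ (by positivity)]
      have e1 : e * (Y / l) * l ^ (A + 8) = (Y * l ^ 4) * ((e * l) * l ^ 2 * l ^ A) := by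
        field_simp
        ring
      rw [e1]
      have h9 : (1 : ℝ) ≤ (e * l) * l ^ 2 * l ^ A := by
        have h8 : (1 : ℝ) ≤ (e * l) * l ^ 2 := one_le_mul_of_one_le_of_one_le hl3 hll2
        exact one_le_mul_of_one_le_of_one_le h8 hAe
      calc l ^ 4 * (Y : ℝ) = (Y * l ^ 4) * 1 := by ring
        _ ≤ (Y * l ^ 4) * ((e * l) * l ^ 2 * l ^ A) := by gcongr
    have hmain := q6_num hP (q8 N hev) he0 he1 heε hW1 q3' q5'
    rw [← hll]
    have e2 : (TT k w w' N : ℝ) - SS N * sgK k w w' * (Y / l ^ 2) =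
        (l * (TT k w w' N : ℝ) - SS N * sgK k w w' * (Y / l)) / l := by
      field_simp
    rw [e2, abs_div, abs_of_pos hl0, div_le_iff₀ hl0]
    refine hmain.trans (le_of_eq ?_)
    field_simp
  have hc := (card_le_card hsub).trans card_biUnion_le
  have hc' : ((((Ioc Y (Y + H)).filter fun N => Even N ∧
      ε * (SS N * (1 + sgK k w w') * (Y / (Real.log Y) ^ 2)) <
        |(TT k w w' N : ℝ) - SS N * sgK k w w' * (Y / (Real.log Y) ^ 2)|).card : ℕ) : ℝ) ≤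
      ∑ b ∈ Ix Y 3 k w w', (((Ioc Y (Y + H)).filter fun N =>
        (Y : ℝ) / (Real.log Y) ^ (A + 8) <
          |WS (SI w w' b.1) (aS k w w') (2 ^ b.2.2) (2 ^ b.2.1) N -
            SS N * DD (SI w w' b.1) (aS k w w') (2 ^ b.2.2) (2 ^ b.2.1) N|).card : ℝ) := by
    exact_mod_cast hc
  refine hc'.trans ?_
  have hterm : ∀ b ∈ Ix Y 3 k w w', (((Ioc Y (Y + H)).filter fun N =>
        (Y : ℝ) / (Real.log Y) ^ (A + 8) <
          |WS (SI w w' b.1) (aS k w w') (2 ^ b.2.2) (2 ^ b.2.1) N -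
            SS N * DD (SI w w' b.1) (aS k w w') (2 ^ b.2.2) (2 ^ b.2.1) N|).card : ℝ) ≤
        H / (Real.log Y) ^ (A + 8) := by
    intro b hb
    refine hA Y y1 (2 ^ b.1) (2 ^ b.2.2) (2 ^ b.2.1) (SI w w' b.1) (aS k w w') (hB b hb) H ?_ hH2
    refine le_trans (mul_le_mul_of_nonneg_right ?_ ?_) hH
    · exact_mod_cast hPw b hb
    · rw [← hll]
      positivity
  refine (sum_le_sum hterm).trans ?_
  rw [sum_const, nsmul_eq_mul, ← hll]
  have hpos : (0 : ℝ) ≤ H / l ^ (A + 8) := by positivity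
  refine (mul_le_mul_of_nonneg_right hcard hpos).trans ?_
  rw [← mul_div_assoc, div_le_div_iff₀ (by positivity) (by positivity)]
  have h4 : (1 : ℝ) ≤ l ^ 4 := one_le_pow₀ hl1
  have hH0 : (0 : ℝ) ≤ H := Nat.cast_nonneg _
  calc l ^ 4 * (H : ℝ) * l ^ A = (H * l ^ A * l ^ 4) * 1 := by ring
    _ ≤ (H * l ^ A * l ^ 4) * l ^ 4 := by gcongr
    _ = H * l ^ (A + 8) := by ring

end Pool.Agent.Lib.G5
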