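import Pool.Agent.Lib.G5.R6
import Pool.Agent.Lib.G5.Q1
import Pool.Agent.Lib.G5.Q2
import Pool.Agent.Lib.G3.FinA
import Pool.Agent.Lib.G5.Q8
import Pool.Agent.Lib.G5.Q9

/-!
# G5, row R9: the theorem with the thresholds `(log N)^c`, `(log N)^d`, `C` before `ε`, from `r6` (variant of Q7 and Q9)

PROOF IN WORDS. `c0 = max (c10 of r6 k (A+1) + 3) 4`, `c1 = c10`, `C1 = C` of r6, `D = ⌈d⌉₊ + 1`, `C = C1 + D + 2`. For `Y` large, `w = ⌊(log Y)^c⌋`, `w' = ⌊(log Y)^d⌋`: `Rg2 Y w w' c10 M`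
(`(log Y)^(c10+1) ≤ w`; `w'^M ≤ (log Y)^(D M) ≤ Y`), `w' (log Y)^C1 ≤ (log Y)^(D + C1) ≤ h` for `h = ⌈(log X)^(C-1)⌉`, `X ≤ Y ≤ 2X`. `sgK → κ` (private lemma q7_lim of Q7: copy it),
`N/(log N)^2` against `Y/(log Y)^2` (private q7_ab, q7_cmp: copy), then q9a for the thresholds at `N` as in Q9, then the cover as in Q9.
-/

set_option autoImplicit false

open Finset

namespace Pool.Agent.Lib.G5

open Pool.Agent.Lib.G3 (SS fin_cover)

/-- `N / (log N)^2` does not change much in a short window -/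
private theorem r9_ab {Y N : ℕ} (hY : 9 ≤ Y) (h1 : Y < N) (h2 : (N : ℝ) ≤ Y + Real.sqrt Y) :
    |(N : ℝ) / (Real.log N) ^ 2 - Y / (Real.log Y) ^ 2| ≤ 2 / Real.sqrt Y * (Y / (Real.log Y) ^ 2) := by
  have hY9 : (9 : ℝ) ≤ Y := by exact_mod_cast hY
  have hY0 : (0 : ℝ) < Y := by linarith
  have hYN : (Y : ℝ) ≤ N := by exact_mod_cast h1.le
  have hs0 : 0 < Real.sqrt Y := Real.sqrt_pos.mpr hY0
  have hss : Real.sqrt Y * Real.sqrt Y = Y := Real.mul_self_sqrt hY0.le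
  have hl1 : 1 ≤ Real.log Y := by
    rw [Real.le_log_iff_exp_le hY0]
    exact (Real.exp_one_lt_d9.le.trans (by norm_num)).trans hY9
  have hlN : Real.log Y ≤ Real.log N := Real.log_le_log hY0 hYN
  set η : ℝ := 1 / Real.sqrt Y with hη
  have hη0 : 0 < η := by positivity
  have hηY : η * Y = Real.sqrt Y := by
    rw [hη]
    field_simp
    nlinarith
  have hlN2 : Real.log N ≤ Real.log Y * (1 + η) := by
    have h3 : Real.log N - Real.log Y ≤ η := by
      rw [← Real.log_div (by linarith) hY0.ne']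
      refine (Real.log_le_sub_one_of_pos (div_pos (by linarith) hY0)).trans ?_
      rw [div_sub_one hY0.ne', div_le_iff₀ hY0]
      rw [hηY]
      linarith
    nlinarith
  have hb0 : 0 < (Real.log Y) ^ 2 := by positivity
  have hN2 : (N : ℝ) ≤ Y * (1 + η) := by
    nlinarith
  have hup : (N : ℝ) / (Real.log N) ^ 2 ≤ Y / (Real.log Y) ^ 2 * (1 + η) := by
    calc (N : ℝ) / (Real.log N) ^ 2 ≤ N / (Real.log Y) ^ 2 := by
          apply div_le_div_of_nonneg_left (by linarith) hb0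
          exact pow_le_pow_left₀ (by linarith) hlN 2
      _ ≤ (Y * (1 + η)) / (Real.log Y) ^ 2 := by
          apply div_le_div_of_nonneg_right hN2 hb0.le
      _ = Y / (Real.log Y) ^ 2 * (1 + η) := by ring
  have hlo : Y / (Real.log Y) ^ 2 * (1 - 2 * η) ≤ (N : ℝ) / (Real.log N) ^ 2 := by
    have h4 : Y / (Real.log Y) ^ 2 * (1 - 2 * η) ≤ Y / (Real.log Y * (1 + η)) ^ 2 := by
      rw [mul_pow, div_mul_eq_mul_div, div_le_div_iff₀ hb0 (by positivity)]
      have h5 : (1 - 2 * η) * (1 + η) ^ 2 ≤ 1 := by nlinarith [sq_nonneg η, mul_pos (mul_pos hη0 hη0) hη0]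
      have h6 : 0 ≤ Y * (Real.log Y) ^ 2 := by positivity
      nlinarith [mul_le_mul_of_nonneg_left h5 h6]
    refine h4.trans ?_
    calc Y / (Real.log Y * (1 + η)) ^ 2 ≤ Y / (Real.log N) ^ 2 := by
          apply div_le_div_of_nonneg_left hY0.le (by nlinarith [hl1, hlN])
          exact pow_le_pow_left₀ (by linarith) hlN2 2
      _ ≤ N / (Real.log N) ^ 2 := by
          apply div_le_div_of_nonneg_right hYN (by positivity)
  have h2η : 2 / Real.sqrt Y = 2 * η := by rw [hη]; ring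
  rw [h2η]
  have hb : 0 ≤ Y / (Real.log Y) ^ 2 := by positivity
  rw [abs_le]
  constructor
  · nlinarith
  · nlinarith [mul_nonneg hη0.le hb]

private theorem r9_lim (k : ℕ) (hk : 2 ≤ k) {c d : ℝ} (hc : 0 < c) (hcd : c ≤ d) :
    Filter.Tendsto (fun X : ℕ => sgK k ⌊(Real.log X) ^ c⌋₊ ⌊(Real.log X) ^ d⌋₊) Filter.atTop
      (nhds ((Real.log (d / c)) ^ (k - 1) / (Nat.factorial (k - 1) : ℝ))) := by
  have h1 := q1 c d hc hcd
  have hw : Filter.Tendsto (fun X : ℕ => ⌊(Real.log X) ^ c⌋₊) Filter.atTop Filter.atTop :=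
    tendsto_nat_floor_atTop.comp ((tendsto_rpow_atTop hc).comp (Real.tendsto_log_atTop.comp tendsto_natCast_atTop_atTop))
  have h2 := q2 (w := fun X : ℕ => ⌊(Real.log X) ^ c⌋₊) (w' := fun X : ℕ => ⌊(Real.log X) ^ d⌋₊) hw h1 (k - 2)
  have h3 := (h1.mul h2).div_const ((k : ℝ) - 1)
  have h4 : Real.log (d / c) * (Real.log (d / c) ^ (k - 2) / (Nat.factorial (k - 2) : ℝ)) / ((k : ℝ) - 1) =
      (Real.log (d / c)) ^ (k - 1) / (Nat.factorial (k - 1) : ℝ) := by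
    obtain ⟨j, rfl⟩ : ∃ j, k = j + 2 := ⟨k - 2, by omega⟩
    have e1 : j + 2 - 2 = j := by omega
    have e2 : j + 2 - 1 = j + 1 := by omega
    rw [e1, e2, Nat.factorial_succ, pow_succ]
    push_cast
    have : (j : ℝ) + 2 - 1 = j + 1 := by ring
    rw [this]
    have h5 : (0 : ℝ) < (Nat.factorial j : ℝ) := by exact_mod_cast Nat.factorial_pos j
    have h6 : (0 : ℝ) < (j : ℝ) + 1 := by positivity
    field_simp
  rw [h4] at h3
  exact h3

/-- the comparison at one `N` -/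
private theorem r9_cmp {S sg κ a b T ε ε' ε1 ε2 δ : ℝ} (hS : 0 ≤ S) (hb : 0 ≤ b) (hκ : 0 ≤ κ) (hε' : 0 < ε') (hεε : ε' ≤ ε)
    (hε1 : ε1 = ε' / 8) (hε'1 : ε' ≤ 1) (hε2 : ε2 * (2 + κ) = ε' / 8) (hε20 : 0 < ε2) (hδ : δ * (1 + κ) ≤ ε' / 8) (hδ0 : 0 ≤ δ)
    (hsg : |sg - κ| ≤ ε1) (hab : |a - b| ≤ δ * b) (h : ε * (S * a) < |T - κ * (S * a)|) :
    ε2 * (S * (1 + sg) * b) < |T - S * sg * b| := by
  obtain ⟨s1, s2⟩ := abs_le.1 hsg
  obtain ⟨a1, a2⟩ := abs_le.1 hab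
  have hSb : 0 ≤ S * b := mul_nonneg hS hb
  have hδ8 : δ ≤ 1 / 8 := by nlinarith [mul_nonneg hδ0 hκ]
  have h1 : |sg * b - κ * a| ≤ ε' / 4 * b := by
    have e1 : sg * b - κ * a = (sg - κ) * b + κ * (b - a) := by ring
    rw [e1]
    refine (abs_add_le _ _).trans ?_
    rw [abs_mul, abs_mul, abs_of_nonneg hb, abs_of_nonneg hκ, abs_sub_comm b a]
    have e2 : |sg - κ| * b ≤ ε' / 8 * b := by
      rw [← hε1]
      exact mul_le_mul_of_nonneg_right hsg hb
    have e3 : κ * |a - b| ≤ κ * (δ * b) := mul_le_mul_of_nonneg_left hab hκ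
    have e4 : κ * (δ * b) ≤ ε' / 8 * b := by
      have : κ * δ ≤ ε' / 8 := by nlinarith
      nlinarith [mul_le_mul_of_nonneg_right this hb]
    linarith
  have h2 : |T - κ * (S * a)| ≤ |T - S * sg * b| + S * (ε' / 4 * b) := by
    have e1 : T - κ * (S * a) = (T - S * sg * b) + S * (sg * b - κ * a) := by ring
    rw [e1]
    refine (abs_add_le _ _).trans ?_
    rw [abs_mul, abs_of_nonneg hS]
    have := mul_le_mul_of_nonneg_left h1 hS
    linarith
  have ha : (7 / 8) * b ≤ a := by nlinarith [mul_le_mul_of_nonneg_right hδ8 hb]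
  have h3 : ε' * (S * ((7 / 8) * b)) ≤ ε * (S * a) := by
    have e1 : S * ((7 / 8) * b) ≤ S * a := mul_le_mul_of_nonneg_left ha hS
    have e2 : 0 ≤ S * ((7 / 8) * b) := by positivity
    calc ε' * (S * ((7 / 8) * b)) ≤ ε * (S * ((7 / 8) * b)) := mul_le_mul_of_nonneg_right hεε e2
      _ ≤ ε * (S * a) := mul_le_mul_of_nonneg_left e1 (by linarith)
  have h4 : ε2 * (1 + sg) ≤ ε' / 8 := by
    have : ε2 * (1 + sg) ≤ ε2 * (2 + κ) := by
      apply mul_le_mul_of_nonneg_left _ hε20.le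
      linarith
    linarith
  have h5 : ε2 * (S * (1 + sg) * b) ≤ ε' / 8 * (S * b) := by
    have := mul_le_mul_of_nonneg_right h4 hSb
    nlinarith
  have h6 : 0 ≤ ε' * (S * b) := by positivity
  nlinarith

/-- `log N` is close to `log Y` in a short window -/
private theorem r9_log {Y N : ℕ} (hY : 9 ≤ Y) (h1 : Y < N) (h2 : (N : ℝ) ≤ Y + Real.sqrt Y) :
    Real.log N ≤ Real.log Y + 1 / Real.sqrt Y := by
  have hY9 : (9 : ℝ) ≤ Y := by exact_mod_cast hY
  have hY0 : (0 : ℝ) < Y := by linarith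
  have hYN : (Y : ℝ) ≤ N := by exact_mod_cast h1.le
  have hs0 : 0 < Real.sqrt Y := Real.sqrt_pos.mpr hY0
  have hss : Real.sqrt Y * Real.sqrt Y = Y := Real.mul_self_sqrt hY0.le
  have h3 : Real.log N - Real.log Y ≤ 1 / Real.sqrt Y := by
    rw [← Real.log_div (by linarith) hY0.ne']
    refine (Real.log_le_sub_one_of_pos (div_pos (by linarith) hY0)).trans ?_
    rw [div_sub_one hY0.ne', div_le_div_iff₀ hY0 hs0]
    nlinarith
  linarith

/-- a power of `l + η` for tiny `η` -/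
private theorem r9_pow {c l η : ℝ} (hc : 0 < c) (hl : 1 ≤ l) (hη : 0 ≤ η) (h : 2 * c * l ^ c * η ≤ 1) :
    (l + η) ^ c ≤ l ^ c + 1 := by
  have hlc : 1 ≤ l ^ c := Real.one_le_rpow hl hc.le
  have hcη0 : 0 ≤ c * η := mul_nonneg hc.le hη
  have hcη : c * η ≤ 1 / 2 := by
    have h1 : c * η * 1 ≤ c * η * l ^ c := mul_le_mul_of_nonneg_left hlc hcη0
    nlinarith
  have h1 : l + η ≤ l * Real.exp η := by
    have h2 := Real.add_one_le_exp η
    nlinarith
  have h3 : (l + η) ^ c ≤ (l * Real.exp η) ^ c := Real.rpow_le_rpow (by linarith) h1 hc.le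
  have h4 : (l * Real.exp η) ^ c = l ^ c * Real.exp (η * c) := by
    rw [Real.mul_rpow (by linarith) (Real.exp_pos η).le, ← Real.exp_mul]
  have h5 : Real.exp (η * c) ≤ 1 + 2 * (c * η) := by
    have h6 : Real.exp (η * c) ≤ 1 / (1 - η * c) :=
      Real.exp_bound_div_one_sub_of_interval (by nlinarith) (by nlinarith)
    refine h6.trans ?_
    rw [div_le_iff₀ (by nlinarith)]
    nlinarith
  rw [h4] at h3
  have h7 := mul_le_mul_of_nonneg_left h5 (by linarith : 0 ≤ l ^ c)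
  nlinarith

/-- the thresholds at `N` and at `Y` differ by at most one -/
private theorem r9_floor {c : ℝ} {Y N : ℕ} (hc : 0 < c) (hY : 9 ≤ Y) (h1 : Y < N) (h2 : (N : ℝ) ≤ Y + Real.sqrt Y)
    (h3 : 2 * c * (Real.log Y) ^ c ≤ Real.sqrt Y) :
    ⌊(Real.log Y) ^ c⌋₊ ≤ ⌊(Real.log N) ^ c⌋₊ ∧ ⌊(Real.log N) ^ c⌋₊ ≤ ⌊(Real.log Y) ^ c⌋₊ + 1 := by
  have hY9 : (9 : ℝ) ≤ Y := by exact_mod_cast hY
  have hY0 : (0 : ℝ) < Y := by linarith
  have hYN : (Y : ℝ) ≤ N := by exact_mod_cast h1.le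
  have hs0 : 0 < Real.sqrt Y := Real.sqrt_pos.mpr hY0
  have hl1 : 1 ≤ Real.log Y := by
    rw [Real.le_log_iff_exp_le hY0]
    exact (Real.exp_one_lt_d9.le.trans (by norm_num)).trans hY9
  have hlN : Real.log Y ≤ Real.log N := Real.log_le_log hY0 hYN
  have hup := r9_log hY h1 h2
  constructor
  · exact Nat.floor_le_floor (Real.rpow_le_rpow (by linarith) hlN hc.le)
  · have h4 : (Real.log N) ^ c ≤ (Real.log Y) ^ c + 1 := by
      refine (Real.rpow_le_rpow (by linarith) hup hc.le).trans (r9_pow hc hl1 (by positivity) ?_)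
      rw [mul_one_div, div_le_one hs0]
      exact h3
    rw [← Nat.floor_add_one (Real.rpow_nonneg (by linarith) _)]
    exact Nat.floor_le_floor h4

/-- the change of the thresholds is harmless -/
private theorem r9_shift {ε S a n L lN T1 T2 κ w w' : ℝ} (hε : 0 < ε) (hS : 1 / 2 ≤ S) (hn : 0 ≤ n) (hL : 1 ≤ L) (hLε : 32 / ε ≤ L)
    (hlN : 0 < lN) (hlN2 : lN ≤ 2 * L) (ha : a = n / lN ^ 2) (hw : L ^ 3 ≤ w + 1) (hw' : L ^ 3 ≤ w' + 1)
    (h1 : |T1 - T2| ≤ n / (w + 1) + n / (w' + 1)) (h2 : ε * (S * a) < |T2 - κ * (S * a)|) :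
    ε / 2 * (S * a) < |T1 - κ * (S * a)| := by
  have hL0 : 0 < L := by linarith
  have hL3 : 0 < L ^ 3 := by positivity
  have e1 : n / (w + 1) ≤ n / L ^ 3 := div_le_div_of_nonneg_left hn hL3 hw
  have e2 : n / (w' + 1) ≤ n / L ^ 3 := div_le_div_of_nonneg_left hn hL3 hw'
  have e3 : n / (4 * L ^ 2) ≤ a := by
    rw [ha]
    apply div_le_div_of_nonneg_left hn (by positivity)
    nlinarith
  have e4 : n / L ^ 3 ≤ ε / 32 * (n / L ^ 2) := by
    rw [div_le_iff₀ hε] at hLε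
    rw [← mul_div_assoc, div_le_div_iff₀ hL3 (by positivity)]
    have : n * L ^ 2 * 1 ≤ n * L ^ 2 * (ε * L / 32) := mul_le_mul_of_nonneg_left (by linarith) (by positivity)
    nlinarith
  have e5 : n / (4 * L ^ 2) = n / L ^ 2 / 4 := by
    rw [div_div, mul_comm (L ^ 2) 4]
  have ha0 : 0 ≤ a := le_trans (by positivity) e3
  have e6 : 1 / 2 * a ≤ S * a := mul_le_mul_of_nonneg_right hS ha0
  have e7 : |T2 - κ * (S * a)| ≤ |T1 - κ * (S * a)| + |T1 - T2| := by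
    have : T2 - κ * (S * a) = (T1 - κ * (S * a)) - (T1 - T2) := by ring
    rw [this]
    exact abs_sub _ _
  have e8 : ε * (1 / 2 * a) ≤ ε * (S * a) := mul_le_mul_of_nonneg_left e6 hε.le
  have e9 : ε * (n / L ^ 2 / 4) ≤ ε * a := by
    apply mul_le_mul_of_nonneg_left _ hε.le
    rw [← e5]
    exact e3
  linarith

theorem r9 (k A : ℕ) (hk : 2 ≤ k) : ∃ c0 : ℕ, ∀ c d : ℝ, (c0 : ℝ) ≤ c → c < d → ∃ C : ℕ, ∀ ε : ℝ, 0 < ε → ∃ X₀ : ℕ, ∀ X H : ℕ, X₀ ≤ X →
    (Real.log X) ^ C ≤ H → H ≤ X →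
      (((Ioc X (X + H)).filter fun N => Even N ∧ ε * (SS N * (N / (Real.log N) ^ 2)) <
        |(TT k ⌊(Real.log N) ^ c⌋₊ ⌊(Real.log N) ^ d⌋₊ N : ℝ) -
          (Real.log (d / c)) ^ (k - 1) / (Nat.factorial (k - 1) : ℝ) * (SS N * (N / (Real.log N) ^ 2))|).card : ℝ) ≤
        H / (Real.log X) ^ A := by
  obtain ⟨c10, h6⟩ := r6 k (A + 1) hk
  refine ⟨c10 + 3, ?_⟩
  intro c d hc hcd
  have hc3 : (c10 : ℝ) + 3 ≤ c := by exact_mod_cast hc
  have hc33 : 3 ≤ c := by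
    have : (0 : ℝ) ≤ c10 := Nat.cast_nonneg _
    linarith
  have hc0 : 0 < c := by linarith
  have hd0 : 0 < d := by linarith
  set κ : ℝ := (Real.log (d / c)) ^ (k - 1) / (Nat.factorial (k - 1) : ℝ) with hκ
  have hκ0 : 0 ≤ κ := by
    have : 0 ≤ Real.log (d / c) := Real.log_nonneg (by rw [le_div_iff₀ hc0]; linarith)
    positivity
  obtain ⟨C1, h6'⟩ := h6 c10 le_rfl
  obtain ⟨D, hD⟩ : ∃ D : ℕ, D = ⌈d⌉₊ + 1 := ⟨_, rfl⟩
  have hdD : d ≤ (D : ℝ) := by
    rw [hD]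
    push_cast
    linarith [Nat.le_ceil d]
  refine ⟨C1 + D + 2, ?_⟩
  intro ε hε
  set ε' : ℝ := min (ε / 2) 1 with hε'
  have hε'0 : 0 < ε' := lt_min (half_pos hε) one_pos
  have hε'1 : ε' ≤ 1 := min_le_right _ _
  have hεε : ε' ≤ ε / 2 := min_le_left _ _
  set ε2 : ℝ := ε' / (8 * (2 + κ)) with hε2
  have hε20 : 0 < ε2 := by positivity
  have hε2' : ε2 * (2 + κ) = ε' / 8 := by
    rw [hε2]
    field_simp
  set δ : ℝ := ε' / (8 * (1 + κ)) with hδ
  have hδ0 : 0 < δ := by positivity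
  have hδ' : δ * (1 + κ) ≤ ε' / 8 := by
    rw [hδ]
    apply le_of_eq
    field_simp
  obtain ⟨M, x0, h6''⟩ := h6' ε2 hε20
  -- eventual conditions
  have hlim := r9_lim k hk hc0 hcd.le
  have ev1 : ∀ᶠ X : ℕ in Filter.atTop, |sgK k ⌊(Real.log X) ^ c⌋₊ ⌊(Real.log X) ^ d⌋₊ - κ| ≤ ε' / 8 := by
    have := (Metric.tendsto_nhds.mp hlim) (ε' / 8) (by positivity)
    filter_upwards [this] with X hX
    rw [Real.dist_eq] at hX
    exact hX.le
  have hlogt : Filter.Tendsto (fun X : ℕ => Real.log (X : ℝ)) Filter.atTop Filter.atTop :=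
    Real.tendsto_log_atTop.comp tendsto_natCast_atTop_atTop
  have ev2 : ∀ᶠ X : ℕ in Filter.atTop, (2 : ℝ) ^ (C1 + D) + 32 / ε + 2 ≤ Real.log X := hlogt.eventually_ge_atTop _
  have ev3 : ∀ᶠ X : ℕ in Filter.atTop, x0 ≤ (X : ℝ) := tendsto_natCast_atTop_atTop.eventually_ge_atTop _
  have ev4 : ∀ᶠ X : ℕ in Filter.atTop, 2 * ((Real.log X) ^ (C1 + D + 1) + 1) ≤ Real.sqrt X := by
    have h1 : (fun x : ℝ => (Real.log x) ^ ((C1 + D + 1 : ℕ) : ℝ)) =o[Filter.atTop] fun x : ℝ => x ^ (1 / 2 : ℝ) :=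
      isLittleO_log_rpow_rpow_atTop _ (by norm_num)
    have h2 := h1.bound (by norm_num : (0 : ℝ) < 1 / 4)
    have h3 := tendsto_natCast_atTop_atTop (R := ℝ) |>.eventually h2
    have h4 : ∀ᶠ X : ℕ in Filter.atTop, (16 : ℝ) ≤ X := tendsto_natCast_atTop_atTop.eventually_ge_atTop _
    filter_upwards [h3, h4] with X hX hX4
    have hs : (X : ℝ) ^ (1 / 2 : ℝ) = Real.sqrt X := (Real.sqrt_eq_rpow _).symm
    rw [hs, Real.rpow_natCast, Real.norm_of_nonneg (Real.sqrt_nonneg _),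
      Real.norm_of_nonneg (pow_nonneg (Real.log_nonneg (by linarith)) _)] at hX
    have h5 : (4 : ℝ) ≤ Real.sqrt X := by
      rw [show (4 : ℝ) = Real.sqrt 16 by rw [show (16 : ℝ) = 4 ^ 2 by norm_num]; exact (Real.sqrt_sq (by norm_num)).symm]
      exact Real.sqrt_le_sqrt hX4
    linarith
  have ev5 : ∀ᶠ X : ℕ in Filter.atTop, (2 / δ) ^ 2 + 9 ≤ (X : ℝ) := tendsto_natCast_atTop_atTop.eventually_ge_atTop _
  have ev6 : ∀ a : ℝ, 0 < a → ∀ᶠ X : ℕ in Filter.atTop, 2 * a * (Real.log X) ^ a ≤ Real.sqrt X := by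
    intro a ha
    have h1 : (fun x : ℝ => (Real.log x) ^ a) =o[Filter.atTop] fun x : ℝ => x ^ (1 / 2 : ℝ) :=
      isLittleO_log_rpow_rpow_atTop _ (by norm_num)
    have h2 := h1.bound (by positivity : (0 : ℝ) < 1 / (2 * a))
    have h3 := tendsto_natCast_atTop_atTop (R := ℝ) |>.eventually h2
    have h4 : ∀ᶠ X : ℕ in Filter.atTop, (16 : ℝ) ≤ X := tendsto_natCast_atTop_atTop.eventually_ge_atTop _
    filter_upwards [h3, h4] with X hX hX4
    have hs : (X : ℝ) ^ (1 / 2 : ℝ) = Real.sqrt X := (Real.sqrt_eq_rpow _).symm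
    rw [hs, Real.norm_of_nonneg (Real.sqrt_nonneg _),
      Real.norm_of_nonneg (Real.rpow_nonneg (Real.log_nonneg (by linarith)) _), one_div, inv_mul_eq_div,
      le_div_iff₀ (by positivity)] at hX
    linarith
  have ev7 : ∀ᶠ X : ℕ in Filter.atTop, (Real.log X) ^ (D * M) ≤ (X : ℝ) := by
    have h1 := (Real.isLittleO_pow_log_id_atTop (n := D * M)).bound one_pos
    have h3 := tendsto_natCast_atTop_atTop (R := ℝ) |>.eventually h1
    filter_upwards [h3] with X hX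
    have h5 := (le_abs_self _).trans (by simpa only [Real.norm_eq_abs] using hX)
    have h6 : |id (X : ℝ)| = X := abs_of_nonneg (Nat.cast_nonneg _)
    rw [h6, one_mul] at h5
    exact h5
  obtain ⟨X₀, hX₀⟩ := Filter.eventually_atTop.mp (ev1.and (ev2.and (ev3.and (ev4.and (ev5.and ((ev6 c hc0).and ((ev6 d hd0).and ev7)))))))
  refine ⟨X₀, ?_⟩
  intro X H hX hH1 hH2
  obtain ⟨-, g2, -, -, g5, -, -, -⟩ := hX₀ X hX
  set l : ℝ := Real.log X with hl
  have p1 : (0 : ℝ) < 2 ^ (C1 + D) := by positivity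
  have p2 : (0 : ℝ) < 32 / ε := by positivity
  have hl2 : 2 ≤ l := by linarith
  have hX9 : (9 : ℝ) ≤ X := by nlinarith [sq_nonneg (2 / δ)]
  have hX0 : (0 : ℝ) < X := by linarith
  set h : ℕ := ⌈l ^ (C1 + D + 1)⌉₊ with hh
  have hh1 : l ^ (C1 + D + 1) ≤ h := Nat.le_ceil _
  have hh2 : (h : ℝ) ≤ l ^ (C1 + D + 1) + 1 := (Nat.ceil_lt_add_one (by positivity)).le
  have hh0 : 1 ≤ h := by
    have : (1 : ℝ) ≤ l ^ (C1 + D + 1) := one_le_pow₀ (by linarith)
    have : (1 : ℝ) ≤ h := this.trans hh1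
    exact_mod_cast this
  have hhH : h ≤ H := by
    rw [hh, Nat.ceil_le]
    refine le_trans ?_ hH1
    exact pow_le_pow_right₀ (by linarith) (by omega)
  have hcov := fin_cover (fun N : ℕ => Even N ∧ ε * (SS N * (N / (Real.log N) ^ 2)) <
        |(TT k ⌊(Real.log N) ^ c⌋₊ ⌊(Real.log N) ^ d⌋₊ N : ℝ) - κ * (SS N * (N / (Real.log N) ^ 2))|) (X := X) (H := H) (h := h)
        (S := (H : ℝ) + h) (ε := 1 / l ^ (A + 1)) hh0 hhH (by positivity) le_rfl ?_
  · refine hcov.trans ?_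
    have h7 : l ^ (A + 1) = l ^ A * l := pow_succ _ _
    have h8 : 0 < l ^ A := by positivity
    rw [h7, mul_one_div, div_le_div_iff₀ (by positivity) h8]
    have : (0 : ℝ) ≤ H := Nat.cast_nonneg _
    nlinarith [mul_nonneg this h8.le]
  · intro Y hY1 hY2
    obtain ⟨g1, g2Y, g3, g4, g5Y, g6, g7, g8⟩ := hX₀ Y (hX.trans hY1)
    have hY1' : (X : ℝ) ≤ Y := by exact_mod_cast hY1
    have hY2' : (Y : ℝ) ≤ 2 * X := by
      have : (H : ℝ) ≤ X := by exact_mod_cast hH2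
      linarith
    have hY0 : (0 : ℝ) < Y := by linarith
    have hlY1 : l ≤ Real.log Y := Real.log_le_log hX0 hY1'
    have hlY2 : Real.log Y ≤ 2 * l := by
      have e1 : Real.log Y ≤ Real.log (2 * X) := Real.log_le_log hY0 hY2'
      rw [Real.log_mul (by norm_num) hX0.ne'] at e1
      have e2 : Real.log 2 ≤ l := Real.log_le_log (by norm_num) (by linarith)
      linarith
    have hL2 : 2 ≤ Real.log Y := hl2.trans hlY1
    have hLD : (Real.log Y) ^ d ≤ (Real.log Y) ^ D := by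
      rw [← Real.rpow_natCast]
      exact Real.rpow_le_rpow_of_exponent_le (by linarith) hdD
    have hw'D : ((⌊(Real.log Y) ^ d⌋₊ : ℕ) : ℝ) ≤ (Real.log Y) ^ D :=
      (Nat.floor_le (Real.rpow_nonneg (by linarith) _)).trans hLD
    have hRg : Rg2 Y ⌊(Real.log Y) ^ c⌋₊ ⌊(Real.log Y) ^ d⌋₊ c10 M := by
      refine ⟨?_, ?_, ?_⟩
      · have e1 : (Real.log Y) ^ (c10 + 1) + 1 ≤ (Real.log Y) ^ (c10 + 3) := by
          have e3 : (1 : ℝ) ≤ (Real.log Y) ^ (c10 + 1) := one_le_pow₀ (by linarith)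
          have e4 : (Real.log Y) ^ (c10 + 3) = (Real.log Y) ^ (c10 + 1) * (Real.log Y) ^ 2 := by ring
          have e5 : (2 : ℝ) ≤ (Real.log Y) ^ 2 := by nlinarith
          nlinarith
        have e5 : (Real.log Y) ^ (c10 + 3) ≤ (Real.log Y) ^ c := by
          rw [← Real.rpow_natCast (Real.log Y) (c10 + 3)]
          apply Real.rpow_le_rpow_of_exponent_le (by linarith)
          push_cast
          linarith
        have e6 : (Real.log Y) ^ c < (⌊(Real.log Y) ^ c⌋₊ : ℝ) + 1 := Nat.lt_floor_add_one _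
        linarith
      · exact Nat.floor_le_floor (Real.rpow_le_rpow_of_exponent_le (by linarith) hcd.le)
      · have e1 : ((⌊(Real.log Y) ^ d⌋₊ : ℕ) : ℝ) ^ M ≤ ((Real.log Y) ^ D) ^ M :=
          pow_le_pow_left₀ (Nat.cast_nonneg _) hw'D _
        rw [← pow_mul] at e1
        have e2 : ((⌊(Real.log Y) ^ d⌋₊ ^ M : ℕ) : ℝ) ≤ (Y : ℝ) := by
          rw [Nat.cast_pow]
          exact e1.trans g8
        exact_mod_cast e2
    have hhY : ((⌊(Real.log Y) ^ d⌋₊ : ℕ) : ℝ) * (Real.log Y) ^ C1 ≤ h := by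
      refine le_trans ?_ hh1
      calc ((⌊(Real.log Y) ^ d⌋₊ : ℕ) : ℝ) * (Real.log Y) ^ C1 ≤ (Real.log Y) ^ D * (Real.log Y) ^ C1 :=
            mul_le_mul_of_nonneg_right hw'D (by positivity)
        _ = (Real.log Y) ^ (C1 + D) := by ring
        _ ≤ (2 * l) ^ (C1 + D) := pow_le_pow_left₀ (by linarith) hlY2 _
        _ = 2 ^ (C1 + D) * l ^ (C1 + D) := mul_pow _ _ _
        _ ≤ l * l ^ (C1 + D) := mul_le_mul_of_nonneg_right (by linarith) (by positivity)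
        _ = l ^ (C1 + D + 1) := by ring
    have hhs : 2 * (h : ℝ) ≤ Real.sqrt Y := by
      have e1 : l ^ (C1 + D + 1) ≤ (Real.log Y) ^ (C1 + D + 1) := pow_le_pow_left₀ (by linarith) hlY1 _
      linarith
    have h9 := h6'' Y g3 ⌊(Real.log Y) ^ c⌋₊ ⌊(Real.log Y) ^ d⌋₊ hRg h hhY hhs
    refine le_trans ?_ (h9.trans ?_)
    · have hsub : ((Ioc Y (Y + h)).filter fun N : ℕ => Even N ∧ ε * (SS N * (N / (Real.log N) ^ 2)) <
          |(TT k ⌊(Real.log N) ^ c⌋₊ ⌊(Real.log N) ^ d⌋₊ N : ℝ) - κ * (SS N * (N / (Real.log N) ^ 2))|) ⊆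
          ((Ioc Y (Y + h)).filter fun N => Even N ∧ ε2 * (SS N * (1 + sgK k ⌊(Real.log Y) ^ c⌋₊ ⌊(Real.log Y) ^ d⌋₊) * (Y / (Real.log Y) ^ 2)) <
            |(TT k ⌊(Real.log Y) ^ c⌋₊ ⌊(Real.log Y) ^ d⌋₊ N : ℝ) - SS N * sgK k ⌊(Real.log Y) ^ c⌋₊ ⌊(Real.log Y) ^ d⌋₊ * (Y / (Real.log Y) ^ 2)|) := by
        intro N hN
        rw [mem_filter, mem_Ioc] at hN ⊢
        obtain ⟨⟨hN1, hN2⟩, hev, hN3⟩ := hN
        refine ⟨⟨hN1, hN2⟩, hev, ?_⟩
        have hN2' : (N : ℝ) ≤ Y + h := by exact_mod_cast hN2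
        have hY9 : 9 ≤ Y := by
          have : (9 : ℝ) ≤ Y := by linarith
          exact_mod_cast this
        have hNs : (N : ℝ) ≤ Y + Real.sqrt Y := by
          have : 0 ≤ Real.sqrt Y := Real.sqrt_nonneg _
          linarith
        have hab := r9_ab hY9 hN1 hNs
        have hbn : 0 ≤ (Y : ℝ) / (Real.log Y) ^ 2 := by positivity
        have e0 : 0 < Real.sqrt Y := Real.sqrt_pos.mpr hY0
        have hsδ : 2 / Real.sqrt Y ≤ δ := by
          rw [div_le_iff₀ e0]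
          have e1 : 2 / δ ≤ Real.sqrt Y := by
            apply Real.le_sqrt_of_sq_le
            linarith
          rw [div_le_iff₀ hδ0] at e1
          linarith
        have hSS : 1 / 2 ≤ SS N := q8 N hev
        have f1 := r9_floor hc0 hY9 hN1 hNs g6
        have f2 := r9_floor hd0 hY9 hN1 hNs g7
        have f3 := q9a k ⌊(Real.log Y) ^ c⌋₊ ⌊(Real.log Y) ^ d⌋₊ ⌊(Real.log N) ^ c⌋₊ ⌊(Real.log N) ^ d⌋₊ N f1.1 f1.2 f2.1 f2.2
        have hlNY := r9_log hY9 hN1 hNs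
        have hs1 : 1 / Real.sqrt Y ≤ 1 := by
          rw [div_le_one e0]
          apply Real.le_sqrt_of_sq_le
          linarith
        have hlN1 : Real.log Y ≤ Real.log N := Real.log_le_log hY0 (by exact_mod_cast hN1.le)
        have hfl : ∀ a : ℝ, 3 ≤ a → (Real.log Y) ^ 3 ≤ (⌊(Real.log Y) ^ a⌋₊ : ℝ) + 1 := by
          intro a ha
          have e5 : (Real.log Y) ^ 3 ≤ (Real.log Y) ^ a := by
            rw [← Real.rpow_natCast (Real.log Y) 3]
            apply Real.rpow_le_rpow_of_exponent_le (by linarith)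
            push_cast
            linarith
          have e6 : (Real.log Y) ^ a < (⌊(Real.log Y) ^ a⌋₊ : ℝ) + 1 := Nat.lt_floor_add_one _
          linarith
        have hN4 := r9_shift hε hSS (Nat.cast_nonneg N) (by linarith) (by linarith) (by linarith) (by linarith) rfl
          (hfl c hc33) (hfl d (by linarith)) f3 hN3
        exact r9_cmp (by linarith) hbn hκ0 hε'0 hεε rfl hε'1 hε2' hε20 hδ' hδ0.le g1
          (hab.trans (mul_le_mul_of_nonneg_right hsδ hbn)) hN4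
      exact_mod_cast card_le_card hsub
    · rw [mul_one_div]
      apply div_le_div_of_nonneg_left (Nat.cast_nonneg _) (by positivity)
      exact pow_le_pow_left₀ (by linarith) hlY1 _

end Pool.Agent.Lib.G5
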