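import Pool.Agent.Lib.G5.Q2
import Pool.Agent.Lib.G3.Mert5

/-!
# G5 / SgU: `sgK k w w'` is asymptotic to `L^(k-1)/(k-1)!`, `L = log (log w' / log w)`, uniformly for `w^(1+τ) ≤ w'`
-/

set_option autoImplicit false

open Finset

namespace Pool.Agent.Lib.G5

/-- `log (log w' / log w)` -/
noncomputable def Lw (w w' : ℕ) : ℝ := Real.log (Real.log w' / Real.log w)

private theorem sgu_L {τ : ℝ} (hτ : 0 < τ) {w w' : ℕ} (hw : 2 ≤ w) (h : (w : ℝ) ^ (1 + τ) ≤ w') :
    Real.log (1 + τ) ≤ Lw w w' ∧ w ≤ w' := by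
  have hw0 : (2 : ℝ) ≤ w := by exact_mod_cast hw
  have hl : 0 < Real.log w := Real.log_pos (by linarith)
  have h1 : (1 + τ) * Real.log w ≤ Real.log w' := by
    rw [← Real.log_rpow (by linarith)]
    exact Real.log_le_log (by positivity) h
  constructor
  · unfold Lw
    refine Real.log_le_log (by linarith) ?_
    rw [le_div_iff₀ hl]
    exact h1
  · have h2 : (w : ℝ) ≤ (w : ℝ) ^ (1 + τ) := by
      calc (w : ℝ) = (w : ℝ) ^ (1 : ℝ) := (Real.rpow_one _).symm
        _ ≤ (w : ℝ) ^ (1 + τ) := Real.rpow_le_rpow_of_exponent_le (by linarith) (by linarith)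
    exact_mod_cast h2.trans h

private theorem sgu_one (τ ε : ℝ) (hτ : 0 < τ) (hε : 0 < ε) : ∃ z0 : ℕ, 2 ≤ z0 ∧ ∀ w w' : ℕ, z0 ≤ w → (w : ℝ) ^ (1 + τ) ≤ w' →
    |sg1 w w' - Lw w w'| ≤ ε * Lw w w' := by
  have h0 : 0 < Real.log (1 + τ) := Real.log_pos (by linarith)
  obtain ⟨z0, hz⟩ := Pool.Agent.Lib.G3.mert5 (ε * Real.log (1 + τ)) (by positivity)
  refine ⟨max z0 2, le_max_right _ _, fun w w' hw h => ?_⟩
  obtain ⟨h1, h2⟩ := sgu_L hτ ((le_max_right _ _).trans hw) h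
  refine (hz w w' ((le_max_left _ _).trans hw) h2).trans ?_
  exact mul_le_mul_of_nonneg_left h1 hε.le

private theorem sgu_esy (τ : ℝ) (hτ : 0 < τ) (j : ℕ) : ∀ ε : ℝ, 0 < ε → ∃ z0 : ℕ, 2 ≤ z0 ∧ ∀ w w' : ℕ, z0 ≤ w →
    (w : ℝ) ^ (1 + τ) ≤ w' → |esy j w w' * (Nat.factorial j : ℝ) - Lw w w' ^ j| ≤ ε * Lw w w' ^ j := by
  induction j with
  | zero =>
    intro ε hε
    refine ⟨2, le_rfl, fun w w' _ _ => ?_⟩
    have : esy 0 w w' = 1 := by simp [esy]
    rw [this]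
    simp [hε.le]
  | succ j ih =>
    intro ε hε
    have h0 : 0 < Real.log (1 + τ) := Real.log_pos (by linarith)
    set e : ℝ := min (ε / 8) (1 / 8) with he
    have he0 : 0 < e := by rw [he]; positivity
    have he1 : e ≤ 1 / 8 := min_le_right _ _
    have he2 : e ≤ ε / 8 := min_le_left _ _
    obtain ⟨z1, hz1, H1⟩ := sgu_one τ e hτ he0
    obtain ⟨z2, hz2, H2⟩ := ih e he0
    obtain ⟨z3, hz3⟩ := exists_nat_ge ((j : ℝ) / (e * Real.log (1 + τ)))
    refine ⟨max (max z1 z2) (max z3 2), (le_max_right _ _).trans (le_max_right _ _) , fun w w' hw h => ?_⟩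
    have hw1 : z1 ≤ w := ((le_max_left _ _).trans (le_max_left _ _)).trans hw
    have hw2 : z2 ≤ w := ((le_max_right _ _).trans (le_max_left _ _)).trans hw
    have hw3 : z3 ≤ w := ((le_max_left _ _).trans (le_max_right _ _)).trans hw
    have hw4 : 2 ≤ w := ((le_max_right _ _).trans (le_max_right _ _)).trans hw
    have hwR : (0 : ℝ) < w := by exact_mod_cast (by omega : 0 < w)
    obtain ⟨hL, -⟩ := sgu_L hτ hw4 h
    have hLpos : 0 < Lw w w' := lt_of_lt_of_le h0 hL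
    have a1 := abs_le.1 (H1 w w' hw1 h)
    have a2 := abs_le.1 (H2 w w' hw2 h)
    obtain ⟨q1, q2⟩ := q2a j w w' (by omega)
    set L := Lw w w' with hLdef
    set f : ℝ := (Nat.factorial j : ℝ) with hf
    have hf0 : 0 < f := by rw [hf]; exact_mod_cast Nat.factorial_pos j
    have hfs : (Nat.factorial (j + 1) : ℝ) = ((j : ℝ) + 1) * f := by
      rw [Nat.factorial_succ, hf]; push_cast; ring
    have hjw : (j : ℝ) / w ≤ e * L := by
      have h5 : (j : ℝ) / (e * Real.log (1 + τ)) ≤ w := hz3.trans (by exact_mod_cast hw3)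
      rw [div_le_iff₀ (by positivity)] at h5
      rw [div_le_iff₀ hwR]
      have h6 : e * Real.log (1 + τ) ≤ e * L := mul_le_mul_of_nonneg_left hL he0.le
      nlinarith
    set E := esy j w w' * f with hE
    have hEpos : 0 < E := by
      have : 0 < L ^ j := by positivity
      nlinarith [a2.1]
    have hLj : 0 < L ^ j := by positivity
    -- the new quantity
    set F := esy (j + 1) w w' * (Nat.factorial (j + 1) : ℝ) with hF
    have hF1 : F = ((j : ℝ) + 1) * esy (j + 1) w w' * f := by rw [hF, hfs]; ring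
    have up : F ≤ sg1 w w' * E := by
      rw [hF1, hE]
      nlinarith [mul_le_mul_of_nonneg_right q1 hf0.le]
    have lo : sg1 w w' * E - e * L * E ≤ F := by
      have h7 : (sg1 w w' * esy j w w' - ((j : ℝ) + 1) * esy (j + 1) w w') * f ≤ ((j : ℝ) / w * esy j w w') * f :=
        mul_le_mul_of_nonneg_right q2 hf0.le
      have h8 : (j : ℝ) / w * E ≤ e * L * E := mul_le_mul_of_nonneg_right hjw hEpos.le
      rw [hF1]
      rw [hE] at h8 ⊢
      nlinarith
    have hLE : L ^ (j + 1) = L * L ^ j := by ring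
    have s1 : sg1 w w' ≤ (1 + e) * L := by linarith [a1.2]
    have s2 : (1 - e) * L ≤ sg1 w w' := by linarith [a1.1]
    have t1 : E ≤ (1 + e) * L ^ j := by linarith [a2.2]
    have t2 : (1 - e) * L ^ j ≤ E := by linarith [a2.1]
    have hP : 0 < L * L ^ j := by positivity
    have u1 : F ≤ (1 + e) * (1 + e) * (L * L ^ j) := by
      calc F ≤ sg1 w w' * E := up
        _ ≤ ((1 + e) * L) * ((1 + e) * L ^ j) := mul_le_mul s1 t1 hEpos.le (by positivity)
        _ = _ := by ring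
    have u2 : (1 - e) * (1 - e) * (L * L ^ j) - e * (1 + e) * (L * L ^ j) ≤ F := by
      have h9 : ((1 - e) * L) * ((1 - e) * L ^ j) ≤ sg1 w w' * E :=
        mul_le_mul s2 t2 (mul_nonneg (by linarith) hLj.le) (le_trans (mul_nonneg (by linarith) hLpos.le) s2)
      have h10 : e * L * E ≤ e * L * ((1 + e) * L ^ j) := mul_le_mul_of_nonneg_left t1 (by positivity)
      nlinarith
    rw [hLE, abs_le]
    constructor
    · nlinarith [mul_pos he0 hP, mul_nonneg (mul_nonneg he0.le (by linarith : 0 ≤ 1 - e)) hP.le, mul_le_mul_of_nonneg_right he2 hP.le]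
    · nlinarith [mul_pos he0 hP, mul_nonneg (mul_nonneg he0.le (by linarith : 0 ≤ 1 - e)) hP.le, mul_le_mul_of_nonneg_right he2 hP.le]

theorem sgU (k : ℕ) (hk : 2 ≤ k) (τ ε : ℝ) (hτ : 0 < τ) (hε : 0 < ε) : ∃ z0 : ℕ, 2 ≤ z0 ∧ ∀ w w' : ℕ, z0 ≤ w →
    (w : ℝ) ^ (1 + τ) ≤ w' → Real.log (1 + τ) ≤ Lw w w' ∧
      |sgK k w w' - Lw w w' ^ (k - 1) / (Nat.factorial (k - 1) : ℝ)| ≤ ε * (Lw w w' ^ (k - 1) / (Nat.factorial (k - 1) : ℝ)) := by
  have h0 : 0 < Real.log (1 + τ) := Real.log_pos (by linarith)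
  set e : ℝ := min (ε / 8) (1 / 8) with he
  have he0 : 0 < e := by rw [he]; positivity
  have he1 : e ≤ 1 / 8 := min_le_right _ _
  have he2 : e ≤ ε / 8 := min_le_left _ _
  obtain ⟨z1, hz1, H1⟩ := sgu_one τ e hτ he0
  obtain ⟨z2, hz2, H2⟩ := sgu_esy τ hτ (k - 2) e he0
  refine ⟨max z1 z2, hz1.trans (le_max_left _ _), fun w w' hw h => ?_⟩
  have hw1 : z1 ≤ w := (le_max_left _ _).trans hw
  have hw2 : z2 ≤ w := (le_max_right _ _).trans hw
  obtain ⟨hL, -⟩ := sgu_L hτ (hz1.trans hw1) h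
  refine ⟨hL, ?_⟩
  have hLpos : 0 < Lw w w' := lt_of_lt_of_le h0 hL
  have a1 := abs_le.1 (H1 w w' hw1 h)
  have a2 := abs_le.1 (H2 w w' hw2 h)
  obtain ⟨j, rfl⟩ : ∃ j, k = j + 2 := ⟨k - 2, by omega⟩
  simp only [Nat.add_sub_cancel] at a2
  have hk1 : j + 2 - 1 = j + 1 := by omega
  rw [hk1]
  unfold sgK
  simp only [Nat.add_sub_cancel]
  set L := Lw w w' with hLdef
  set f : ℝ := (Nat.factorial j : ℝ) with hf
  have hf0 : 0 < f := by rw [hf]; exact_mod_cast Nat.factorial_pos j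
  have hfs : (Nat.factorial (j + 1) : ℝ) = ((j : ℝ) + 1) * f := by
    rw [Nat.factorial_succ, hf]; push_cast; ring
  have hj0 : (0 : ℝ) < (j : ℝ) + 1 := by positivity
  have hden : (((j + 2 : ℕ) : ℝ) - 1) = (j : ℝ) + 1 := by push_cast; ring
  rw [hden, hfs]
  set E := esy j w w' * f with hE
  have hLj : 0 < L ^ j := by positivity
  have hEpos : 0 < E := by nlinarith [a2.1]
  have hD : 0 < ((j : ℝ) + 1) * f := by positivity
  have e1 : sg1 w w' * esy j w w' / ((j : ℝ) + 1) = sg1 w w' * E / (((j : ℝ) + 1) * f) := by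
    rw [hE]; field_simp
  rw [e1, ← sub_div, abs_div, abs_of_pos hD, ← mul_div_assoc]
  refine div_le_div_of_nonneg_right ?_ hD.le
  have s1 : sg1 w w' ≤ (1 + e) * L := by linarith [a1.2]
  have s2 : (1 - e) * L ≤ sg1 w w' := by linarith [a1.1]
  have t1 : E ≤ (1 + e) * L ^ j := by linarith [a2.2]
  have t2 : (1 - e) * L ^ j ≤ E := by linarith [a2.1]
  have hP : 0 < L * L ^ j := by positivity
  have hLE : L ^ (j + 1) = L * L ^ j := by ring
  have u1 : sg1 w w' * E ≤ (1 + e) * (1 + e) * (L * L ^ j) := by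
    calc sg1 w w' * E ≤ ((1 + e) * L) * ((1 + e) * L ^ j) := mul_le_mul s1 t1 hEpos.le (by positivity)
      _ = _ := by ring
  have u2 : (1 - e) * (1 - e) * (L * L ^ j) ≤ sg1 w w' * E := by
    calc (1 - e) * (1 - e) * (L * L ^ j) = ((1 - e) * L) * ((1 - e) * L ^ j) := by ring
      _ ≤ sg1 w w' * E := mul_le_mul s2 t2 (mul_nonneg (by linarith) hLj.le) (le_trans (mul_nonneg (by linarith) hLpos.le) s2)
  rw [hLE, abs_le]
  constructor
  · nlinarith [mul_pos he0 hP, mul_le_mul_of_nonneg_right he2 hP.le]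
  · nlinarith [mul_pos he0 hP, mul_nonneg (mul_nonneg he0.le (by linarith : 0 ≤ 1 - e)) hP.le, mul_le_mul_of_nonneg_right he2 hP.le]

end Pool.Agent.Lib.G5
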